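import Pool.Agent.H26.AH.Ka

/-!
# MP_103a5c_AH: sampling of `C(t - iy)` (block `Ksamp`)
-/

open MeasureTheory Set Filter Topology
open scoped Real ContDiff ComplexConjugate

namespace Pool.Agent.H26.AH

open Pool.Agent Pool.Agent.H6 Pool.Agent.H14.GP Pool.Agent.H24.HF Pool.Agent.H67.HF Pool.Agent.H68.AH

theorem CC_zero (M : ℕ) (G : ℕ → ℝ → ℝ) (T t : ℝ) : CC 0 M G T t = CT M G T t := by
  unfold CC CT
  refine Finset.sum_congr rfl fun k _ => ?_
  simp

theorem continuous_CT' (M : ℕ) (G : ℕ → ℝ → ℝ) (T : ℝ) : Continuous (fun t => CT M G T t) := by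
  simp_rw [CT_ev]
  exact continuous_ev _

theorem EC_normSq {v : ℝ → ℝ} (T : ℝ) (f : ℝ → ℂ) : EC v T (fun t => f t * conj (f t)) = (EE v T (fun t => ‖f t‖ ^ 2) : ℂ) := by
  rw [← EC_ofReal]
  congr 1
  funext t
  rw [Complex.mul_conj, Complex.normSq_eq_norm_sq]

/-- mean square of `C`, uniformly under translations -/
theorem CT_mean {v : ℝ → ℝ} (hv : Wgt v) {M : ℕ} {θ : ℝ} {G : ℕ → ℝ → ℝ} (hG : Cells1 M θ G) :
    ∀ᶠ T in atTop, ∀ u : ℝ, EE v T (fun t => ‖CT M G T (t + u)‖ ^ 2) ≤ (∫ x, v x) * M + 1 := by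
  have hθ : 0 < 1 - θ := by linarith [hG.θ_lt]
  obtain ⟨C, hC0, hC⟩ := mv_shift hv hθ (2 * M + 1)
  obtain ⟨C₁, hC₁0, hC₁⟩ := l1_XC hG
  have h1 := Pool.Agent.H68.HF.mean_C hv hG 0
  have h2 : ∀ᶠ T in atTop, EE v T (fun t => ‖CC 0 M G T t‖ ^ 2) < (∫ x, v x) * M + 1 / 3 :=
    h1.eventually_lt_const (by linarith)
  filter_upwards [h2, eventually_ge_atTop (1 : ℝ), eventually_ge_atTop (3 * (C * C₁ ^ 2)), eventually_gt_atTop (1 : ℝ)]
    with T hT2 hT1 hT3 hT4 u
  have hT0 : 0 < T := by linarith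
  have hsupp : SuppLe (T ^ (1 - (1 - θ))) (XC M G T) := by
    have := suppLe_XC hG hT4
    rwa [sub_sub_cancel]
  have hl1 := hC₁ T hT1
  have herr : C * T ^ (-((2 * M + 1 : ℕ) : ℝ)) * l1 (XC M G T) * l1 (XC M G T) ≤ 1 / 3 := by
    have h3 : l1 (XC M G T) * l1 (XC M G T) ≤ (C₁ * T ^ M) * (C₁ * T ^ M) :=
      mul_le_mul hl1 hl1 (l1_nonneg _) (by positivity)
    have h4 : T ^ (-((2 * M + 1 : ℕ) : ℝ)) = (T ^ (2 * M + 1))⁻¹ := by
      rw [Real.rpow_neg hT0.le, Real.rpow_natCast]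
    calc C * T ^ (-((2 * M + 1 : ℕ) : ℝ)) * l1 (XC M G T) * l1 (XC M G T)
        = C * T ^ (-((2 * M + 1 : ℕ) : ℝ)) * (l1 (XC M G T) * l1 (XC M G T)) := by ring
      _ ≤ C * T ^ (-((2 * M + 1 : ℕ) : ℝ)) * ((C₁ * T ^ M) * (C₁ * T ^ M)) :=
          mul_le_mul_of_nonneg_left h3 (by positivity)
      _ = C * C₁ ^ 2 / T := by
          rw [h4, pow_succ, two_mul, pow_add]
          field_simp
      _ ≤ 1 / 3 := by
          rw [div_le_div_iff₀ hT0 (by norm_num)]
          linarith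
  have hu := hC T hT1 (XC M G T) hsupp u
  have h0 := hC T hT1 (XC M G T) hsupp 0
  rw [EC_normSq, ← Complex.ofReal_sub, Complex.norm_real, Real.norm_eq_abs] at hu h0
  simp only [add_zero] at h0
  have hu2 := (abs_le.1 (hu.trans herr)).2
  have h02 := (abs_le.1 (h0.trans herr)).1
  have e0 : (fun t => ‖ev t (XC M G T)‖ ^ 2) = fun t => ‖CC 0 M G T t‖ ^ 2 := by
    funext t
    rw [CC_zero, CT_ev]
  rw [e0] at h02
  have eu : (fun t => ‖CT M G T (t + u)‖ ^ 2) = fun t => ‖ev (t + u) (XC M G T)‖ ^ 2 := by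
    funext t
    rw [CT_ev]
  rw [eu]
  linarith

/-- a weight which is `≥ 1` on `[α, β]` -/
theorem exists_wgt {α β : ℝ} (hα : 0 < α) (hαβ : α < β) (hβ : β < 1) : ∃ v : ℝ → ℝ, Wgt v ∧ (∀ x ∈ Icc α β, v x = 1) ∧
    ∫ x, v x ≤ 1 := by
  let b : ContDiffBump ((α + β) / 2) := ⟨(β - α) / 2, β / 2, by linarith, by linarith⟩
  refine ⟨b, ⟨b.contDiff, ⟨α / 2, (α + 2 * β) / 2, by linarith, by linarith, fun x hx => ?_⟩, fun x => b.nonneg⟩, ?_, ?_⟩
  · apply b.zero_of_le_dist
    rw [Real.dist_eq]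
    show β / 2 ≤ |x - (α + β) / 2|
    by_contra h
    rw [not_le, abs_lt] at h
    exact hx ⟨by linarith, by linarith⟩
  · intro x hx
    apply b.one_of_mem_closedBall
    rw [Metric.mem_closedBall, Real.dist_eq]
    show |x - (α + β) / 2| ≤ (β - α) / 2
    rw [abs_le]
    exact ⟨by linarith [hx.1], by linarith [hx.2]⟩
  · have h1 : ∫ x, b x ≤ ∫ x, (Icc (α / 2) ((α + 2 * β) / 2)).indicator (fun _ => (1 : ℝ)) x := by
      apply integral_mono_of_nonneg (ae_of_all _ fun x => b.nonneg)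
      · rw [integrable_indicator_iff measurableSet_Icc]
        exact integrableOn_const (measure_Icc_lt_top).ne
      · refine ae_of_all _ fun x => ?_
        by_cases hx : x ∈ Icc (α / 2) ((α + 2 * β) / 2)
        · rw [indicator_of_mem hx]
          exact b.le_one
        · rw [indicator_of_notMem hx]
          apply le_of_eq
          apply b.zero_of_le_dist
          rw [Real.dist_eq]
          show β / 2 ≤ |x - (α + β) / 2|
          by_contra h
          rw [not_le, abs_lt] at h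
          exact hx ⟨by linarith, by linarith⟩
    refine h1.trans ?_
    rw [integral_indicator measurableSet_Icc, setIntegral_const, smul_eq_mul, mul_one, Real.volume_real_Icc_of_le (by linarith)]
    linarith

/-- exact sampling formula for `C(t - iy)` -/
theorem CT_samp {M : ℕ} {θ : ℝ} {G : ℕ → ℝ → ℝ} (hG : Cells1 M θ G) {n : ℕ} (hn : 2 ≤ n) {h δ y : ℝ} (hh : 0 < h) (hδ : 0 < δ)
    (hδ1 : δ ≤ 1 / 2) (hnh : 4 * (n * h) ≤ 2 * π) (hy : 0 < y) (hnhy : n * h * y ≤ 1) :
    ∃ w : ℤ → ℂ, (∀ T, 1 < T → ∀ t, HasSum (fun k : ℤ => w k * CT M G T (t + 2 * π * (k * δ) / Real.log T))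
        (CT M (Pool.Agent.H68.AH.hG y G) T t)) ∧
      (∀ k, ‖w k‖ ≤ 7 / (h * y) * (h * δ / (1 + (0 - k * (h * δ)) ^ 2))) ∧
      (∀ (k : ℤ) (R : ℝ), 1 ≤ h * R → R ≤ |(k : ℝ) * δ| →
        ‖w k‖ ≤ (1 / (h * R)) ^ (n - 2) * (7 / (h * y) * (h * δ / (1 + (0 - k * (h * δ)) ^ 2)))) := by
  have hpi := Real.pi_pos
  obtain ⟨w, hw1, hw2, hw3⟩ := samp_weights hn hh (by positivity : 0 < 2 * π) hδ (by nlinarith) hnh hy hnhy
  refine ⟨fun k => w (-k), ?_, ?_, ?_⟩
  · intro T hT t
    have hT0 : 0 < T := by linarith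
    have hL : 0 < Real.log T := Real.log_pos hT
    set L := Real.log T with hLdef
    set X := XC M G T with hX
    have hsupp := suppLe_XC hG hT
    have hn0 : ∀ j ∈ X.coeff.support, 1 ≤ j ∧ (j : ℝ) ≤ T := by
      intro j hj
      have h1 := hsupp j (Finsupp.mem_support_iff.1 hj)
      refine ⟨h1.1, h1.2.trans ?_⟩
      calc T ^ θ ≤ T ^ (1 : ℝ) := Real.rpow_le_rpow_of_exponent_le hT.le hG.θ_lt.le
        _ = T := Real.rpow_one T
    have h1 := hw1 X.coeff.support (fun j => (X.coeff j : ℂ)) (fun j => 2 * π * Real.log j / L) (-(t * L / (2 * π))) (by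
      intro j hj
      have h2 := hn0 j hj
      have hj0 : (0 : ℝ) < j := by exact_mod_cast h2.1
      constructor
      · have : 0 ≤ Real.log j := Real.log_nonneg (by exact_mod_cast h2.1)
        positivity
      · rw [div_le_iff₀ hL]
        have : Real.log j ≤ L := Real.log_le_log hj0 h2.2
        exact mul_le_mul_of_nonneg_left this (by positivity))
    have e1 : esum X.coeff.support (fun j => (X.coeff j : ℂ)) (fun j => 2 * π * Real.log j / L)
        (((-(t * L / (2 * π)) : ℝ) : ℂ) + y * Complex.I) = CT M (Pool.Agent.H68.AH.hG y G) T t := by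
      rw [CT_evz M G hT, evz_eq]
      unfold esum
      refine Finset.sum_congr rfl fun j hj => ?_
      have hj0 : j ≠ 0 := by have := (hn0 j hj).1; omega
      rw [chz_apply _ hj0]
      congr 1
      unfold ec
      congr 1
      have hL' : (L : ℂ) ≠ 0 := by exact_mod_cast hL.ne'
      have hpi' : (π : ℂ) ≠ 0 := by exact_mod_cast hpi.ne'
      push_cast
      rw [← hLdef]
      field_simp
      have hI : Complex.I ^ 2 = -1 := Complex.I_sq
      ring_nf
      rw [hI]
      ring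
    have e2 : ∀ k : ℤ, esum X.coeff.support (fun j => (X.coeff j : ℂ)) (fun j => 2 * π * Real.log j / L)
        (((-(t * L / (2 * π)) : ℝ) : ℂ) + k * δ) = CT M G T (t + 2 * π * ((-k : ℤ) * δ) / L) := by
      intro k
      rw [CT_ev, ev_eq]
      unfold esum
      refine Finset.sum_congr rfl fun j hj => ?_
      have hj0 : j ≠ 0 := by have := (hn0 j hj).1; omega
      rw [Vb_chi _ hj0]
      congr 1
      unfold ec
      congr 1
      have hL' : (L : ℂ) ≠ 0 := by exact_mod_cast hL.ne'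
      have hpi' : (π : ℂ) ≠ 0 := by exact_mod_cast hpi.ne'
      push_cast
      field_simp
      ring
    rw [e1] at h1
    simp_rw [e2] at h1
    have h2 := (Equiv.neg ℤ).hasSum_iff.2 h1
    have e3 : (fun k : ℤ => w (-k) * CT M G T (t + 2 * π * (k * δ) / L)) =
        (fun k : ℤ => w k * CT M G T (t + 2 * π * ((-k : ℤ) * δ) / L)) ∘ (Equiv.neg ℤ) := by
      funext k
      simp
    rw [e3]
    exact h2
  · intro k
    have := hw2 (-k)
    push_cast at this
    rw [neg_mul, sub_neg_eq_add, zero_add] at this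
    rw [zero_sub, neg_sq]
    exact this
  · intro k R hR hk
    have := hw3 (-k) R hR (by
      push_cast
      rw [neg_mul, abs_neg]
      exact hk)
    push_cast at this
    rw [neg_mul, sub_neg_eq_add, zero_add] at this
    rw [zero_sub, neg_sq]
    exact this

/-- measure of the set where a weighted sum of translates of `|C|` is large -/
theorem tail_meas {M : ℕ} {θ : ℝ} {G : ℕ → ℝ → ℝ} (hG : Cells1 M θ G) {α β : ℝ} (hα : 0 < α) (hαβ : α < β) (hβ : β < 1)
    {a : ℤ → ℝ} (ha : ∀ k, 0 ≤ a k) {A : ℝ} (hA : HasSum a A) :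
    ∀ᶠ T in atTop, ∀ u : ℤ → ℝ, ∃ E : Set ℝ, volume.real (E ∩ Icc (α * T) (β * T)) ≤ A * (M + 2) * T ∧
      ∀ t, t ∉ E → ∑' k, a k * ‖CT M G T (t + u k)‖ ≤ 1 := by
  obtain ⟨v, hv, hv1, hv2⟩ := exists_wgt hα hαβ hβ
  obtain ⟨C₁, hC₁0, hC₁⟩ := l1_XC hG
  filter_upwards [CT_mean hv hG, eventually_gt_atTop (1 : ℝ)] with T hT hT1 u
  have hT0 : 0 < T := by linarith
  have hA0 : 0 ≤ A := hA.nonneg ha
  have hle : α * T ≤ β * T := mul_le_mul_of_nonneg_right hαβ.le hT0.le
  have hbd : ∀ t, ‖CT M G T t‖ ≤ l1 (XC M G T) := fun t => by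
    rw [CT_ev]
    exact norm_ev_le t _
  have hint : ∀ k : ℤ, ∫ t in Icc (α * T) (β * T), a k * ‖CT M G T (t + u k)‖ ≤ a k * ((M + 2) * T) := by
    intro k
    rw [integral_const_mul]
    refine mul_le_mul_of_nonneg_left ?_ (ha k)
    have hc : Continuous fun t => CT M G T (t + u k) := (continuous_CT' M G T).comp (by fun_prop)
    have h1 : ∫ t in Icc (α * T) (β * T), ‖CT M G T (t + u k)‖ ≤
        ∫ t in Icc (α * T) (β * T), (1 + v (t / T) * ‖CT M G T (t + u k)‖ ^ 2) := by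
      apply setIntegral_mono_on
      · exact hc.norm.integrableOn_Icc
      · apply Continuous.integrableOn_Icc
        have := hv.smooth.continuous
        fun_prop
      · exact measurableSet_Icc
      · intro t ht
        have h2 : v (t / T) = 1 := by
          apply hv1
          exact ⟨(le_div_iff₀ hT0).2 ht.1, (div_le_iff₀ hT0).2 ht.2⟩
        rw [h2, one_mul]
        nlinarith [sq_nonneg (‖CT M G T (t + u k)‖ - 1), norm_nonneg (CT M G T (t + u k))]
    refine h1.trans ?_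
    have hvc : Continuous fun t => v (t / T) * ‖CT M G T (t + u k)‖ ^ 2 := by
      have := hv.smooth.continuous
      fun_prop
    have hc1 : IntegrableOn (fun _ : ℝ => (1 : ℝ)) (Icc (α * T) (β * T)) := integrableOn_const (measure_Icc_lt_top).ne
    rw [integral_add hc1 hvc.integrableOn_Icc, setIntegral_const, smul_eq_mul, mul_one,
      Real.volume_real_Icc_of_le hle]
    have h3 : ∫ t in Icc (α * T) (β * T), v (t / T) * ‖CT M G T (t + u k)‖ ^ 2 ≤
        ∫ t, v (t / T) * ‖CT M G T (t + u k)‖ ^ 2 := by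
      apply setIntegral_le_integral
      · apply hvc.integrable_of_hasCompactSupport
        apply HasCompactSupport.mul_right
        obtain ⟨c, d, _, _, hcd⟩ := hv.supp
        apply HasCompactSupport.intro (isCompact_Icc (a := c * T) (b := d * T))
        intro t ht
        apply hcd
        intro h2
        exact ht ⟨(le_div_iff₀ hT0).1 h2.1, (div_le_iff₀ hT0).1 h2.2⟩
      · exact ae_of_all _ fun t => mul_nonneg (hv.nonneg _) (by positivity)
    have h4 := hT (u k)
    unfold EE at h4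
    rw [one_div, inv_mul_le_iff₀ hT0] at h4
    have h5 : T * ((∫ x, v x) * M + 1) ≤ T * (M + 1) := by
      apply mul_le_mul_of_nonneg_left _ hT0.le
      have : (∫ x, v x) * M ≤ 1 * M := mul_le_mul_of_nonneg_right hv2 (Nat.cast_nonneg M)
      linarith
    have h6 : β * T - α * T ≤ T := by nlinarith
    linarith
  set f : ℝ → ENNReal := fun t => ∑' k, ENNReal.ofReal (a k * ‖CT M G T (t + u k)‖) with hf
  have hmeas : ∀ k, Measurable fun t => ENNReal.ofReal (a k * ‖CT M G T (t + u k)‖) := by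
    intro k
    have hc : Continuous fun t => a k * ‖CT M G T (t + u k)‖ := continuous_const.mul ((continuous_CT' M G T).comp (by fun_prop)).norm
    exact hc.measurable.ennreal_ofReal
  have hsumm : ∀ t, Summable fun k => a k * ‖CT M G T (t + u k)‖ := by
    intro t
    refine Summable.of_nonneg_of_le (fun k => mul_nonneg (ha k) (norm_nonneg _)) (fun k => ?_) (hA.summable.mul_right (l1 (XC M G T)))
    exact mul_le_mul_of_nonneg_left (hbd _) (ha k)
  refine ⟨{t | 1 ≤ f t}, ?_, ?_⟩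
  · have h1 : ∫⁻ t in Icc (α * T) (β * T), f t ≤ ENNReal.ofReal (A * (M + 2) * T) := by
      rw [hf, lintegral_tsum fun k => (hmeas k).aemeasurable]
      have h2 : ∀ k, ∫⁻ t in Icc (α * T) (β * T), ENNReal.ofReal (a k * ‖CT M G T (t + u k)‖) ≤
          ENNReal.ofReal (a k * ((M + 2) * T)) := by
        intro k
        have hc : Continuous fun t => a k * ‖CT M G T (t + u k)‖ := continuous_const.mul ((continuous_CT' M G T).comp (by fun_prop)).norm
        rw [← ofReal_integral_eq_lintegral_ofReal]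
        · exact ENNReal.ofReal_le_ofReal (hint k)
        · exact hc.integrableOn_Icc
        · exact ae_of_all _ fun t => mul_nonneg (ha k) (norm_nonneg _)
      refine (ENNReal.tsum_le_tsum h2).trans ?_
      rw [← ENNReal.ofReal_tsum_of_nonneg (fun k => mul_nonneg (ha k) (by positivity)) (hA.summable.mul_right _),
        tsum_mul_right, hA.tsum_eq]
      apply ENNReal.ofReal_le_ofReal
      apply le_of_eq
      ring
    have h2 : volume ({t | 1 ≤ f t} ∩ Icc (α * T) (β * T)) ≤ ENNReal.ofReal (A * (M + 2) * T) := by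
      have h3 := mul_meas_ge_le_lintegral (μ := volume.restrict (Icc (α * T) (β * T))) (Measurable.ennreal_tsum hmeas) 1
      rw [one_mul] at h3
      have h4 : MeasurableSet {t | 1 ≤ f t} := measurableSet_le measurable_const (Measurable.ennreal_tsum hmeas)
      rw [Measure.restrict_apply h4] at h3
      exact h3.trans h1
    rw [Measure.real]
    refine ENNReal.toReal_le_of_le_ofReal (by positivity) h2
  · intro t ht
    have ht : f t < 1 := not_le.1 ht
    have h1 : ENNReal.ofReal (∑' k, a k * ‖CT M G T (t + u k)‖) = f t :=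
      ENNReal.ofReal_tsum_of_nonneg (fun k => mul_nonneg (ha k) (norm_nonneg _)) (hsumm t)
    rw [← h1, ← ENNReal.ofReal_one] at ht
    exact ((ENNReal.ofReal_lt_ofReal_iff one_pos).1 ht).le

/-- block `Ksamp`, for cells of length `< 1` -/
theorem Ksamp1 : ∃ (K₃ : ℝ) (M₀ : ℕ), 0 < K₃ ∧ ∀ (M : ℕ) (θ : ℝ) (G : ℕ → ℝ → ℝ), M₀ ≤ M → Cells1 M θ G → ∀ δ : ℝ,
    1 / 4 < δ → δ < 1 / 2 → ∀ α β : ℝ, 0 < α → α < β → β < 1 →
      Rare atTop α β (K₃ / M) (fun T => {t | ∃ A : ℝ,
        (∀ k : ℤ, |k| ≤ Pool.Agent.H68.AH.KK M → ‖CT M G T (t + 2 * π * (k * δ) / Real.log T)‖ ≤ A) ∧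
        K₃ * Real.log M * A + 1 < ‖CT M (Pool.Agent.H68.AH.hG (yy M) G) T t‖}) := by
  refine ⟨400, ⌈Real.exp 1000⌉₊, by norm_num, ?_⟩
  intro M θ G hM hG δ hδ1 hδ2 α β hα hαβ hβ
  have hpi := Real.pi_pos
  have hpi3 := Real.pi_gt_three
  have hpi4 : π < 3.15 := Real.pi_lt_d2
  have hδ0 : 0 < δ := by linarith
  have hMe : Real.exp 1000 ≤ M := (Nat.le_ceil _).trans (by exact_mod_cast hM)
  have hM0 : (0 : ℝ) < M := (Real.exp_pos _).trans_le hMe
  set ℓ := Real.log M with hℓ
  have hℓ1 : 1000 ≤ ℓ := by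
    rw [hℓ, Real.le_log_iff_exp_le hM0]
    exact hMe
  have hexpℓ : Real.exp ℓ = M := Real.exp_log hM0
  have hℓM : ℓ ≤ M := by
    rw [← hexpℓ]
    linarith [Real.add_one_le_exp ℓ]
  set n : ℕ := ⌈ℓ⌉₊ + 5 with hn
  have hn1 : ℓ + 5 ≤ n := by
    rw [hn]
    push_cast
    linarith [Nat.le_ceil ℓ]
  have hn2 : (n : ℝ) ≤ 2 * ℓ := by
    rw [hn]
    push_cast
    linarith [Nat.ceil_lt_add_one (by linarith : 0 ≤ ℓ)]
  have hn0 : (0 : ℝ) < n := by linarith
  have hnn : 2 ≤ n := by omega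
  set y := yy M with hy
  have hyℓ : y = ℓ ^ 3 := rfl
  have hy0 : 0 < y := by rw [hyℓ]; positivity
  have hy1 : 1 ≤ y := by
    rw [hyℓ]
    exact one_le_pow₀ (by linarith)
  set h := 1 / (n * y) with hh
  have hh0 : 0 < h := by positivity
  have hnh : n * h * y = 1 := by
    rw [hh]
    field_simp
  have hnh2 : 4 * (n * h) ≤ 2 * π := by
    have h1 : n * h ≤ n * h * y := le_mul_of_one_le_right (by positivity) hy1
    linarith
  obtain ⟨w, hw1, hw2, hw3⟩ := CT_samp hG hnn hh0 hδ0 hδ2.le hnh2 hy0 hnh.le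
  have hhδ : h * δ ≤ 1 / 2 := by
    have h1 : h ≤ 1 := by
      rw [hh, div_le_one (by positivity)]
      nlinarith
    nlinarith
  have hhδ0 : 0 < h * δ := by positivity
  have h7 : 7 / (h * y) = 7 * n := by
    rw [hh]
    field_simp
  rw [h7] at hw2 hw3
  -- total weight
  have hker := summable_kernel hhδ0 hhδ 0
  have hkerle := tsum_kernel_le hhδ0 hhδ 0
  have hwsum : Summable fun k => ‖w k‖ := Summable.of_nonneg_of_le (fun k => norm_nonneg _) hw2 (hker.mul_left _)
  have hwtot : ∑' k, ‖w k‖ ≤ 400 * ℓ := by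
    calc ∑' k, ‖w k‖ ≤ ∑' k : ℤ, 7 * n * (h * δ / (1 + (0 - k * (h * δ)) ^ 2)) := hwsum.tsum_le_tsum hw2 (hker.mul_left _)
      _ = 7 * n * ∑' k : ℤ, (h * δ / (1 + (0 - k * (h * δ)) ^ 2)) := tsum_mul_left
      _ ≤ 7 * n * (2 * π) := mul_le_mul_of_nonneg_left hkerle (by positivity)
      _ ≤ _ := by nlinarith
  -- far weights
  set K : ℕ := Pool.Agent.H68.AH.KK M with hK
  have hKℓ : ℓ ^ 5 ≤ K := Nat.le_ceil _
  set R := ℓ ^ 5 / 4 with hR
  have hhR : 125 ≤ h * R := by
    rw [hh, hR, hyℓ, one_div_mul_eq_div, le_div_iff₀ (by positivity)]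
    have e : ℓ ^ 5 = ℓ ^ 3 * ℓ ^ 2 := by ring
    rw [e]
    have h1 : 500 * n ≤ ℓ ^ 2 := by nlinarith
    have h2 : 0 < ℓ ^ 3 := by positivity
    nlinarith
  set a : ℤ → ℝ := fun k => if (K : ℤ) < |k| then ‖w k‖ else 0 with ha_def
  have ha0 : ∀ k, 0 ≤ a k := fun k => by
    rw [ha_def]
    simp only
    split_ifs
    · exact norm_nonneg _
    · exact le_refl _
  have hfar : (1 / (h * R)) ^ (n - 2) ≤ Real.exp (-(4 * ℓ)) := by
    have h1 : 1 / (h * R) ≤ Real.exp (-4) := by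
      rw [one_div, Real.exp_neg]
      apply inv_anti₀ (Real.exp_pos _)
      have h2 : Real.exp 4 ≤ 125 := by
        have h3 : Real.exp 4 = Real.exp 1 ^ 4 := by rw [← Real.exp_nat_mul]; norm_num
        rw [h3]
        have h4 := Real.exp_one_lt_d9
        calc Real.exp 1 ^ 4 ≤ 2.72 ^ 4 := pow_le_pow_left₀ (Real.exp_pos _).le (by linarith) 4
          _ ≤ 125 := by norm_num
      linarith
    have h2 : 0 ≤ 1 / (h * R) := by positivity
    calc (1 / (h * R)) ^ (n - 2) ≤ Real.exp (-4) ^ (n - 2) := pow_le_pow_left₀ h2 h1 _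
      _ = Real.exp (((n - 2 : ℕ) : ℝ) * (-4)) := by rw [← Real.exp_nat_mul]
      _ ≤ _ := by
        apply Real.exp_le_exp.2
        rw [Nat.cast_sub hnn]
        push_cast
        nlinarith
  have ha_le : ∀ k, a k ≤ Real.exp (-(4 * ℓ)) * (7 * n * (h * δ / (1 + (0 - k * (h * δ)) ^ 2))) := by
    intro k
    rw [ha_def]
    simp only
    split_ifs with hk
    · have hk' : (K : ℝ) < |(k : ℝ)| := by exact_mod_cast hk
      have h1 : R ≤ |(k : ℝ) * δ| := by
        rw [abs_mul, abs_of_pos hδ0, hR]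
        have h2 : 0 ≤ ℓ ^ 5 := by positivity
        nlinarith
      refine (hw3 k R (by linarith) h1).trans ?_
      exact mul_le_mul_of_nonneg_right hfar (by positivity)
    · positivity
  have hasum : Summable a := Summable.of_nonneg_of_le ha0 ha_le ((hker.mul_left _).mul_left _)
  have hA : ∑' k, a k ≤ Real.exp (-(4 * ℓ)) * (400 * ℓ) := by
    calc ∑' k, a k ≤ ∑' k : ℤ, Real.exp (-(4 * ℓ)) * (7 * n * (h * δ / (1 + (0 - k * (h * δ)) ^ 2))) :=
          hasum.tsum_le_tsum ha_le ((hker.mul_left _).mul_left _)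
      _ = Real.exp (-(4 * ℓ)) * (7 * n * ∑' k : ℤ, (h * δ / (1 + (0 - k * (h * δ)) ^ 2))) := by rw [tsum_mul_left, tsum_mul_left]
      _ ≤ Real.exp (-(4 * ℓ)) * (7 * n * (2 * π)) := by
          apply mul_le_mul_of_nonneg_left _ (Real.exp_pos _).le
          exact mul_le_mul_of_nonneg_left hkerle (by positivity)
      _ ≤ _ := by
          apply mul_le_mul_of_nonneg_left _ (Real.exp_pos _).le
          nlinarith
  have hA2 : (∑' k, a k) * (M + 2) ≤ 400 / M := by
    have h1 : Real.exp (-(4 * ℓ)) = 1 / (M : ℝ) ^ 4 := by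
      rw [Real.exp_neg, one_div, ← hexpℓ, ← Real.exp_nat_mul]
      norm_num
    rw [h1] at hA
    have hM2 : (1000 : ℝ) ≤ M := by linarith
    calc (∑' k, a k) * (M + 2) ≤ (1 / (M : ℝ) ^ 4 * (400 * ℓ)) * (M + 2) := mul_le_mul_of_nonneg_right hA (by positivity)
      _ ≤ (1 / (M : ℝ) ^ 4 * (400 * M)) * (M ^ 2) := by
          apply mul_le_mul _ _ (by positivity) (by positivity)
          · apply mul_le_mul_of_nonneg_left _ (by positivity)
            linarith
          · nlinarith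
      _ = 400 / M := by
          field_simp
  unfold Rare
  filter_upwards [tail_meas hG hα hαβ hβ ha0 hasum.hasSum, eventually_gt_atTop (1 : ℝ)] with T hT hT1
  have hT0 : 0 < T := by linarith
  obtain ⟨E, hE1, hE2⟩ := hT (fun k => 2 * π * (k * δ) / Real.log T)
  have hsub : {t | ∃ A : ℝ, (∀ k : ℤ, |k| ≤ K → ‖CT M G T (t + 2 * π * (k * δ) / Real.log T)‖ ≤ A) ∧
      400 * ℓ * A + 1 < ‖CT M (Pool.Agent.H68.AH.hG y G) T t‖} ⊆ E := by
    intro t ht
    by_contra hE
    obtain ⟨A, hA1, hA3⟩ := ht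
    have hA0 : 0 ≤ A := (norm_nonneg _).trans (hA1 0 (by simp))
    have h1 := hE2 t hE
    have h2 := hw1 T hT1 t
    have hbd : ∀ t, ‖CT M G T t‖ ≤ l1 (XC M G T) := fun t => by
      rw [CT_ev]
      exact norm_ev_le t _
    have h3 : ∀ k : ℤ, ‖w k * CT M G T (t + 2 * π * (k * δ) / Real.log T)‖ ≤
        ‖w k‖ * A + a k * ‖CT M G T (t + 2 * π * (k * δ) / Real.log T)‖ := by
      intro k
      rw [norm_mul]
      by_cases hk : |k| ≤ K
      · have h4 := mul_le_mul_of_nonneg_left (hA1 k hk) (norm_nonneg (w k))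
        have h5 := mul_nonneg (ha0 k) (norm_nonneg (CT M G T (t + 2 * π * (k * δ) / Real.log T)))
        linarith
      · have h4 : a k = ‖w k‖ := if_pos (not_le.1 hk)
        rw [h4]
        have := mul_nonneg (norm_nonneg (w k)) hA0
        linarith
    have h4 : Summable fun k => a k * ‖CT M G T (t + 2 * π * (k * δ) / Real.log T)‖ := by
      refine Summable.of_nonneg_of_le (fun k => mul_nonneg (ha0 k) (norm_nonneg _)) (fun k => ?_)
        (hasum.mul_right (l1 (XC M G T)))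
      exact mul_le_mul_of_nonneg_left (hbd _) (ha0 k)
    have h5 := h2.norm_le_of_bounded ((hwsum.mul_right A).add h4).hasSum h3
    rw [(hwsum.mul_right A).tsum_add h4, tsum_mul_right] at h5
    have h6 : (∑' k, ‖w k‖) * A ≤ 400 * ℓ * A := mul_le_mul_of_nonneg_right hwtot hA0
    linarith
  have hfin : volume (E ∩ Icc (α * T) (β * T)) ≠ ⊤ :=
    ne_top_of_le_ne_top (measure_Icc_lt_top).ne (measure_mono inter_subset_right)
  calc volume.real (_ ∩ Icc (α * T) (β * T)) ≤ volume.real (E ∩ Icc (α * T) (β * T)) :=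
        measureReal_mono (inter_subset_inter_left _ hsub) hfin
    _ ≤ (∑' k, a k) * (M + 2) * T := hE1
    _ ≤ 400 / M * T := mul_le_mul_of_nonneg_right hA2 hT0.le

end Pool.Agent.H26.AH
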