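import Pool.Agent.H68.AH.Defs
import Pool.Agent.H98.HF.Pp

/-!
# MP_103a5c_AH: `|V|` in terms of `Rr`
-/

open MeasureTheory Set Filter Topology
open scoped Real ContDiff ComplexConjugate

namespace Pool.Agent.H26.AH

open Pool.Agent Pool.Agent.H6 Pool.Agent.H14.GP Pool.Agent.H24.HF Pool.Agent.H67.HF Pool.Agent.H68.AH Pool.Agent.H98.HF
  Pool.Agent.H98.GP

theorem Gd_eq' (χ : ℝ → ℝ) (δ u : ℝ) : Gd χ δ u = χ u * (Real.sin (π * δ * u) / π) := by
  unfold Gd hd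
  by_cases hu : π * δ * u = 0
  · rw [hu, Real.sin_zero, Real.sinc_zero]
    have hπ := Real.pi_ne_zero
    have : δ * u = 0 := by
      rcases mul_eq_zero.1 hu with h | h
      · rcases mul_eq_zero.1 h with h | h
        · exact absurd h hπ
        · rw [h, zero_mul]
      · rw [h, mul_zero]
    calc u * (χ u * (δ * 1)) = χ u * (δ * u) := by ring
      _ = _ := by rw [this]; ring
  · have hπ := Real.pi_ne_zero
    rw [Real.sinc_of_ne_zero hu]
    have hδ : δ ≠ 0 := fun h => hu (by rw [h]; ring)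
    have hu0 : u ≠ 0 := fun h => hu (by rw [h]; ring)
    field_simp

theorem Rr_eq (χ₁ : ℝ → ℝ) {D T : ℝ} (hD : 0 < D) (hT : 1 < T) (t : ℝ) :
    Rr χ₁ D T t = CPs D (Pool.Agent.H68.AH.win χ₁ D) (Real.log T) t := by
  unfold Rr
  rw [Pp_ev _ hD hT]
  simp

theorem CPs_sub (χ : ℝ → ℝ) (D δ L t : ℝ)  :
    CPs D χ L (t + π * δ / L) - CPs D χ L (t - π * δ / L) = -(2 * π) * SPs D (Gd χ δ) L t := by
  unfold CPs SPs
  rw [← Finset.sum_sub_distrib, Finset.mul_sum]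
  refine Finset.sum_congr rfl fun p _ => ?_
  rw [Gd_eq', add_mul, sub_mul, Real.cos_add, Real.cos_sub]
  have e : π * δ / L * Real.log p = π * δ * (Real.log p / L) := by ring
  rw [e]
  have hπ := Real.pi_ne_zero
  field_simp
  ring

/-- `|V|` in terms of `Rr` -/
theorem norm_VV {χ₁ : ℝ → ℝ} (δ D T t : ℝ) (hT : 1 < T) (hD : 1 ≤ D) :
    ‖VV χ₁ δ D T t‖ = Real.exp (Rr χ₁ D T (t + π * δ / Real.log T) - Rr χ₁ D T (t - π * δ / Real.log T)) := by
  have hD0 : 0 < D := by linarith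
  rw [Rr_eq χ₁ hD0 hT, Rr_eq χ₁ hD0 hT, CPs_sub]
  unfold VV nD PP1
  rw [Complex.norm_exp, Pp_ev _ hD0 hT]
  congr 1
  simp
  ring

end Pool.Agent.H26.AH
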