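import Pool.Agent.H26.AH.Pb
import Pool.Agent.H98.HF.Ne
import Pool.Agent.H98.HF.Nd
import Pool.Agent.H6.Glue

/-!
# MP_103a5c_AH, block P4, part f: the low band
-/

open MeasureTheory Set Filter Topology
open scoped Real Interval ContDiff

namespace Pool.Agent.H26.AH

open Pool.Agent Pool.Agent.H6 Pool.Agent.H67.HF Pool.Agent.H68.AH Pool.Agent.H98.HF Pool.Agent.H98.GP

/-- Markov's inequality for the 16-th moment -/
theorem markov16 {f : ℝ → ℝ} (hf : Continuous f) {a b Λ : ℝ} (hab : a ≤ b) (hΛ : 0 < Λ) :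
    volume.real ({t | Λ < |f t|} ∩ Icc a b) ≤ (∫ t in a..b, f t ^ (2 * 8)) / Λ ^ 16 := by
  have hset : MeasurableSet ({t | Λ < |f t|} ∩ Icc a b) :=
    ((isOpen_lt continuous_const hf.abs).measurableSet).inter measurableSet_Icc
  have hfin : volume ({t | Λ < |f t|} ∩ Icc a b) ≠ ⊤ :=
    ne_top_of_le_ne_top (measure_Icc_lt_top).ne (measure_mono inter_subset_right)
  have hint : IntegrableOn (fun t => f t ^ (2 * 8)) (Icc a b) := (hf.pow _).continuousOn.integrableOn_Icc
  rw [le_div_iff₀ (by positivity), intervalIntegral.integral_of_le hab, ← integral_Icc_eq_integral_Ioc]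
  calc volume.real ({t | Λ < |f t|} ∩ Icc a b) * Λ ^ 16 = ∫ t in {t | Λ < |f t|} ∩ Icc a b, Λ ^ 16 := by
        rw [setIntegral_const, smul_eq_mul]
    _ ≤ ∫ t in {t | Λ < |f t|} ∩ Icc a b, f t ^ (2 * 8) := by
        apply setIntegral_mono_on (integrableOn_const hfin) (hint.mono_set inter_subset_right) hset
        intro t ht
        have h3 : Λ < |f t| := ht.1
        have h4 := pow_le_pow_left₀ hΛ.le h3.le 16
        have h5 : |f t| ^ 16 = f t ^ (2 * 8) := by
          rw [pow_mul, ← sq_abs (f t), ← pow_mul]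
        rwa [h5] at h4
    _ ≤ ∫ t in Icc a b, f t ^ (2 * 8) :=
        setIntegral_mono_set hint (ae_of_all _ fun t => by
          show 0 ≤ f t ^ (2 * 8)
          rw [pow_mul]
          positivity) inter_subset_right.eventuallyLE

theorem CPs_diff (G : ℝ → ℝ) (D s L t : ℝ) :
    CPs D G L (t + 2 * π * s / L) - CPs D G L t =
      -(2 * SPs D (fun x => G x * Real.sin (π * s * x)) L (t + π * s / L)) := by
  unfold CPs SPs
  rw [← Finset.sum_sub_distrib, Finset.mul_sum, ← Finset.sum_neg_distrib]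
  refine Finset.sum_congr rfl fun p _ => ?_
  have e1 : (t + 2 * π * s / L) * Real.log p = (t + π * s / L) * Real.log p + π * s * (Real.log p / L) := by ring
  have e2 : t * Real.log p = (t + π * s / L) * Real.log p - π * s * (Real.log p / L) := by ring
  rw [e1, e2, Real.cos_add, Real.cos_sub]
  ring

/-- the variance of the low band -/
theorem int_bound {χ₁ g : ℝ → ℝ} (hχ : Win2 χ₁ 1) (hg : Cut g) {D : ℝ} (s : ℝ) :
    ∫ x in Ioi (0 : ℝ), x * (2 * (χ₁ (x / D) * g x) * (π * s * Real.sinc (π * s * x))) ^ 2 ≤ 8 * Real.log (1 + |s|) := by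
  have hpi := Real.pi_pos
  have hpi4 := Real.pi_lt_four
  set f : ℝ → ℝ := fun x => x * (2 * (χ₁ (x / D) * g x) * (π * s * Real.sinc (π * s * x))) ^ 2 with hf
  have hf0 : ∀ x, 1 / 20 ≤ |x| → f x = 0 := by
    intro x hx
    rw [hf]
    simp only
    rw [hg.zero x hx]
    ring
  have h1 : ∫ x in Ioi (0 : ℝ), f x = ∫ x in (0 : ℝ)..(1 / 20), f x := by
    rw [intervalIntegral.integral_of_le (by norm_num)]
    apply setIntegral_eq_of_subset_of_forall_sdiff_eq_zero measurableSet_Ioi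
    · intro u hu
      exact hu.1
    · intro u hu
      have hu0 : 0 < u := hu.1
      apply hf0
      rw [abs_of_pos hu0]
      by_contra h
      exact hu.2 ⟨hu0, (not_le.1 h).le⟩
  rw [h1]
  have hder : ∀ x : ℝ, HasDerivAt (fun x => 4 * Real.log (1 + (π * s * x) ^ 2)) (8 * (π * s) ^ 2 * x / (1 + (π * s * x) ^ 2)) x := by
    intro x
    have a1 : HasDerivAt (fun x : ℝ => π * s * x) (π * s * 1) x := (hasDerivAt_id x).const_mul (π * s)
    have a0 : HasDerivAt (fun x : ℝ => 1 + (π * s * x) ^ 2) (2 * (π * s * x) * (π * s)) x := by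
      have := (a1.pow 2).const_add 1
      refine this.congr_deriv ?_
      norm_num
    have h0 : 1 + (π * s * x) ^ 2 ≠ 0 := by positivity
    have a3 := (a0.log h0).const_mul 4
    refine a3.congr_deriv ?_
    ring
  have hcont : Continuous fun x : ℝ => 8 * (π * s) ^ 2 * x / (1 + (π * s * x) ^ 2) := by
    apply Continuous.div (by fun_prop) (by fun_prop)
    intro x
    positivity
  have h2 : ∫ x in (0 : ℝ)..(1 / 20), 8 * (π * s) ^ 2 * x / (1 + (π * s * x) ^ 2) =
      4 * Real.log (1 + (π * s * (1 / 20)) ^ 2) - 4 * Real.log (1 + (π * s * 0) ^ 2) :=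
    intervalIntegral.integral_eq_sub_of_hasDerivAt (fun x _ => hder x) (hcont.intervalIntegrable _ _)
  have hfc : Continuous f := by
    rw [hf]
    have c1 := hχ.smooth.continuous
    have c2 := hg.nice.smooth.continuous
    have c3 := Real.continuous_sinc
    fun_prop
  have h3 : ∫ x in (0 : ℝ)..(1 / 20), f x ≤ ∫ x in (0 : ℝ)..(1 / 20), 8 * (π * s) ^ 2 * x / (1 + (π * s * x) ^ 2) := by
    apply intervalIntegral.integral_mono_on (by norm_num) (hfc.intervalIntegrable _ _) (hcont.intervalIntegrable _ _)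
    intro x hx
    rw [hf]
    simp only
    have hχ1 : χ₁ (x / D) ^ 2 ≤ 1 := pow_le_one₀ (hχ.nonneg _) (hχ.le_one _)
    have hg1 : g x ^ 2 ≤ 1 := pow_le_one₀ (hg.nonneg _) (hg.le_one _)
    have hs : (π * s * Real.sinc (π * s * x)) ^ 2 ≤ 2 * (π * s) ^ 2 / (1 + (π * s * x) ^ 2) := by
      rw [mul_pow, le_div_iff₀ (by positivity)]
      set y := π * s * x with hy
      have k1 : Real.sinc y ^ 2 * (1 + y ^ 2) ≤ 2 := by
        have k2 : Real.sinc y ^ 2 ≤ 1 := by
          rw [← sq_abs]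
          exact pow_le_one₀ (abs_nonneg _) (Real.abs_sinc_le_one y)
        have k3 : Real.sinc y ^ 2 * y ^ 2 ≤ 1 := by
          by_cases hy0 : y = 0
          · rw [hy0]; norm_num
          · rw [Real.sinc_of_ne_zero hy0, div_pow, div_mul_cancel₀ _ (by positivity)]
            exact Real.sin_sq_le_one y
        linarith
      have k4 : 0 ≤ (π * s) ^ 2 := sq_nonneg _
      nlinarith
    have hs0 : 0 ≤ (π * s * Real.sinc (π * s * x)) ^ 2 := sq_nonneg _
    have hprod : χ₁ (x / D) ^ 2 * g x ^ 2 ≤ 1 := mul_le_one₀ hχ1 (sq_nonneg _) hg1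
    calc x * (2 * (χ₁ (x / D) * g x) * (π * s * Real.sinc (π * s * x))) ^ 2
        = 4 * x * ((χ₁ (x / D) ^ 2 * g x ^ 2) * (π * s * Real.sinc (π * s * x)) ^ 2) := by ring
      _ ≤ 4 * x * (1 * (2 * (π * s) ^ 2 / (1 + (π * s * x) ^ 2))) := by
          apply mul_le_mul_of_nonneg_left _ (by linarith [hx.1])
          exact mul_le_mul hprod hs hs0 zero_le_one
      _ = _ := by ring
  refine h3.trans ?_
  rw [h2]
  have h4 : Real.log (1 + (π * s * (1 / 20)) ^ 2) ≤ 2 * Real.log (1 + |s|) := by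
    have e : 2 * Real.log (1 + |s|) = Real.log ((1 + |s|) ^ 2) := by
      rw [Real.log_pow]
      norm_num
    rw [e]
    apply Real.log_le_log (by positivity)
    have h5 : (π * s * (1 / 20)) ^ 2 = (π / 20) ^ 2 * |s| ^ 2 := by rw [sq_abs]; ring
    rw [h5]
    have h6 : (π / 20) ^ 2 ≤ 1 := pow_le_one₀ (by positivity) (by linarith)
    nlinarith [abs_nonneg s, sq_nonneg |s|]
  have h7 : Real.log (1 + (π * s * 0) ^ 2) = 0 := by
    rw [mul_zero]
    norm_num
  rw [h7]
  linarith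

/-- the coefficient of a prime -/
noncomputable def bs (χ₁ g : ℝ → ℝ) (D s L : ℝ) (p : ℕ) : ℝ :=
  2 * (χ₁ (Real.log p / L / D) * g (Real.log p / L)) * Real.sin (π * s * (Real.log p / L)) * (p : ℝ) ^ (-(1 / 2) : ℝ)

theorem var_bound {χ₁ g : ℝ → ℝ} (hχ : Win2 χ₁ 1) (hg : Cut g) {D : ℝ} (s : ℝ) :
    ∀ᶠ L in atTop, ∑ p ∈ PS (1 / 20) L, bs χ₁ g D s L p ^ 2 ≤ 8 * (1 + Real.log (1 + |s|)) := by
  set h : ℝ → ℝ := fun x => (2 * (χ₁ (x / D) * g x) * (π * s * Real.sinc (π * s * x))) ^ 2 with hh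
  have hc : Continuous h := by
    rw [hh]
    have c1 := hχ.smooth.continuous
    have c2 := hg.nice.smooth.continuous
    have c3 := Real.continuous_sinc
    fun_prop
  have h0 : ∀ x, 1 / 20 ≤ |x| → h x = 0 := by
    intro x hx
    rw [hh]
    simp only
    rw [hg.zero x hx]
    ring
  have hcs : HasCompactSupport h := hasCompactSupport_of_supp (s := 1 / 20) h0
  have h1 := primeInput.mertens h hc hcs
  have h2 := int_bound hχ hg (D := D) s
  have h3 : ∫ x in Ioi (0 : ℝ), x * h x < 8 * (1 + Real.log (1 + |s|)) := by linarith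
  filter_upwards [h1.eventually_lt_const h3, eventually_gt_atTop (0 : ℝ)] with L hL hL0
  refine le_trans ?_ hL.le
  have hsum : Summable fun n : ℕ => (ArithmeticFunction.vonMangoldt n) ^ 2 / n * h (Real.log n / L) := by
    apply summable_of_ne_finset_zero (s := Finset.Icc 0 ⌊Real.exp (1 / 20 * L)⌋₊)
    intro n hn
    rw [Finset.mem_Icc, not_and_or] at hn
    rcases hn with hn | hn
    · omega
    · have hn1 : Real.exp (1 / 20 * L) < n := by
        by_contra h4
        exact hn (Nat.le_floor (not_lt.1 h4))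
      have hn0 : (0 : ℝ) < n := (Real.exp_pos _).trans hn1
      rw [h0, mul_zero]
      have h5 : 1 / 20 * L < Real.log n := (Real.lt_log_iff_exp_lt hn0).2 hn1
      have h6 : 1 / 20 ≤ Real.log n / L := by
        rw [le_div_iff₀ hL0]
        exact h5.le
      exact h6.trans (le_abs_self _)
  have hle := hsum.sum_le_tsum (PS (1 / 20) L) (fun n _ => by positivity)
  have h4 : ∑ p ∈ PS (1 / 20) L, bs χ₁ g D s L p ^ 2 =
      1 / L ^ 2 * ∑ n ∈ PS (1 / 20) L, (ArithmeticFunction.vonMangoldt n) ^ 2 / n * h (Real.log n / L) := by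
    rw [Finset.mul_sum]
    refine Finset.sum_congr rfl fun p hp => ?_
    have hpp : p.Prime := (Ne_mem.1 hp).2
    have hp0 : (0 : ℝ) < p := by exact_mod_cast hpp.pos
    have hp1 : (1 : ℝ) < p := by exact_mod_cast hpp.one_lt
    have hlog : 0 < Real.log p := Real.log_pos hp1
    rw [ArithmeticFunction.vonMangoldt_apply_prime hpp]
    unfold bs
    rw [hh]
    simp only
    have e1 : ((p : ℝ) ^ (-(1 / 2) : ℝ)) ^ 2 = (p : ℝ)⁻¹ := by
      rw [← Real.rpow_natCast, ← Real.rpow_mul hp0.le]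
      norm_num
      exact Real.rpow_neg_one _
    have e2 : (Real.log p / L) * (π * s * Real.sinc (π * s * (Real.log p / L))) = Real.sin (π * s * (Real.log p / L)) := by
      by_cases hy : π * s * (Real.log p / L) = 0
      · rw [hy, Real.sin_zero, Real.sinc_zero]
        linear_combination hy
      · rw [Real.sinc_of_ne_zero hy]
        have gen : ∀ y z : ℝ, y ≠ 0 → y * (z / y) = z := fun y z hy => by field_simp
        have e3 := gen (π * s * (Real.log p / L)) (Real.sin (π * s * (Real.log p / L))) hy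
        calc _ = π * s * (Real.log p / L) * (Real.sin (π * s * (Real.log p / L)) / (π * s * (Real.log p / L))) := by ring
          _ = _ := e3
    rw [mul_pow, e1, ← e2]
    field_simp
  rw [h4]
  exact mul_le_mul_of_nonneg_left hle (by positivity)

/-- the low band of `Rr` -/
theorem low_rare {χ₁ g : ℝ → ℝ} (hχ : Win2 χ₁ 1) (hg : Cut g) : ∃ K' : ℝ, 0 < K' ∧
    ∀ D : ℝ, 1 ≤ D → ∀ α β : ℝ, α < β → β < 1 → 0 < α → ∀ s Λ : ℝ, 0 < Λ →
      Rare atTop α β (K' * (1 + Real.log (1 + |s|)) ^ 8 / Λ ^ 16)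
        (fun T => {t | Λ < |CPs D (fun x => χ₁ (x / D) * g x) (Real.log T) (t + 2 * π * s / Real.log T) -
          CPs D (fun x => χ₁ (x / D) * g x) (Real.log T) t|}) := by
  obtain ⟨c8, hc8⟩ : ∃ c : ℝ, c = ((Nat.factorial 8 : ℕ) : ℝ) + 2 := ⟨_, rfl⟩
  have hc80 : 0 < c8 := by
    rw [hc8]
    have : (0 : ℝ) ≤ ((Nat.factorial 8 : ℕ) : ℝ) := Nat.cast_nonneg _
    linarith
  refine ⟨c8 * 8 ^ 8, by positivity, fun D hD α β hαβ hβ hα s Λ hΛ => ?_⟩
  have hlog0 : 0 ≤ Real.log (1 + |s|) := Real.log_nonneg (by linarith [abs_nonneg s])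
  have h3 : ∀ᶠ T : ℝ in atTop, T ^ (2 * (8 : ℝ) * (1 / 20)) ≤ (β - α) * T := by
    have h4 : ∀ᶠ T : ℝ in atTop, T ^ (-(1 - 2 * (8 : ℝ) * (1 / 20))) < β - α :=
      (tendsto_rpow_neg_atTop (by norm_num : (0 : ℝ) < 1 - 2 * (8 : ℝ) * (1 / 20))).eventually_lt_const (by linarith)
    filter_upwards [h4, eventually_gt_atTop 0] with T hT hT0
    have h5 : T ^ (2 * (8 : ℝ) * (1 / 20)) = T ^ (-(1 - 2 * (8 : ℝ) * (1 / 20))) * T := by
      nth_rewrite 3 [← Real.rpow_one T]
      rw [← Real.rpow_add hT0]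
      congr 1
      ring
    rw [h5]
    exact mul_le_mul_of_nonneg_right hT.le hT0.le
  filter_upwards [h3, Real.tendsto_log_atTop.eventually (var_bound hχ hg (D := D) s), eventually_gt_atTop (1 : ℝ)] with T hT hV hT1
  have hT0 : 0 < T := by linarith
  have hL : 0 < Real.log T := Real.log_pos hT1
  set L := Real.log T with hLdef
  have hle : α * T ≤ β * T := mul_le_mul_of_nonneg_right hαβ.le hT0.le
  have hcont : Continuous fun t => CPs D (fun x => χ₁ (x / D) * g x) L (t + 2 * π * s / L) -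
      CPs D (fun x => χ₁ (x / D) * g x) L t := by
    have c1 := Nd_cont_CPs D (fun x => χ₁ (x / D) * g x) L
    exact (c1.comp (by fun_prop)).sub c1
  refine (markov16 hcont hle hΛ).trans ?_
  rw [div_mul_eq_mul_div]
  apply div_le_div_of_nonneg_right _ (by positivity)
  have hz : ∀ x, 1 / 20 ≤ x → (fun x => χ₁ (x / D) * g x * Real.sin (π * s * x)) x = 0 := by
    intro x hx
    simp only
    rw [hg.zero x (hx.trans (le_abs_self x))]
    ring
  have e1 : ∀ t, (CPs D (fun x => χ₁ (x / D) * g x) L (t + 2 * π * s / L) - CPs D (fun x => χ₁ (x / D) * g x) L t) ^ (2 * 8) =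
      (fun a => (∑ p ∈ PS (1 / 20) L, bs χ₁ g D s L p * Real.sin (a * Real.log p)) ^ (2 * 8)) (t + π * s / L) := by
    intro t
    rw [CPs_diff, Ne_S hL (by linarith) hz]
    simp only
    have e2 : 2 * ∑ p ∈ PS (1 / 20) L, χ₁ (Real.log p / L / D) * g (Real.log p / L) * Real.sin (π * s * (Real.log p / L)) *
        (p : ℝ) ^ (-(1 / 2) : ℝ) * Real.sin ((t + π * s / L) * Real.log p) =
        ∑ p ∈ PS (1 / 20) L, bs χ₁ g D s L p * Real.sin ((t + π * s / L) * Real.log p) := by
      rw [Finset.mul_sum]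
      refine Finset.sum_congr rfl fun p _ => ?_
      unfold bs
      ring
    rw [e2, pow_mul, pow_mul, neg_sq]
  simp_rw [e1]
  rw [intervalIntegral.integral_comp_add_right (fun a => (∑ p ∈ PS (1 / 20) L, bs χ₁ g D s L p * Real.sin (a * Real.log p)) ^ (2 * 8))]
  have hS : ∀ p ∈ PS (1 / 20) L, p.Prime := fun p hp => (Ne_mem.1 hp).2
  have hN : ∀ p ∈ PS (1 / 20) L, p ≤ ⌊Real.exp (1 / 20 * L)⌋₊ := fun p hp =>
    (Finset.mem_Icc.1 (Finset.mem_filter.1 hp).1).2
  have hN2 : ((⌊Real.exp (1 / 20 * L)⌋₊ : ℕ) : ℝ) ^ (2 * 8) ≤ (β * T + π * s / L) - (α * T + π * s / L) := by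
    have h4 : ((⌊Real.exp (1 / 20 * L)⌋₊ : ℕ) : ℝ) ≤ T ^ (1 / 20 : ℝ) := floor_exp_le hT0
    have h5 : (β * T + π * s / L) - (α * T + π * s / L) = (β - α) * T := by ring
    rw [h5]
    refine le_trans ?_ hT
    refine (pow_le_pow_left₀ (Nat.cast_nonneg _) h4 _).trans (le_of_eq ?_)
    rw [← Real.rpow_natCast, ← Real.rpow_mul hT0.le]
    congr 1
    push_cast
    ring
  have h6 := Ne_sin 8 (PS (1 / 20) L) hS _ hN (bs χ₁ g D s L) (by linarith : α * T + π * s / L ≤ β * T + π * s / L) hN2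
  refine h6.trans ?_
  rw [← hc8]
  have h7 := pow_le_pow_left₀ (Finset.sum_nonneg fun _ _ => sq_nonneg _) hV 8
  have h8 : (β * T + π * s / L) - (α * T + π * s / L) ≤ T := by nlinarith
  have h9 : 0 ≤ (β * T + π * s / L) - (α * T + π * s / L) := by linarith
  calc c8 * ((β * T + π * s / L) - (α * T + π * s / L)) * (∑ p ∈ PS (1 / 20) L, bs χ₁ g D s L p ^ 2) ^ 8
      ≤ c8 * T * (8 * (1 + Real.log (1 + |s|))) ^ 8 := by
        apply mul_le_mul _ h7 (by positivity) (by positivity)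
        exact mul_le_mul_of_nonneg_left h8 hc80.le
    _ = _ := by ring

end Pool.Agent.H26.AH
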