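import Pool.Agent.H26.AH.Pe
import Pool.Agent.H26.AH.Pf
import Pool.Agent.H26.AH.Nv
import Pool.Agent.H68.AH.Ra

/-!
# MP_103a5c_AH, block P4: moments of the differences of `Rr`, uniformly in `D`
-/

open MeasureTheory Set Filter Topology
open scoped Real ContDiff ComplexConjugate

namespace Pool.Agent.H26.AH

open Pool.Agent Pool.Agent.H6 Pool.Agent.H67.HF Pool.Agent.H68.AH Pool.Agent.H98.HF

theorem Rr_split (χ₁ g : ℝ → ℝ) {D T : ℝ} (hD : 0 < D) (hT : 1 < T) (t : ℝ) :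
    Rr χ₁ D T t = CPs D (fun x => χ₁ (x / D) * g x) (Real.log T) t +
      CPs D (fun x => χ₁ (x / D) * (1 - g x)) (Real.log T) t := by
  rw [Rr_eq χ₁ hD hT]
  unfold CPs Pool.Agent.H68.AH.win
  rw [← Finset.sum_add_distrib]
  refine Finset.sum_congr rfl fun p _ => ?_
  ring

/-- (P4) moments of the differences of `Rr`, uniformly in `D`. -/
theorem P4 (RH : RiemannHypothesis) {χ₁ : ℝ → ℝ} (hχ : Win2 χ₁ 1) : ∃ K₁ : ℝ, 0 < K₁ ∧
    ∀ D : ℝ, 1 ≤ D → ∀ FF : Filter ℝ, Hyp FF → ∀ α β : ℝ, 0 < α → α < β → β < 1 → ∀ s Λ : ℝ, 0 < Λ →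
      Rare FF α β (K₁ * (1 + Real.log (1 + |s|)) ^ 8 / Λ ^ 16)
        (fun T => {t | Λ < |Rr χ₁ D T (t + 2 * π * s / Real.log T) - Rr χ₁ D T t|}) := by
  obtain ⟨g, hg⟩ := exists_cut
  obtain ⟨A, hA0, hA⟩ := low_rare hχ hg
  obtain ⟨B, hB0, hB⟩ := high_rare RH hχ hg
  refine ⟨A * 2 ^ 16 + 2 * (B * 4 ^ 16), by positivity, fun D hD FF hF α β hα hαβ hβ s Λ hΛ => ?_⟩
  have hD0 : 0 < D := by linarith
  have hlog0 : 0 ≤ Real.log (1 + |s|) := Real.log_nonneg (by linarith [abs_nonneg s])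
  have R1 := (hA D hD α β hαβ hβ hα s (Λ / 2) (by positivity)).filter_mono hF.le
  have R2 := hB D hD FF hF α β hα hαβ hβ (Λ / 4) (by positivity)
  have R3 := hB D hD FF hF (α / 2) ((β + 1) / 2) (by positivity) (by linarith) (by linarith) (Λ / 4) (by positivity)
  have R4 := Rare.shift hF.le (by linarith : α / 2 < α) (by linarith : β < (β + 1) / 2) R3 (2 * π * s)
  have R5 := Pool.Agent.H5.AH.rare_union R1 (Pool.Agent.H5.AH.rare_union R2 R4)
  have R6 : Rare FF α β (A * (1 + Real.log (1 + |s|)) ^ 8 / (Λ / 2) ^ 16 + (B / (Λ / 4) ^ 16 + B / (Λ / 4) ^ 16))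
      (fun T => {t | Λ < |Rr χ₁ D T (t + 2 * π * s / Real.log T) - Rr χ₁ D T t|}) := by
    refine Pool.Agent.H5.AH.rare_mono R5 ?_
    filter_upwards [(eventually_gt_atTop (1 : ℝ)).filter_mono hF.le] with T hT t ht hmem
    by_contra hcon
    simp only [mem_union, not_or] at hcon
    obtain ⟨c1, c2, c3⟩ := hcon
    have d1 : |CPs D (fun x => χ₁ (x / D) * g x) (Real.log T) (t + 2 * π * s / Real.log T) -
          CPs D (fun x => χ₁ (x / D) * g x) (Real.log T) t| ≤ Λ / 2 := not_lt.1 c1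
    have d2 : |CPs D (fun x => χ₁ (x / D) * (1 - g x)) (Real.log T) t| ≤ Λ / 4 := not_lt.1 c2
    have d3 : |CPs D (fun x => χ₁ (x / D) * (1 - g x)) (Real.log T) (t + 2 * π * s / Real.log T)| ≤ Λ / 4 := not_lt.1 c3
    have hmem' : Λ < |Rr χ₁ D T (t + 2 * π * s / Real.log T) - Rr χ₁ D T t| := hmem
    rw [Rr_split χ₁ g hD0 hT, Rr_split χ₁ g hD0 hT] at hmem'
    have e : ∀ a b c d : ℝ, |a + b - (c + d)| ≤ |a - c| + |b| + |d| := by
      intro a b c d
      calc |a + b - (c + d)| = |(a - c) + b - d| := by ring_nf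
        _ ≤ |(a - c) + b| + |d| := abs_sub _ _
        _ ≤ _ := by
          have := abs_add_le (a - c) b
          linarith
    have := e (CPs D (fun x => χ₁ (x / D) * g x) (Real.log T) (t + 2 * π * s / Real.log T))
      (CPs D (fun x => χ₁ (x / D) * (1 - g x)) (Real.log T) (t + 2 * π * s / Real.log T))
      (CPs D (fun x => χ₁ (x / D) * g x) (Real.log T) t) (CPs D (fun x => χ₁ (x / D) * (1 - g x)) (Real.log T) t)
    linarith
  filter_upwards [R6, (eventually_gt_atTop (0 : ℝ)).filter_mono hF.le] with T hT hT0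
  refine hT.trans (mul_le_mul_of_nonneg_right ?_ hT0.le)
  have h1 : 1 ≤ (1 + Real.log (1 + |s|)) ^ 8 := one_le_pow₀ (by linarith)
  have e1 : A * (1 + Real.log (1 + |s|)) ^ 8 / (Λ / 2) ^ 16 = A * 2 ^ 16 * (1 + Real.log (1 + |s|)) ^ 8 / Λ ^ 16 := by
    field_simp
  have e2 : B / (Λ / 4) ^ 16 = B * 4 ^ 16 * 1 / Λ ^ 16 := by
    field_simp
  rw [e1, e2, ← add_div, ← add_div]
  apply div_le_div_of_nonneg_right _ (by positivity)
  have h2 : B * 4 ^ 16 * 1 ≤ B * 4 ^ 16 * (1 + Real.log (1 + |s|)) ^ 8 := mul_le_mul_of_nonneg_left h1 (by positivity)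
  nlinarith

end Pool.Agent.H26.AH
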