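import Mathlib
import Pool.Agent.H26.AH.Nv
import Pool.Agent.H26.AH.Ks
import Pool.Agent.H26.AH.P4
import Pool.Agent.H68.AH.Rc
import Pool.Agent.H68.AH.St

/-!
# MP_103a5c_AH: the statements NVP, KsP, P4P of `Pool.Agent.H68.AH.St` in their final form
-/

open MeasureTheory Set Filter Topology
open scoped Real ContDiff ComplexConjugate

namespace Pool.Agent.H26.AH

open Pool.Agent Pool.Agent.H6 Pool.Agent.H14.GP Pool.Agent.H24.HF Pool.Agent.H67.HF Pool.Agent.H68.AH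

theorem NVP_holds (χ₁ : ℝ → ℝ) : NVP χ₁ := fun δ D T t hT hD => norm_VV δ D T t hT hD

theorem P4P_holds (RH : RiemannHypothesis) {χ₁ : ℝ → ℝ} (hχ : Win2 χ₁ 1) : P4P χ₁ := P4 RH hχ

theorem KsP_holds : KsP := by
  obtain ⟨K₃, M₀, hK, h⟩ := Ksamp1
  exact ⟨K₃, M₀, hK, fun M G hM hG θ δ hθ hθ1 hδ hδ2 α β hα hαβ hβ =>
    h M θ (cG θ G) hM (hG.cells1 (by linarith) hθ1) δ hδ hδ2 α β hα hαβ hβ⟩

end Pool.Agent.H26.AH
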