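import Mathlib

/-!
# MP_103a5c_AH: sampling formula at complex points

An exponential sum with frequencies in `[0, W]` is controlled at `x + iy` by its values at the points of a real lattice
with spacing `σ`, `σ W ≤ π` (`samp_bound`).  Poisson summation with a kernel whose Fourier transform is an iterated moving
average of the indicator function of an interval.
-/

open MeasureTheory Set Filter Topology
open scoped Real Interval FourierTransform

namespace Pool.Agent.H26.AH

/-- moving average -/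
noncomputable def Mav (h : ℝ) (f : ℝ → ℝ) (x : ℝ) : ℝ := (1 / (2 * h)) * ∫ y in (-h)..h, f (x + y)

/-- iterated moving averages of `1_[-a,a]` -/
noncomputable def PhA (a h : ℝ) : ℕ → ℝ → ℝ
  | 0 => (Icc (-a) a).indicator 1
  | n + 1 => Mav h (PhA a h n)

theorem Mav_eq (h : ℝ) (f : ℝ → ℝ) (x : ℝ) : Mav h f x = (1 / (2 * h)) * ∫ y in (x - h)..(x + h), f y := by
  unfold Mav
  congr 1
  rw [intervalIntegral.integral_comp_add_left (fun y => f y) x]
  congr 1

theorem Mav_nonneg {h : ℝ} (hh : 0 < h) {f : ℝ → ℝ} (hf : ∀ x, 0 ≤ f x) (x : ℝ) : 0 ≤ Mav h f x := by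
  unfold Mav
  apply mul_nonneg (by positivity)
  exact intervalIntegral.integral_nonneg (by linarith) fun y _ => hf _

theorem Mav_le_one {h : ℝ} (hh : 0 < h) {f : ℝ → ℝ} (hf0 : ∀ x, 0 ≤ f x) (hf : ∀ x, f x ≤ 1) (x : ℝ) : Mav h f x ≤ 1 := by
  unfold Mav
  have h1 : ∫ y in (-h)..h, f (x + y) ≤ 2 * h := by
    have h2 : ‖∫ y in (-h)..h, f (x + y)‖ ≤ 1 * |h - -h| := by
      apply intervalIntegral.norm_integral_le_of_norm_le_const
      intro y _
      rw [Real.norm_eq_abs, abs_of_nonneg (hf0 _)]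
      exact hf _
    rw [abs_of_nonneg (by linarith : (0 : ℝ) ≤ h - -h)] at h2
    calc _ ≤ ‖∫ y in (-h)..h, f (x + y)‖ := Real.le_norm_self _
      _ ≤ _ := by linarith
  rw [one_div, inv_mul_le_iff₀ (by positivity)]
  linarith

theorem Mav_const {h : ℝ} (hh : 0 < h) {f : ℝ → ℝ} {x c : ℝ} (hf : ∀ y, |y - x| ≤ h → f y = c) : Mav h f x = c := by
  unfold Mav
  have h1 : ∫ y in (-h)..h, f (x + y) = ∫ _ in (-h)..h, c := by
    apply intervalIntegral.integral_congr
    intro y hy
    rw [uIcc_of_le (by linarith)] at hy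
    apply hf
    rw [add_sub_cancel_left, abs_le]
    exact ⟨hy.1, hy.2⟩
  rw [h1, intervalIntegral.integral_const, smul_eq_mul]
  field_simp
  ring

/-- properties of a step of the construction -/
structure GoodPh (f : ℝ → ℝ) (a c : ℝ) : Prop where
  meas : Measurable f
  nonneg : ∀ x, 0 ≤ f x
  le_one : ∀ x, f x ≤ 1
  one : ∀ x, |x| ≤ a → f x = 1
  zero : ∀ x, c < |x| → f x = 0

theorem GoodPh.integrable {f : ℝ → ℝ} {a c : ℝ} (hf : GoodPh f a c) : Integrable f := by
  have h1 : IntegrableOn f (Icc (-c) c) := by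
    apply Measure.integrableOn_of_bounded (M := 1)
    · exact (measure_Icc_lt_top).ne
    · exact hf.meas.aestronglyMeasurable
    · refine ae_of_all _ fun x => ?_
      rw [Real.norm_eq_abs, abs_of_nonneg (hf.nonneg x)]
      exact hf.le_one x
  rw [← integrable_indicator_iff measurableSet_Icc] at h1
  have e : (Icc (-c) c).indicator f = f := by
    ext x
    by_cases hx : x ∈ Icc (-c) c
    · rw [indicator_of_mem hx]
    · rw [indicator_of_notMem hx]
      symm
      apply hf.zero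
      rw [mem_Icc, ← abs_le] at hx
      exact not_le.1 hx
  rw [e] at h1
  exact h1

theorem goodPh_zero (a : ℝ) : GoodPh ((Icc (-a) a).indicator 1) a a where
  meas := measurable_one.indicator measurableSet_Icc
  nonneg x := indicator_nonneg (fun _ _ => zero_le_one) x
  le_one x := indicator_le_self' (fun _ _ => zero_le_one) x
  one x hx := by
    rw [indicator_of_mem (mem_Icc.2 (abs_le.1 hx))]
    rfl
  zero x hx := by
    rw [indicator_of_notMem]
    rw [mem_Icc, ← abs_le]
    exact not_le.2 hx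

theorem GoodPh.continuous_Mav {f : ℝ → ℝ} {a c : ℝ} (hf : GoodPh f a c) (h : ℝ) : Continuous (Mav h f) := by
  have h1 : Continuous fun b => ∫ x in (0 : ℝ)..b, f x :=
    intervalIntegral.continuous_primitive (fun a b => hf.integrable.intervalIntegrable) 0
  have h2 : Mav h f = fun x => (1 / (2 * h)) * ((∫ y in (0 : ℝ)..(x + h), f y) - ∫ y in (0 : ℝ)..(x - h), f y) := by
    ext x
    rw [Mav_eq, intervalIntegral.integral_interval_sub_left hf.integrable.intervalIntegrable
      hf.integrable.intervalIntegrable]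
  rw [h2]
  exact continuous_const.mul ((h1.comp (continuous_id.add continuous_const)).sub
    (h1.comp (continuous_id.sub continuous_const)))

theorem GoodPh.Mav {f : ℝ → ℝ} {a c h : ℝ} (hf : GoodPh f a c) (hh : 0 < h) : GoodPh (Mav h f) (a - h) (c + h) where
  meas := (hf.continuous_Mav h).measurable
  nonneg x := Mav_nonneg hh hf.nonneg x
  le_one x := Mav_le_one hh hf.nonneg hf.le_one x
  one x hx := by
    apply Mav_const hh
    intro y hy
    apply hf.one
    have : |y| ≤ |y - x| + |x| := by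
      calc |y| = |(y - x) + x| := by ring_nf
        _ ≤ _ := abs_add_le _ _
    linarith
  zero x hx := by
    apply Mav_const hh
    intro y hy
    apply hf.zero
    have : |x| ≤ |y - x| + |y| := by
      calc |x| = |-(y - x) + y| := by ring_nf
        _ ≤ |-(y - x)| + |y| := abs_add_le _ _
        _ = _ := by rw [abs_neg]
    linarith

theorem goodPh_PhA (a : ℝ) {h : ℝ} (hh : 0 < h) (n : ℕ) : GoodPh (PhA a h n) (a - n * h) (a + n * h) := by
  induction n with
  | zero =>
    have := goodPh_zero a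
    simpa [PhA] using this
  | succ n ih =>
    have := ih.Mav hh
    have e1 : a - ((n + 1 : ℕ) : ℝ) * h = a - n * h - h := by push_cast; ring
    have e2 : a + ((n + 1 : ℕ) : ℝ) * h = a + n * h + h := by push_cast; ring
    rw [e1, e2]
    exact this

theorem continuous_PhA (a : ℝ) {h : ℝ} (hh : 0 < h) (n : ℕ) : Continuous (PhA a h (n + 1)) :=
  (goodPh_PhA a hh n).continuous_Mav h

/-- the exponential `e^{izx}` -/
noncomputable def ec (z : ℂ) (x : ℝ) : ℂ := Complex.exp (z * x * Complex.I)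

theorem norm_ec (z : ℂ) (x : ℝ) : ‖ec z x‖ = Real.exp (-(z.im * x)) := by
  unfold ec
  rw [Complex.norm_exp]
  congr 1
  simp

theorem norm_ec_le (z : ℂ) {x c : ℝ} (hx : |x| ≤ c) : ‖ec z x‖ ≤ Real.exp (|z.im| * c) := by
  rw [norm_ec]
  apply Real.exp_le_exp.2
  calc -(z.im * x) ≤ |z.im * x| := neg_le_abs _
    _ = |z.im| * |x| := abs_mul _ _
    _ ≤ _ := mul_le_mul_of_nonneg_left hx (abs_nonneg _)

theorem continuous_ec (z : ℂ) : Continuous (ec z) := by
  unfold ec
  fun_prop

theorem ec_add (z : ℂ) (x y : ℝ) : ec z (x + y) = ec z x * ec z y := by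
  unfold ec
  rw [← Complex.exp_add]
  congr 1
  push_cast
  ring

/-- `sin z / z` as an integral -/
noncomputable def csn (z : ℂ) : ℂ := (1 / 2 : ℂ) * ∫ x in (-1 : ℝ)..1, ec z x

theorem integral_ec (z : ℂ) {h : ℝ} (hh : 0 < h) : ∫ y in (-h)..h, ec z y = 2 * h * csn (z * h) := by
  have h1 : ∀ x : ℝ, ec (z * h) x = ec z (h * x) := by
    intro x
    unfold ec
    congr 1
    push_cast
    ring
  unfold csn
  simp_rw [h1]
  rw [intervalIntegral.integral_comp_mul_left (fun y => ec z y) hh.ne']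
  rw [mul_neg, mul_one, Complex.real_smul]
  have hh' : (h : ℂ) ≠ 0 := by exact_mod_cast hh.ne'
  push_cast
  field_simp

theorem norm_csn_le (z : ℂ) : ‖csn z‖ ≤ Real.exp |z.im| := by
  unfold csn
  have h1 : ‖∫ x in (-1 : ℝ)..1, ec z x‖ ≤ Real.exp |z.im| * |1 - (-1 : ℝ)| := by
    apply intervalIntegral.norm_integral_le_of_norm_le_const
    intro x hx
    rw [uIoc_of_le (by norm_num)] at hx
    have := norm_ec_le z (x := x) (c := 1) (by rw [abs_le]; constructor <;> linarith [hx.1, hx.2])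
    rwa [mul_one] at this
  rw [norm_mul]
  have h2 : ‖(1 / 2 : ℂ)‖ = 1 / 2 := by norm_num
  rw [h2]
  have h3 : |1 - (-1 : ℝ)| = 2 := by norm_num
  rw [h3] at h1
  linarith

theorem norm_csn_le_inv {z : ℂ} (hz : z ≠ 0) : ‖csn z‖ ≤ Real.exp |z.im| / ‖z‖ := by
  have hz2 : z * Complex.I ≠ 0 := mul_ne_zero hz Complex.I_ne_zero
  have h1 : csn z = (Complex.exp (z * Complex.I) - Complex.exp (-(z * Complex.I))) / (2 * (z * Complex.I)) := by
    unfold csn ec
    have h2 : ∀ x : ℝ, Complex.exp (z * x * Complex.I) = Complex.exp ((z * Complex.I) * x) := by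
      intro x
      congr 1
      ring
    simp_rw [h2]
    rw [integral_exp_mul_complex hz2]
    push_cast
    rw [mul_one, mul_neg, mul_one]
    field_simp
  rw [h1, norm_div, norm_mul, norm_mul, Complex.norm_I, mul_one]
  have h3 : ‖Complex.exp (z * Complex.I)‖ ≤ Real.exp |z.im| := by
    have := norm_ec_le z (x := 1) (c := 1) (by norm_num)
    unfold ec at this
    simpa using this
  have h4 : ‖Complex.exp (-(z * Complex.I))‖ ≤ Real.exp |z.im| := by
    have := norm_ec_le z (x := -1) (c := 1) (by norm_num)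
    unfold ec at this
    simpa using this
  have h5 : ‖Complex.exp (z * Complex.I) - Complex.exp (-(z * Complex.I))‖ ≤ 2 * Real.exp |z.im| :=
    (norm_sub_le _ _).trans (by linarith)
  have h6 : ‖(2 : ℂ)‖ = 2 := by norm_num
  rw [h6]
  have h7 : 0 < ‖z‖ := norm_pos_iff.2 hz
  rw [div_le_div_iff₀ (by positivity) h7]
  nlinarith

theorem GoodPh.integrable_ec {f : ℝ → ℝ} {a c : ℝ} (hf : GoodPh f a c) (z : ℂ) : Integrable fun x => (f x : ℂ) * ec z x := by
  have h1 : Integrable fun x => Real.exp (|z.im| * |c|) * f x := hf.integrable.const_mul _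
  refine h1.mono' ?_ (ae_of_all _ fun x => ?_)
  · exact (Complex.measurable_ofReal.comp hf.meas).aestronglyMeasurable.mul (continuous_ec z).aestronglyMeasurable
  · rw [norm_mul, Complex.norm_real, Real.norm_eq_abs, abs_of_nonneg (hf.nonneg x), mul_comm]
    by_cases hx : c < |x|
    · rw [hf.zero x hx]
      simp
    · push Not at hx
      exact mul_le_mul_of_nonneg_right (norm_ec_le z (hx.trans (le_abs_self c))) (hf.nonneg x)

/-- Fourier transform of a moving average -/
theorem integral_Mav {f : ℝ → ℝ} {a c h : ℝ} (hf : GoodPh f a c) (hh : 0 < h) (z : ℂ) :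
    ∫ x, (Mav h f x : ℂ) * ec z x = (∫ x, (f x : ℂ) * ec z x) * csn (z * h) := by
  set g : ℝ → ℂ := fun x => (f x : ℂ) * ec z x with hg
  have hgi : Integrable g := hf.integrable_ec z
  have hgm : Measurable g := (Complex.measurable_ofReal.comp hf.meas).mul (continuous_ec z).measurable
  have hint : Integrable (fun p : ℝ × ℝ => g (p.1 + p.2) * ec z (-p.2))
      (volume.prod (volume.restrict (Ioc (-h) h))) := by
    rw [integrable_prod_iff']
    · constructor
      · refine ae_of_all _ fun y => ?_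
        exact (hgi.comp_add_right y).mul_const (ec z (-y))
      · have e : (fun y : ℝ => ∫ x, ‖g (x + y) * ec z (-y)‖) = fun y => (∫ x, ‖g x‖) * ‖ec z (-y)‖ := by
          ext y
          simp_rw [norm_mul]
          rw [integral_mul_const]
          congr 1
          exact integral_add_right_eq_self (fun x => ‖g x‖) y
        rw [e]
        have hc : Continuous fun y => (∫ x, ‖g x‖) * ‖ec z (-y)‖ :=
          continuous_const.mul ((continuous_ec z).comp continuous_neg).norm
        exact (hc.integrableOn_Icc (a := -h) (b := h)).mono_set Ioc_subset_Icc_self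
    · refine AEStronglyMeasurable.mul ?_ ?_
      · exact (hgm.comp (measurable_fst.add measurable_snd)).aestronglyMeasurable
      · exact ((continuous_ec z).comp continuous_snd.neg).aestronglyMeasurable
  have h1 : ∀ x : ℝ, (Mav h f x : ℂ) * ec z x =
      (1 / (2 * h) : ℂ) * ∫ y in Ioc (-h) h, g (x + y) * ec z (-y) := by
    intro x
    have h2 : ∀ y : ℝ, g (x + y) * ec z (-y) = ((f (x + y) : ℝ) : ℂ) * ec z x := by
      intro y
      have : ec z x = ec z (x + y) * ec z (-y) := by rw [← ec_add]; congr 1; ring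
      rw [hg, this]
      simp only
      ring
    simp_rw [h2]
    unfold Mav
    rw [intervalIntegral.integral_of_le (by linarith), integral_mul_const]
    have h4 : (∫ y in Ioc (-h) h, ((f (x + y) : ℝ) : ℂ)) = ((∫ y in Ioc (-h) h, f (x + y) : ℝ) : ℂ) :=
      integral_ofReal
    rw [h4]
    push_cast
    ring
  simp_rw [h1]
  rw [integral_const_mul, integral_integral_swap hint]
  have h2 : ∀ y : ℝ, ∫ x, g (x + y) * ec z (-y) = (∫ x, g x) * ec z (-y) := by
    intro y
    rw [integral_mul_const, integral_add_right_eq_self g y]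
  simp_rw [h2]
  rw [integral_const_mul, ← intervalIntegral.integral_of_le (by linarith : -h ≤ h),
    intervalIntegral.integral_comp_neg (fun y => ec z y), neg_neg, integral_ec z hh]
  have hh' : (h : ℂ) ≠ 0 := by exact_mod_cast hh.ne'
  field_simp

/-- the kernel -/
noncomputable def KA (a h : ℝ) (n : ℕ) (z : ℂ) : ℂ := 2 * a * csn (z * a) * csn (z * h) ^ n

theorem integral_PhA {a h : ℝ} (ha : 0 < a) (hh : 0 < h) (n : ℕ) (z : ℂ) :
    ∫ x, (PhA a h n x : ℂ) * ec z x = KA a h n z := by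
  unfold KA
  induction n with
  | zero =>
    have h1 : ∀ x : ℝ, (PhA a h 0 x : ℂ) * ec z x = (Icc (-a) a).indicator (fun x => ec z x) x := by
      intro x
      unfold PhA
      by_cases hx : x ∈ Icc (-a) a
      · rw [indicator_of_mem hx, indicator_of_mem hx]
        simp
      · rw [indicator_of_notMem hx, indicator_of_notMem hx]
        simp
    simp_rw [h1]
    rw [integral_indicator measurableSet_Icc, integral_Icc_eq_integral_Ioc,
      ← intervalIntegral.integral_of_le (by linarith), integral_ec z ha]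
    ring
  | succ n ih =>
    have := integral_Mav (goodPh_PhA a hh n) hh z
    change ∫ x, (Mav h (PhA a h n) x : ℂ) * ec z x = _
    rw [this, ih]
    ring

/-- bound of the kernel: `n h y ≤ 1` -/
theorem norm_csn_a {a : ℝ} (ha : 0 < a) (x : ℝ) {y : ℝ} (hy : 0 ≤ y) :
    a * ‖csn ((x + y * Complex.I) * a)‖ ≤ a * Real.exp (a * y) := by
  refine mul_le_mul_of_nonneg_left ((norm_csn_le _).trans (Real.exp_le_exp.2 ?_)) ha.le
  have him : ((x : ℂ) + y * Complex.I).im = y := by simp
  rw [Complex.im_mul_ofReal, him, abs_of_nonneg (by positivity)]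
  linarith

theorem norm_csn_y {a : ℝ} (ha : 0 < a) (x : ℝ) {y : ℝ} (hy : 0 < y) :
    a * ‖csn ((x + y * Complex.I) * a)‖ ≤ 1 / y * Real.exp (a * y) := by
  have him : ((x : ℂ) + y * Complex.I).im = y := by simp
  have hz : y ≤ ‖(x : ℂ) + y * Complex.I‖ := by
    have := Complex.abs_im_le_norm ((x : ℂ) + y * Complex.I)
    rwa [him, abs_of_pos hy] at this
  have hn : ‖((x : ℂ) + y * Complex.I) * a‖ = ‖(x : ℂ) + y * Complex.I‖ * a := by
    rw [norm_mul, Complex.norm_real, Real.norm_eq_abs, abs_of_pos ha]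
  have hz0 : ((x : ℂ) + y * Complex.I) * a ≠ 0 := by
    rw [← norm_pos_iff, hn]
    exact mul_pos (hy.trans_le hz) ha
  have h1 := norm_csn_le_inv hz0
  rw [Complex.im_mul_ofReal, him, abs_of_nonneg (by positivity), hn] at h1
  calc a * ‖csn ((x + y * Complex.I) * a)‖ ≤ a * (Real.exp (y * a) / (‖(x : ℂ) + y * Complex.I‖ * a)) :=
        mul_le_mul_of_nonneg_left h1 ha.le
    _ = 1 / ‖(x : ℂ) + y * Complex.I‖ * Real.exp (a * y) := by
        have := (hy.trans_le hz).ne'
        rw [mul_comm y a]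
        field_simp
    _ ≤ _ := mul_le_mul_of_nonneg_right (one_div_le_one_div_of_le hy hz) (Real.exp_pos _).le

theorem norm_KA_le {a h : ℝ} (ha : 0 < a) (hh : 0 < h) {n : ℕ} (hn : 2 ≤ n) {x y A : ℝ} (hy : 0 ≤ y) (hnhy : n * h * y ≤ 1)
    (hA : a * ‖csn ((x + y * Complex.I) * a)‖ ≤ A * Real.exp (a * y)) :
    ‖KA a h n (x + y * Complex.I)‖ ≤ 4 * A * Real.exp 1 * Real.exp (a * y) / (1 + (h * x) ^ 2) := by
  set z : ℂ := x + y * Complex.I with hz
  have him : z.im = y := by simp [hz]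
  have hA0 : 0 ≤ A * Real.exp (a * y) := (mul_nonneg ha.le (norm_nonneg _)).trans hA
  have h2 : ‖csn (z * h)‖ ^ n ≤ Real.exp 1 * (2 / (1 + (h * x) ^ 2)) := by
    have him2 : |(z * h).im| = h * y := by
      rw [Complex.im_mul_ofReal, him, abs_of_nonneg (by positivity)]
      ring
    have h3 : ‖csn (z * h)‖ ≤ Real.exp (h * y) := by
      have := norm_csn_le (z * h)
      rwa [him2] at this
    by_cases hx : |h * x| ≤ 1
    · have h4 : ‖csn (z * h)‖ ^ n ≤ Real.exp 1 := by
        calc ‖csn (z * h)‖ ^ n ≤ Real.exp (h * y) ^ n := pow_le_pow_left₀ (norm_nonneg _) h3 n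
          _ = Real.exp (n * h * y) := by rw [← Real.exp_nat_mul]; ring_nf
          _ ≤ _ := Real.exp_le_exp.2 hnhy
      have h5 : 1 ≤ 2 / (1 + (h * x) ^ 2) := by
        rw [le_div_iff₀ (by positivity)]
        have : (h * x) ^ 2 ≤ 1 := by
          rw [← sq_abs]
          exact pow_le_one₀ (abs_nonneg _) hx
        linarith
      have := Real.exp_pos 1
      nlinarith
    · push Not at hx
      have hx0 : h * x ≠ 0 := by
        intro h0
        rw [h0, abs_zero] at hx
        linarith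
      have hzx : |h * x| ≤ ‖z * h‖ := by
        have := Complex.abs_re_le_norm (z * h)
        rw [Complex.re_mul_ofReal] at this
        have e : z.re = x := by simp [hz]
        rw [e, mul_comm] at this
        exact this
      have hz0 : z * h ≠ 0 := by
        intro h0
        rw [h0, norm_zero] at hzx
        linarith [abs_nonneg (h * x)]
      have h4 : ‖csn (z * h)‖ ≤ Real.exp (h * y) * |h * x|⁻¹ := by
        have h5 := norm_csn_le_inv hz0
        rw [him2] at h5
        refine h5.trans ?_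
        rw [div_eq_mul_inv]
        apply mul_le_mul_of_nonneg_left _ (Real.exp_pos _).le
        exact inv_anti₀ (by positivity) hzx
      have h5 : ‖csn (z * h)‖ ^ n ≤ Real.exp 1 * |h * x|⁻¹ ^ 2 := by
        calc ‖csn (z * h)‖ ^ n ≤ (Real.exp (h * y) * |h * x|⁻¹) ^ n := pow_le_pow_left₀ (norm_nonneg _) h4 n
          _ = Real.exp (n * h * y) * |h * x|⁻¹ ^ n := by rw [mul_pow, ← Real.exp_nat_mul]; ring_nf
          _ ≤ _ := by
            apply mul_le_mul (Real.exp_le_exp.2 hnhy) _ (by positivity) (Real.exp_pos _).le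
            exact pow_le_pow_of_le_one (by positivity) (inv_le_one_of_one_le₀ hx.le) hn
      refine h5.trans (mul_le_mul_of_nonneg_left ?_ (Real.exp_pos _).le)
      rw [inv_pow, sq_abs, inv_eq_one_div, div_le_div_iff₀ (by positivity) (by positivity)]
      have : 1 ≤ (h * x) ^ 2 := by
        rw [← sq_abs]
        exact one_le_pow₀ hx.le
      linarith
  unfold KA
  rw [norm_mul, norm_mul, norm_pow]
  have h6 : ‖(2 * a : ℂ)‖ = 2 * a := by
    rw [norm_mul, Complex.norm_real, Real.norm_eq_abs, abs_of_pos ha]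
    norm_num
  rw [h6]
  calc 2 * a * ‖csn (z * a)‖ * ‖csn (z * h)‖ ^ n
      ≤ 2 * (A * Real.exp (a * y)) * (Real.exp 1 * (2 / (1 + (h * x) ^ 2))) := by
        apply mul_le_mul _ h2 (by positivity) (by positivity)
        linarith
    _ = _ := by ring

/-- bound of the kernel far away -/
theorem norm_KA_far {a h : ℝ} (ha : 0 < a) (hh : 0 < h) {n : ℕ} (hn : 2 ≤ n) {x y R A : ℝ} (hy : 0 ≤ y) (hnhy : n * h * y ≤ 1)
    (hA : a * ‖csn ((x + y * Complex.I) * a)‖ ≤ A * Real.exp (a * y)) (hR : 1 ≤ h * R) (hx : R ≤ |x|) :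
    ‖KA a h n (x + y * Complex.I)‖ ≤
      (1 / (h * R)) ^ (n - 2) * (4 * A * Real.exp 1 * Real.exp (a * y) / (1 + (h * x) ^ 2)) := by
  set z : ℂ := x + y * Complex.I with hz
  have him : z.im = y := by simp [hz]
  have hA0 : 0 ≤ A * Real.exp (a * y) := (mul_nonneg ha.le (norm_nonneg _)).trans hA
  have hRx : h * R ≤ |h * x| := by
    rw [abs_mul, abs_of_pos hh]
    exact mul_le_mul_of_nonneg_left hx hh.le
  have hhR : 0 < h * R := one_pos.trans_le hR
  have hhx : 0 < |h * x| := hhR.trans_le hRx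
  have h2 : ‖csn (z * h)‖ ^ n ≤ Real.exp 1 * ((1 / (h * R)) ^ (n - 2) * (2 / (1 + (h * x) ^ 2))) := by
    have him2 : |(z * h).im| = h * y := by
      rw [Complex.im_mul_ofReal, him, abs_of_nonneg (by positivity)]
      ring
    have hzx : |h * x| ≤ ‖z * h‖ := by
      have := Complex.abs_re_le_norm (z * h)
      rw [Complex.re_mul_ofReal] at this
      have e : z.re = x := by simp [hz]
      rw [e, mul_comm] at this
      exact this
    have hz0 : z * h ≠ 0 := by
      intro h0
      rw [h0, norm_zero] at hzx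
      linarith [abs_nonneg (h * x)]
    have h4 : ‖csn (z * h)‖ ≤ Real.exp (h * y) * |h * x|⁻¹ := by
      have h5 := norm_csn_le_inv hz0
      rw [him2] at h5
      refine h5.trans ?_
      rw [div_eq_mul_inv]
      apply mul_le_mul_of_nonneg_left _ (Real.exp_pos _).le
      exact inv_anti₀ (by positivity) hzx
    have h5 : ‖csn (z * h)‖ ^ n ≤ Real.exp 1 * (|h * x|⁻¹ ^ (n - 2) * |h * x|⁻¹ ^ 2) := by
      calc ‖csn (z * h)‖ ^ n ≤ (Real.exp (h * y) * |h * x|⁻¹) ^ n := pow_le_pow_left₀ (norm_nonneg _) h4 n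
        _ = Real.exp (n * h * y) * |h * x|⁻¹ ^ n := by rw [mul_pow, ← Real.exp_nat_mul]; ring_nf
        _ ≤ Real.exp 1 * |h * x|⁻¹ ^ n := mul_le_mul_of_nonneg_right (Real.exp_le_exp.2 hnhy) (by positivity)
        _ = _ := by rw [← pow_add]; congr 2; omega
    refine h5.trans (mul_le_mul_of_nonneg_left ?_ (Real.exp_pos _).le)
    apply mul_le_mul _ _ (by positivity) (by positivity)
    · apply pow_le_pow_left₀ (by positivity)
      rw [one_div]
      exact inv_anti₀ hhR hRx
    · rw [inv_pow, sq_abs, inv_eq_one_div, div_le_div_iff₀ (by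
        rw [← sq_abs]; positivity) (by positivity)]
      have : 1 ≤ (h * x) ^ 2 := by
        rw [← sq_abs]
        exact one_le_pow₀ (hR.trans hRx)
      linarith
  unfold KA
  rw [norm_mul, norm_mul, norm_pow]
  have h6 : ‖(2 * a : ℂ)‖ = 2 * a := by
    rw [norm_mul, Complex.norm_real, Real.norm_eq_abs, abs_of_pos ha]
    norm_num
  rw [h6]
  calc 2 * a * ‖csn (z * a)‖ * ‖csn (z * h)‖ ^ n
      ≤ 2 * (A * Real.exp (a * y)) * (Real.exp 1 * ((1 / (h * R)) ^ (n - 2) * (2 / (1 + (h * x) ^ 2)))) := by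
        apply mul_le_mul _ h2 (by positivity) (by positivity)
        linarith
    _ = _ := by ring

theorem arctan_step {b x : ℝ} (hb : 0 < b) (hb1 : b ≤ 1 / 2) :
    b / (1 + x ^ 2) ≤ 2 * (Real.arctan x - Real.arctan (x - b)) := by
  have h1 : ∫ s in (x - b)..x, (1 + s ^ 2)⁻¹ = Real.arctan x - Real.arctan (x - b) := integral_inv_one_add_sq
  rw [← h1, ← intervalIntegral.integral_const_mul]
  have h2 : ∫ _ in (x - b)..x, (1 + x ^ 2)⁻¹ = b / (1 + x ^ 2) := by
    rw [intervalIntegral.integral_const, smul_eq_mul]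
    rw [sub_sub_cancel]
    rfl
  rw [← h2]
  have hc : Continuous fun s : ℝ => (1 + s ^ 2)⁻¹ := by
    refine Continuous.inv₀ (by fun_prop) fun s => ?_
    positivity
  apply intervalIntegral.integral_mono_on (by linarith)
  · exact intervalIntegrable_const
  · exact (continuous_const.mul hc).intervalIntegrable _ _
  · intro s hs
    have h3 : 1 + s ^ 2 ≤ 2 * (1 + x ^ 2) := by
      have : |s| ≤ |x| + b := by
        calc |s| = |x + (s - x)| := by ring_nf
          _ ≤ |x| + |s - x| := abs_add_le _ _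
          _ ≤ _ := by
            have : |s - x| ≤ b := by rw [abs_le]; constructor <;> linarith [hs.1, hs.2]
            linarith
      have h4 : s ^ 2 ≤ (|x| + b) ^ 2 := by
        rw [← sq_abs s]
        exact pow_le_pow_left₀ (abs_nonneg s) this 2
      have h5 : (|x| + b) ^ 2 ≤ 2 * x ^ 2 + 2 * b ^ 2 := by
        have := sq_abs x
        nlinarith [sq_nonneg (|x| - b)]
      nlinarith
    rw [← div_eq_mul_inv, inv_eq_one_div, div_le_div_iff₀ (by positivity) (by positivity)]
    linarith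

theorem sum_kernel_le {b : ℝ} (hb : 0 < b) (hb1 : b ≤ 1 / 2) (y : ℝ) (S : Finset ℤ) :
    ∑ k ∈ S, b / (1 + (y - k * b) ^ 2) ≤ 2 * π := by
  obtain ⟨a, n, hS⟩ : ∃ a : ℤ, ∃ n : ℕ, S ⊆ (Finset.range n).image fun i : ℕ => a + i := by
    obtain ⟨A, hA⟩ : ∃ A : ℕ, ∀ k ∈ S, |k| < (A : ℤ) := by
      refine ⟨(∑ k ∈ S, k.natAbs) + 1, fun k hk => ?_⟩
      have h1 : k.natAbs ≤ ∑ k ∈ S, k.natAbs := Finset.single_le_sum (f := fun k : ℤ => k.natAbs) (fun _ _ => Nat.zero_le _) hk
      rw [Int.abs_eq_natAbs]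
      exact_mod_cast Nat.lt_succ_of_le h1
    refine ⟨-A, 2 * A, fun k hk => ?_⟩
    rw [Finset.mem_image]
    have h1 := abs_lt.1 (hA k hk)
    refine ⟨(k + A).toNat, ?_, ?_⟩
    · rw [Finset.mem_range]
      omega
    · omega
  have h0 : ∀ k : ℤ, 0 ≤ b / (1 + (y - k * b) ^ 2) := fun k => by positivity
  calc _ ≤ ∑ k ∈ (Finset.range n).image fun i : ℕ => a + i, b / (1 + (y - (k : ℤ) * b) ^ 2) :=
        Finset.sum_le_sum_of_subset_of_nonneg hS fun k _ _ => h0 k
    _ = ∑ i ∈ Finset.range n, b / (1 + (y - ((a + i : ℤ) : ℝ) * b) ^ 2) := by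
        rw [Finset.sum_image]
        intro i _ j _ hij
        simpa using hij
    _ ≤ ∑ i ∈ Finset.range n, (2 * Real.arctan (y - ((a + i : ℤ) : ℝ) * b) - 2 * Real.arctan (y - ((a + (i + 1 : ℕ) : ℤ) : ℝ) * b)) := by
        apply Finset.sum_le_sum
        intro i _
        have := arctan_step (x := y - ((a + i : ℤ) : ℝ) * b) hb hb1
        have e : y - ((a + (i + 1 : ℕ) : ℤ) : ℝ) * b = y - ((a + i : ℤ) : ℝ) * b - b := by push_cast; ring
        rw [e]
        linarith
    _ = 2 * Real.arctan (y - ((a + (0 : ℕ) : ℤ) : ℝ) * b) - 2 * Real.arctan (y - ((a + (n : ℕ) : ℤ) : ℝ) * b) :=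
        Finset.sum_range_sub' (fun i : ℕ => 2 * Real.arctan (y - ((a + (i : ℕ) : ℤ) : ℝ) * b)) n
    _ ≤ _ := by
        have h1 : ∀ u v : ℝ, 2 * Real.arctan u - 2 * Real.arctan v ≤ 2 * π := fun u v => by
          have h1 := Real.arctan_lt_pi_div_two u
          have h2 := Real.neg_pi_div_two_lt_arctan v
          linarith
        exact h1 _ _

theorem summable_kernel {b : ℝ} (hb : 0 < b) (hb1 : b ≤ 1 / 2) (y : ℝ) :
    Summable fun k : ℤ => b / (1 + (y - k * b) ^ 2) :=
  summable_of_sum_le (fun k => by positivity) (sum_kernel_le hb hb1 y)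

theorem tsum_kernel_le {b : ℝ} (hb : 0 < b) (hb1 : b ≤ 1 / 2) (y : ℝ) :
    ∑' k : ℤ, b / (1 + (y - k * b) ^ 2) ≤ 2 * π :=
  (summable_kernel hb hb1 y).tsum_le_of_sum_le (sum_kernel_le hb hb1 y)

/-- the function to which Poisson summation is applied -/
noncomputable def fP (a h : ℝ) (n : ℕ) (P ξ : ℝ) (z : ℂ) (η : ℝ) : ℂ := (PhA a h n (P * η + ξ) : ℂ) * ec z (P * η)

theorem fP_zero {a h : ℝ} (hh : 0 < h) {n : ℕ} {P ξ : ℝ} {z : ℂ} {η : ℝ} (hx : a + n * h < |P * η + ξ|) :
    fP a h n P ξ z η = 0 := by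
  unfold fP
  rw [(goodPh_PhA a hh n).zero _ hx]
  simp

theorem fP_continuous (a : ℝ) {h : ℝ} (hh : 0 < h) {n : ℕ} (hn : 0 < n) (P ξ : ℝ) (z : ℂ) :
    Continuous (fP a h n P ξ z) := by
  unfold fP
  obtain ⟨n, rfl⟩ := Nat.exists_eq_succ_of_ne_zero hn.ne'
  have h1 := continuous_PhA a hh n
  refine Continuous.mul ?_ ((continuous_ec z).comp (by fun_prop))
  exact Complex.continuous_ofReal.comp (h1.comp (by fun_prop))

theorem fP_fourier {a h : ℝ} (ha : 0 < a) (hh : 0 < h) (n : ℕ) {σ : ℝ} (hσ : 0 < σ) (ξ : ℝ) (z : ℂ) (k : ℤ) :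
    𝓕 (fP a h n (2 * π / σ) ξ z) k = (σ / (2 * π) : ℝ) * (ec (z - k * σ) (-ξ) * KA a h n (z - k * σ)) := by
  have hpi := Real.pi_pos
  rw [Real.fourier_real_eq_integral_exp_smul]
  have h1 : ∀ v : ℝ, Complex.exp (((-2 * π * v * (k : ℝ) : ℝ) : ℂ) * Complex.I) • fP a h n (2 * π / σ) ξ z v =
      (fun x : ℝ => (PhA a h n (x + ξ) : ℂ) * ec (z - k * σ) x) (2 * π / σ * v) := by
    intro v
    simp only [fP, smul_eq_mul, ec]
    rw [mul_left_comm, ← Complex.exp_add]
    congr 2
    push_cast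
    have hσ' : (σ : ℂ) ≠ 0 := by exact_mod_cast hσ.ne'
    field_simp
    ring
  simp_rw [h1]
  rw [Measure.integral_comp_mul_left (fun x : ℝ => (PhA a h n (x + ξ) : ℂ) * ec (z - k * σ) x)]
  have h2 := integral_add_right_eq_self (fun x => ((PhA a h n x : ℝ) : ℂ) * ec (z - k * σ) (x - ξ)) ξ
    (μ := volume)
  simp only [add_sub_cancel_right] at h2
  rw [h2]
  have h3 : ∀ x : ℝ, ((PhA a h n x : ℝ) : ℂ) * ec (z - k * σ) (x - ξ) =
      (((PhA a h n x : ℝ) : ℂ) * ec (z - k * σ) x) * ec (z - k * σ) (-ξ) := by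
    intro x
    have e4 : ec (z - k * σ) (x - ξ) = ec (z - k * σ) x * ec (z - k * σ) (-ξ) := by
      rw [← ec_add]
      rfl
    rw [e4]
    ring
  simp_rw [h3]
  rw [integral_mul_const, integral_PhA ha hh, abs_of_pos (by positivity), inv_div, Complex.real_smul]
  ring

theorem samp_one {a h : ℝ} (ha : 0 < a) (hh : 0 < h) {n : ℕ} (hn : 2 ≤ n) {σ : ℝ} (hσ : 0 < σ) (hσ1 : h * σ ≤ 1 / 2)
    (hP : 2 * a < 2 * π / σ) {ξ : ℝ} (hξ : |ξ| ≤ a - n * h) {x y : ℝ} (hy : 0 ≤ y) (hnhy : n * h * y ≤ 1) :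
    HasSum (fun k : ℤ => ((σ / (2 * π) : ℝ) : ℂ) * (ec (x + y * Complex.I - k * σ) (-ξ) *
      KA a h n (x + y * Complex.I - k * σ))) 1 := by
  have hpi := Real.pi_pos
  have hn0 : 0 < n := by omega
  have hbd : ∀ k : ℤ, ‖((σ / (2 * π) : ℝ) : ℂ) * (ec (x + y * Complex.I - k * σ) (-ξ) *
      KA a h n (x + y * Complex.I - k * σ))‖ ≤ (1 / (2 * π * h) * (Real.exp (y * |ξ|) * (4 * a * Real.exp 1 * Real.exp (a * y)))) *
        (h * σ / (1 + (h * x - k * (h * σ)) ^ 2)) := by
    intro k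
    have e1 : (x + y * Complex.I - k * σ : ℂ) = ((x - k * σ : ℝ) : ℂ) + y * Complex.I := by push_cast; ring
    rw [e1, norm_mul, norm_mul, Complex.norm_real, Real.norm_eq_abs, abs_of_pos (by positivity : 0 < σ / (2 * π)), norm_ec]
    have h1 := norm_KA_le ha hh hn (x := x - k * σ) hy hnhy (norm_csn_a ha _ hy)
    have e2 : h * (x - k * σ) = h * x - k * (h * σ) := by ring
    rw [e2] at h1
    have h2 : Real.exp (-((((x - k * σ : ℝ) : ℂ) + y * Complex.I).im * -ξ)) ≤ Real.exp (y * |ξ|) := by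
      apply Real.exp_le_exp.2
      have : (((x - k * σ : ℝ) : ℂ) + y * Complex.I).im = y := by simp
      rw [this]
      have := le_abs_self ξ
      nlinarith
    calc σ / (2 * π) * (Real.exp (-((((x - k * σ : ℝ) : ℂ) + y * Complex.I).im * -ξ)) * ‖KA a h n (((x - k * σ : ℝ) : ℂ) + y * Complex.I)‖)
        ≤ σ / (2 * π) * (Real.exp (y * |ξ|) * (4 * a * Real.exp 1 * Real.exp (a * y) / (1 + (h * x - k * (h * σ)) ^ 2))) := by
          apply mul_le_mul_of_nonneg_left _ (by positivity)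
          exact mul_le_mul h2 h1 (norm_nonneg _) (Real.exp_pos _).le
      _ = _ := by
          field_simp
  have hsum := Summable.of_norm_bounded
    ((summable_kernel (by positivity : 0 < h * σ) hσ1 (h * x)).mul_left
      (1 / (2 * π * h) * (Real.exp (y * |ξ|) * (4 * a * Real.exp 1 * Real.exp (a * y))))) hbd
  set z : ℂ := x + y * Complex.I with hz
  have hP0 : 0 < 2 * π / σ := by positivity
  have hbig : fP a h n (2 * π / σ) ξ z =O[cocompact ℝ] fun x : ℝ => |x| ^ (-2 : ℝ) := by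
    have h1 : ∀ᶠ η in cocompact ℝ, fP a h n (2 * π / σ) ξ z η = 0 := by
      have h2 := (tendsto_norm_cocompact_atTop (E := ℝ)).eventually_gt_atTop ((a + n * h + |ξ|) / (2 * π / σ))
      filter_upwards [h2] with η hη
      apply fP_zero hh
      rw [Real.norm_eq_abs] at hη
      have h3 : |2 * π / σ * η| ≤ |2 * π / σ * η + ξ| + |ξ| := by
        calc |2 * π / σ * η| = |(2 * π / σ * η + ξ) + -ξ| := by ring_nf
          _ ≤ |2 * π / σ * η + ξ| + |-ξ| := abs_add_le _ _
          _ = _ := by rw [abs_neg]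
      have h4 : a + n * h + |ξ| < |2 * π / σ * η| := by
        rw [abs_mul, abs_of_pos hP0]
        have := (div_lt_iff₀ hP0).1 hη
        linarith
      linarith
    refine Asymptotics.IsBigO.of_bound 1 ?_
    filter_upwards [h1] with η hη
    rw [hη, norm_zero]
    positivity
  have hF : ∀ k : ℤ, 𝓕 (fP a h n (2 * π / σ) ξ z) k = ((σ / (2 * π) : ℝ) : ℂ) * (ec (z - k * σ) (-ξ) * KA a h n (z - k * σ)) :=
    fun k => fP_fourier ha hh n hσ ξ z k
  have hPo := Real.tsum_eq_tsum_fourier_of_rpow_decay_of_summable (fP_continuous a hh hn0 (2 * π / σ) ξ z) (b := 2)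
    (by norm_num) hbig (by simp_rw [hF]; exact hsum) 0
  have h0 : ∑' m : ℤ, fP a h n (2 * π / σ) ξ z (0 + m) = 1 := by
    rw [tsum_eq_single 0]
    · simp only [Int.cast_zero, add_zero]
      unfold fP
      have h1 := (goodPh_PhA a hh n).one (2 * π / σ * 0 + ξ)
      rw [h1 (by rw [mul_zero, zero_add]; exact hξ)]
      simp [ec]
    · intro m hm
      apply fP_zero hh
      rw [zero_add]
      have hm1 : (1 : ℝ) ≤ |(m : ℝ)| := by exact_mod_cast Int.one_le_abs hm
      have h3 : |2 * π / σ * m| ≤ |2 * π / σ * m + ξ| + |ξ| := by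
        calc |2 * π / σ * m| = |(2 * π / σ * m + ξ) + -ξ| := by ring_nf
          _ ≤ |2 * π / σ * m + ξ| + |-ξ| := abs_add_le _ _
          _ = _ := by rw [abs_neg]
      have h4 : 2 * a < |2 * π / σ * m| := by
        rw [abs_mul, abs_of_pos hP0]
        nlinarith
      linarith
  rw [h0] at hPo
  have h1 : ∀ k : ℤ, 𝓕 (fP a h n (2 * π / σ) ξ z) k * fourier k ((0 : ℝ) : UnitAddCircle) =
      ((σ / (2 * π) : ℝ) : ℂ) * (ec (z - k * σ) (-ξ) * KA a h n (z - k * σ)) := by
    intro k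
    rw [hF]
    have : fourier k ((0 : ℝ) : UnitAddCircle) = 1 := by
      simp
    rw [this, mul_one]
  simp_rw [h1] at hPo
  rw [hPo]
  exact hsum.hasSum

/-- a finite exponential sum -/
noncomputable def esum {ι : Type*} (S : Finset ι) (c : ι → ℂ) (ω : ι → ℝ) (z : ℂ) : ℂ := ∑ j ∈ S, c j * ec z (ω j)

/-- **sampling formula** at a complex point for finite exponential sums with frequencies in `[0, W]` -/
theorem samp_esum {ι : Type*} {n : ℕ} (hn : 2 ≤ n) {h W σ : ℝ} (hh : 0 < h) (hW : 0 < W) (hσ : 0 < σ) (hσW : σ * W ≤ π)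
    (hnh : 4 * (n * h) ≤ W) (S : Finset ι) (c : ι → ℂ) (ω : ι → ℝ) (hω : ∀ j ∈ S, 0 ≤ ω j ∧ ω j ≤ W) (s x : ℝ) {y : ℝ}
    (hy : 0 ≤ y) (hnhy : n * h * y ≤ 1) :
    HasSum (fun k : ℤ => ((σ / (2 * π) : ℝ) : ℂ) * (ec (((x - s : ℝ) : ℂ) + y * Complex.I - k * σ) (W / 2) *
      KA (W / 2 + n * h) h n (((x - s : ℝ) : ℂ) + y * Complex.I - k * σ)) * esum S c ω (s + k * σ))
      (esum S c ω (x + y * Complex.I)) := by
  have hpi := Real.pi_pos
  have hn' : (2 : ℝ) ≤ n := by exact_mod_cast hn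
  have hσ1 : h * σ ≤ 1 / 2 := by
    have h1 : 8 * h ≤ W := by nlinarith
    have h2 : 8 * (h * σ) ≤ π := by nlinarith
    have := Real.pi_lt_four
    linarith
  have hP : 2 * (W / 2 + n * h) < 2 * π / σ := by
    rw [lt_div_iff₀ hσ]
    have : 0 < n * h := by positivity
    nlinarith
  unfold esum
  have h1 : ∀ j ∈ S, HasSum (fun k : ℤ => ((σ / (2 * π) : ℝ) : ℂ) * (ec (((x - s : ℝ) : ℂ) + y * Complex.I - k * σ) (-(ω j - W / 2)) *
      KA (W / 2 + n * h) h n (((x - s : ℝ) : ℂ) + y * Complex.I - k * σ)) * (c j * ec (x + y * Complex.I) (ω j)))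
      (1 * (c j * ec (x + y * Complex.I) (ω j))) := by
    intro j hj
    apply HasSum.mul_right
    apply samp_one (by positivity) hh hn hσ hσ1 hP _ hy hnhy
    rw [add_sub_cancel_right, abs_le]
    constructor <;> linarith [(hω j hj).1, (hω j hj).2]
  have h2 := hasSum_sum h1
  simp only [one_mul] at h2
  have e : (fun k : ℤ => ((σ / (2 * π) : ℝ) : ℂ) * (ec (((x - s : ℝ) : ℂ) + y * Complex.I - k * σ) (W / 2) *
      KA (W / 2 + n * h) h n (((x - s : ℝ) : ℂ) + y * Complex.I - k * σ)) * ∑ j ∈ S, c j * ec (s + k * σ) (ω j)) = fun k : ℤ =>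
      ∑ j ∈ S, ((σ / (2 * π) : ℝ) : ℂ) * (ec (((x - s : ℝ) : ℂ) + y * Complex.I - k * σ) (-(ω j - W / 2)) *
      KA (W / 2 + n * h) h n (((x - s : ℝ) : ℂ) + y * Complex.I - k * σ)) * (c j * ec (x + y * Complex.I) (ω j)) := by
    ext k
    rw [Finset.mul_sum]
    apply Finset.sum_congr rfl
    intro j _
    have h3 : ec (((x - s : ℝ) : ℂ) + y * Complex.I - k * σ) (-(ω j - W / 2)) * ec (x + y * Complex.I) (ω j) =
        ec (((x - s : ℝ) : ℂ) + y * Complex.I - k * σ) (W / 2) * ec (s + k * σ) (ω j) := by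
      unfold ec
      rw [← Complex.exp_add, ← Complex.exp_add]
      congr 1
      push_cast
      ring
    calc _ = ((σ / (2 * π) : ℝ) : ℂ) * KA (W / 2 + n * h) h n (((x - s : ℝ) : ℂ) + y * Complex.I - k * σ) * c j *
          (ec (((x - s : ℝ) : ℂ) + y * Complex.I - k * σ) (W / 2) * ec (s + k * σ) (ω j)) := by ring
      _ = _ := by rw [← h3]; ring
  rw [e]
  exact h2

/-- **sampling formula with weights**: the value at `s + iy` of an exponential sum with frequencies in `[0, W]` is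
`∑ w_k f(s + kσ)`, `σ W ≤ π`, with rapidly decreasing weights. -/
theorem samp_weights {n : ℕ} (hn : 2 ≤ n) {h W σ : ℝ} (hh : 0 < h) (hW : 0 < W) (hσ : 0 < σ) (hσW : σ * W ≤ π)
    (hnh : 4 * (n * h) ≤ W) {y : ℝ} (hy : 0 < y) (hnhy : n * h * y ≤ 1) :
    ∃ w : ℤ → ℂ, (∀ (S : Finset ℕ) (c : ℕ → ℂ) (ω : ℕ → ℝ) (s : ℝ), (∀ j ∈ S, 0 ≤ ω j ∧ ω j ≤ W) →
        HasSum (fun k : ℤ => w k * esum S c ω (s + k * σ)) (esum S c ω (s + y * Complex.I))) ∧
      (∀ k, ‖w k‖ ≤ 7 / (h * y) * (h * σ / (1 + (0 - k * (h * σ)) ^ 2))) ∧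
      (∀ (k : ℤ) (R : ℝ), 1 ≤ h * R → R ≤ |(k : ℝ) * σ| →
        ‖w k‖ ≤ (1 / (h * R)) ^ (n - 2) * (7 / (h * y) * (h * σ / (1 + (0 - k * (h * σ)) ^ 2)))) := by
  have hpi := Real.pi_pos
  set a := W / 2 + n * h with ha_def
  have ha : 0 < a := by positivity
  have hexp : Real.exp (-(y * (W / 2))) * Real.exp (a * y) ≤ Real.exp 1 := by
    rw [← Real.exp_add]
    apply Real.exp_le_exp.2
    rw [ha_def]
    linarith
  have h7 : 4 * (Real.exp 1 * Real.exp 1) ≤ 7 * (2 * π) := by
    have := Real.exp_one_lt_d9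
    have := Real.exp_pos 1
    have := Real.pi_gt_three
    nlinarith
  have key : ∀ (k : ℤ) (B : ℝ), 0 ≤ B → ‖KA a h n (((0 - k * σ : ℝ) : ℂ) + y * Complex.I)‖ ≤
      B * (4 * (1 / y) * Real.exp 1 * Real.exp (a * y) / (1 + (h * (0 - k * σ)) ^ 2)) →
      ‖((σ / (2 * π) : ℝ) : ℂ) * (ec (((0 - k * σ : ℝ) : ℂ) + y * Complex.I) (W / 2) *
        KA a h n (((0 - k * σ : ℝ) : ℂ) + y * Complex.I))‖ ≤
      B * (7 / (h * y) * (h * σ / (1 + (0 - k * (h * σ)) ^ 2))) := by
    intro k B hB hk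
    have e2 : h * (0 - k * σ) = 0 - k * (h * σ) := by ring
    rw [e2] at hk
    rw [norm_mul, norm_mul, Complex.norm_real, Real.norm_eq_abs, abs_of_pos (by positivity : 0 < σ / (2 * π)),
      norm_ec]
    have e3 : (((0 - k * σ : ℝ) : ℂ) + y * Complex.I).im = y := by simp
    rw [e3]
    have h6 : Real.exp (-(y * (W / 2))) * ‖KA a h n (((0 - k * σ : ℝ) : ℂ) + y * Complex.I)‖ ≤
        B * (1 / y * (4 * (Real.exp 1 * Real.exp 1)) / (1 + (0 - k * (h * σ)) ^ 2)) := by
      calc _ ≤ Real.exp (-(y * (W / 2))) * (B * (4 * (1 / y) * Real.exp 1 * Real.exp (a * y) / (1 + (0 - k * (h * σ)) ^ 2))) :=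
            mul_le_mul_of_nonneg_left hk (Real.exp_pos _).le
        _ = (B * (4 * (1 / y) * Real.exp 1 / (1 + (0 - k * (h * σ)) ^ 2))) * (Real.exp (-(y * (W / 2))) * Real.exp (a * y)) := by ring
        _ ≤ (B * (4 * (1 / y) * Real.exp 1 / (1 + (0 - k * (h * σ)) ^ 2))) * Real.exp 1 := mul_le_mul_of_nonneg_left hexp (by positivity)
        _ = _ := by ring
    calc _ ≤ σ / (2 * π) * (B * (1 / y * (4 * (Real.exp 1 * Real.exp 1)) / (1 + (0 - k * (h * σ)) ^ 2))) :=
          mul_le_mul_of_nonneg_left h6 (by positivity)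
      _ ≤ σ / (2 * π) * (B * (1 / y * (7 * (2 * π)) / (1 + (0 - k * (h * σ)) ^ 2))) := by
          apply mul_le_mul_of_nonneg_left _ (by positivity)
          apply mul_le_mul_of_nonneg_left _ hB
          apply div_le_div_of_nonneg_right _ (by positivity)
          exact mul_le_mul_of_nonneg_left h7 (by positivity)
      _ = _ := by
          field_simp
  refine ⟨fun k => ((σ / (2 * π) : ℝ) : ℂ) * (ec (((0 - k * σ : ℝ) : ℂ) + y * Complex.I) (W / 2) *
      KA a h n (((0 - k * σ : ℝ) : ℂ) + y * Complex.I)), ?_, ?_, ?_⟩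
  · intro S c ω s hω
    have h1 := samp_esum hn hh hW hσ hσW hnh S c ω hω s s hy.le hnhy
    rw [← ha_def] at h1
    have e : ∀ k : ℤ, (((s - s : ℝ) : ℂ) + y * Complex.I - k * σ) = ((0 - k * σ : ℝ) : ℂ) + y * Complex.I := by
      intro k
      push_cast
      ring
    simp_rw [e] at h1
    exact h1
  · intro k
    have h1 := norm_KA_le ha hh hn (x := 0 - k * σ) hy.le hnhy (norm_csn_y ha _ hy)
    have h2 := key k 1 zero_le_one (by rw [one_mul]; exact h1)
    rw [one_mul] at h2
    exact h2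
  · intro k R hR hk
    have hR0 : 0 < R := by
      by_contra hR0
      push Not at hR0
      nlinarith
    have h1 := norm_KA_far ha hh hn (x := 0 - k * σ) hy.le hnhy (norm_csn_y ha _ hy) hR (by
      rw [zero_sub, abs_neg]
      exact hk)
    exact key k _ (by positivity) h1

end Pool.Agent.H26.AH
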