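import Pool.Agent.H68.AH.Defs
import Pool.Agent.H68.HF.Mean
import Pool.Agent.H14.GP.Vd
import Pool.Agent.H14.GP.Gb
import Pool.Agent.H26.AH.Samp

/-!
# MP_103a5c_AH: `C(t)` as a Dirichlet polynomial; translation invariant mean square; sampling formula for `C(t - iy)`
-/

open MeasureTheory Set Filter Topology
open scoped Real ContDiff ComplexConjugate

namespace Pool.Agent.H26.AH

open Pool.Agent Pool.Agent.H6 Pool.Agent.H14.GP Pool.Agent.H24.HF Pool.Agent.H67.HF Pool.Agent.H68.AH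

/-- `C` as a Dirichlet polynomial -/
noncomputable def XC (M : ℕ) (G : ℕ → ℝ → ℝ) (T : ℝ) : DPoly := ∑ k ∈ Finset.range M, cf (-1) (fun j => bb (G j) T) k

theorem CT_ev (M : ℕ) (G : ℕ → ℝ → ℝ) (T t : ℝ) : CT M G T t = ev t (XC M G T) := by
  unfold CT XC hh
  rw [map_sum]
  refine Finset.sum_congr rfl fun k _ => ?_
  rw [cf_map]

/-- the character `n ↦ exp (-z log n)` -/
noncomputable def chz (z : ℂ) : ℕ →* ℂ where
  toFun n := if n = 0 then 0 else Complex.exp (-z * (Real.log n : ℝ))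
  map_one' := by simp
  map_mul' m n := by
    by_cases hm : m = 0
    · simp [hm]
    by_cases hn : n = 0
    · simp [hn]
    have hm' : (m : ℝ) ≠ 0 := by exact_mod_cast hm
    have hn' : (n : ℝ) ≠ 0 := by exact_mod_cast hn
    simp only [mul_eq_zero, hm, hn, or_self, if_false]
    rw [← Complex.exp_add, Nat.cast_mul, Real.log_mul hm' hn']
    congr 1
    push_cast
    ring

theorem chz_apply (z : ℂ) {n : ℕ} (hn : n ≠ 0) : chz z n = Complex.exp (-z * (Real.log n : ℝ)) := if_neg hn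

/-- value at a complex point -/
noncomputable def evz (z : ℂ) : DPoly →ₐ[ℝ] ℂ := MonoidAlgebra.lift ℝ ℂ ℕ (chz z)

theorem evz_single (z : ℂ) (n : ℕ) (c : ℝ) : evz z (MonoidAlgebra.single n c) = (c : ℂ) * chz z n := by
  unfold evz
  rw [MonoidAlgebra.lift_single, Complex.real_smul]

theorem evz_eq (z : ℂ) (X : DPoly) : evz z X = ∑ n ∈ X.coeff.support, (X.coeff n : ℂ) * chz z n := by
  unfold evz
  rw [MonoidAlgebra.lift_apply, Finsupp.sum]
  exact Finset.sum_congr rfl fun n _ => by rw [Complex.real_smul]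

/-- `C` at height `y` -/
theorem CT_evz (M : ℕ) (G : ℕ → ℝ → ℝ) {T : ℝ} (hT : 1 < T) (y t : ℝ) :
    CT M (hG y G) T t = evz (((2 * π * y / Real.log T : ℝ) : ℂ) + t * Complex.I) (XC M G T) := by
  have hL : Real.log T ≠ 0 := (Real.log_pos hT).ne'
  unfold CT XC hh
  rw [map_sum]
  refine Finset.sum_congr rfl fun k _ => ?_
  rw [cf_map]
  congr 1
  funext j
  unfold Pool.Agent.H14.GP.bb
  rw [map_sum, map_sum]
  refine Finset.sum_congr rfl fun p hp => ?_
  have hp0 : p ≠ 0 := (Finset.mem_filter.1 hp).2.ne_zero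
  rw [ev_single, evz_single, chz_apply _ hp0, Vb_chi _ hp0]
  unfold hG
  have e : Complex.exp (-(((2 * π * y / Real.log T : ℝ) : ℂ) + t * Complex.I) * (Real.log p : ℝ)) =
      ((Real.exp (-(2 * π * (Real.log p / Real.log T) * y)) : ℝ) : ℂ) *
        Complex.exp (-((t * Real.log p : ℝ) : ℂ) * Complex.I) := by
    rw [Complex.ofReal_exp, ← Complex.exp_add]
    congr 1
    push_cast
    ring
  rw [e]
  push_cast
  ring

theorem suppLe_add {N : ℝ} {X Y : DPoly} (hX : SuppLe N X) (hY : SuppLe N Y) : SuppLe N (X + Y) := by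
  intro n hn
  rw [MonoidAlgebra.coeff_add, Finsupp.add_apply] at hn
  by_cases h : X.coeff n = 0
  · rw [h, zero_add] at hn
    exact hY n hn
  · exact hX n h

theorem suppLe_zero (N : ℝ) : SuppLe N (0 : DPoly) := by
  intro n hn
  exact absurd rfl hn

theorem suppLe_sum {ι : Type*} {N : ℝ} (s : Finset ι) {X : ι → DPoly} (h : ∀ i ∈ s, SuppLe N (X i)) :
    SuppLe N (∑ i ∈ s, X i) := by
  classical
  induction s using Finset.induction_on with
  | empty =>
    rw [Finset.sum_empty]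
    exact suppLe_zero N
  | insert a s ha ih =>
    rw [Finset.sum_insert ha]
    exact suppLe_add (h a (Finset.mem_insert_self a s)) (ih fun i hi => h i (Finset.mem_insert_of_mem hi))

theorem suppLe_smul {N : ℝ} (c : ℝ) {X : DPoly} (hX : SuppLe N X) : SuppLe N (c • X) := by
  intro n hn
  rw [MonoidAlgebra.coeff_smul, Finsupp.smul_apply] at hn
  exact hX n (right_ne_zero_of_mul hn)

theorem suppLe_cf {M : ℕ} {θ : ℝ} {G : ℕ → ℝ → ℝ} (hG : Cells1 M θ G) {T : ℝ} (hT : 1 < T) (c : ℝ) (k : ℕ) :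
    SuppLe (T ^ (θ * k / M)) (cf c (fun j => bb (G j) T) k) := by
  have hT0 : 0 < T := by linarith
  induction k using Nat.strong_induction_on with
  | _ k ih =>
    rcases k with _ | n
    · rw [cf_zero]
      have : T ^ (θ * ((0 : ℕ) : ℝ) / M) = 1 := by simp
      rw [this]
      exact suppLe_one
    · rw [cf_succ]
      apply suppLe_smul
      apply suppLe_sum
      intro j hj
      rw [Finset.mem_range] at hj
      apply suppLe_smul
      have h1 : SuppLe (T ^ (θ * (j + 1 : ℕ) / M)) (bb (G (j + 1)) T) := by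
        apply bb_supp _ hT
        intro x hx
        by_contra h
        have := (hG.cell (j + 1) x h).2
        linarith
      have h2 := ih (n - j) (by omega)
      have h3 := h1.mul h2
      rw [← Real.rpow_add hT0] at h3
      have e : θ * ((j + 1 : ℕ) : ℝ) / M + θ * ((n - j : ℕ) : ℝ) / M = θ * ((n + 1 : ℕ) : ℝ) / M := by
        rw [Nat.cast_sub (by omega)]
        push_cast
        ring
      rw [e] at h3
      exact h3

theorem suppLe_XC {M : ℕ} {θ : ℝ} {G : ℕ → ℝ → ℝ} (hG : Cells1 M θ G) {T : ℝ} (hT : 1 < T) :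
    SuppLe (T ^ θ) (XC M G T) := by
  have hM : (0 : ℝ) < M := by
    have := hG.M_pos
    exact_mod_cast (by omega : 0 < M)
  apply suppLe_sum
  intro k hk
  refine (suppLe_cf hG hT (-1) k).mono ?_
  apply Real.rpow_le_rpow_of_exponent_le hT.le
  rw [div_le_iff₀ hM]
  have : (k : ℝ) ≤ M := by exact_mod_cast (Finset.mem_range.1 hk).le
  exact mul_le_mul_of_nonneg_left this hG.θ_pos.le

theorem exists_bd {M : ℕ} {θ : ℝ} {G : ℕ → ℝ → ℝ} (hG : Cells1 M θ G) : ∃ B : ℝ, 0 ≤ B ∧ ∀ j x, |G j x| ≤ B := by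
  have h1 : ∀ j, ∃ B : ℝ, 0 ≤ B ∧ ∀ x, |G j x| ≤ B := by
    intro j
    obtain ⟨a, ha, hlow⟩ := hG.low
    have hcs : HasCompactSupport (G j) := by
      apply HasCompactSupport.intro (isCompact_Icc (a := a) (b := θ * j / M))
      intro x hx
      by_contra h
      apply hx
      refine ⟨?_, (hG.cell j x h).2.le⟩
      by_contra h2
      exact h (hlow j x (not_le.1 h2).le)
    obtain ⟨C, hC⟩ := hcs.exists_bound_of_continuous (hG.smooth j).continuous
    exact ⟨C, (norm_nonneg _).trans (hC 0), hC⟩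
  choose B hB0 hB using h1
  refine ⟨∑ j ∈ Finset.range M, B j, Finset.sum_nonneg fun j _ => hB0 j, fun j x => ?_⟩
  by_cases hj : j < M
  · exact (hB j x).trans (Finset.single_le_sum (f := B) (fun i _ => hB0 i) (Finset.mem_range.2 hj))
  · rw [hG.out j (Or.inr (not_lt.1 hj)) x, abs_zero]
    exact Finset.sum_nonneg fun j _ => hB0 j

theorem l1_smul_le (c : ℝ) (X : DPoly) : l1 (c • X) ≤ |c| * l1 X := by
  have h1 : c • X = MonoidAlgebra.single 1 c * X := by
    rw [Algebra.smul_def]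
    rfl
  rw [h1, ← l1_single 1 c]
  exact l1_mul_le _ _

theorem l1_cf {M : ℕ} {θ : ℝ} {G : ℕ → ℝ → ℝ} (hG : Cells1 M θ G) (k : ℕ) :
    ∃ C : ℝ, 0 ≤ C ∧ ∀ T : ℝ, 1 ≤ T → l1 (cf (-1) (fun j => bb (G j) T) k) ≤ C * T ^ k := by
  obtain ⟨B, hB0, hB⟩ := exists_bd hG
  induction k using Nat.strong_induction_on with
  | _ k ih =>
    rcases k with _ | n
    · refine ⟨1, zero_le_one, fun T _ => ?_⟩
      rw [cf_zero, l1_one, pow_zero, one_mul]
    · have h1 : ∀ j : ℕ, ∃ C : ℝ, 0 ≤ C ∧ (j ∈ Finset.range (n + 1) → ∀ T : ℝ, 1 ≤ T →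
          l1 (cf (-1) (fun j => bb (G j) T) (n - j)) ≤ C * T ^ (n - j)) := by
        intro j
        obtain ⟨C, hC0, hC⟩ := ih (n - j) (by omega)
        exact ⟨C, hC0, fun _ => hC⟩
      choose C hC0 hC using h1
      refine ⟨|(-1) / ((n : ℝ) + 1)| * ∑ j ∈ Finset.range (n + 1), |(j : ℝ) + 1| * (2 * B * C j),
        mul_nonneg (abs_nonneg _) (Finset.sum_nonneg fun j _ => by have := hC0 j; positivity),
        fun T hT => ?_⟩
      have hT0 : 0 < T := by linarith
      rw [cf_succ]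
      refine (l1_smul_le _ _).trans ?_
      rw [mul_assoc]
      refine mul_le_mul_of_nonneg_left ?_ (abs_nonneg _)
      refine (l1_sum_le _ _).trans ?_
      rw [Finset.sum_mul]
      refine Finset.sum_le_sum fun j hj => ?_
      refine (l1_smul_le _ _).trans ?_
      rw [mul_assoc]
      refine mul_le_mul_of_nonneg_left ?_ (abs_nonneg _)
      refine (l1_mul_le _ _).trans ?_
      have h2 : l1 (bb (G (j + 1)) T) ≤ 2 * B * T := by
        refine (bb_l1 (hB (j + 1)) hT0.le).trans ?_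
        nlinarith
      have h3 := hC j hj T hT
      have h4 : T * T ^ (n - j) ≤ T ^ (n + 1) := by
        rw [← pow_succ']
        exact pow_le_pow_right₀ hT (by omega)
      calc l1 (bb (G (j + 1)) T) * l1 (cf (-1) (fun j => bb (G j) T) (n - j)) ≤ (2 * B * T) * (C j * T ^ (n - j)) :=
            mul_le_mul h2 h3 (l1_nonneg _) (by positivity)
        _ = 2 * B * C j * (T * T ^ (n - j)) := by ring
        _ ≤ _ := mul_le_mul_of_nonneg_left h4 (by have := hC0 j; positivity)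

theorem l1_XC {M : ℕ} {θ : ℝ} {G : ℕ → ℝ → ℝ} (hG : Cells1 M θ G) :
    ∃ C : ℝ, 0 ≤ C ∧ ∀ T : ℝ, 1 ≤ T → l1 (XC M G T) ≤ C * T ^ M := by
  have h1 : ∀ k, ∃ C : ℝ, 0 ≤ C ∧ ∀ T : ℝ, 1 ≤ T → l1 (cf (-1) (fun j => bb (G j) T) k) ≤ C * T ^ k := l1_cf hG
  choose C hC0 hC using h1
  refine ⟨∑ k ∈ Finset.range M, C k, Finset.sum_nonneg fun k _ => hC0 k, fun T hT => ?_⟩
  unfold XC
  refine (l1_sum_le _ _).trans ?_
  rw [Finset.sum_mul]
  refine Finset.sum_le_sum fun k hk => (hC k T hT).trans ?_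
  exact mul_le_mul_of_nonneg_left (pow_le_pow_right₀ hT (Finset.mem_range.1 hk).le) (hC0 k)

/-- translation invariant mean square -/
theorem mv_shift {v : ℝ → ℝ} (hv : Wgt v) {δ : ℝ} (hδ : 0 < δ) (K : ℕ) : ∃ C, 0 ≤ C ∧ ∀ T : ℝ, 1 ≤ T →
    ∀ X : DPoly, SuppLe (T ^ (1 - δ)) X → ∀ u : ℝ,
    ‖EC v T (fun t => ev (t + u) X * conj (ev (t + u) X)) - (((∫ x, v x) * ip X X : ℝ) : ℂ)‖
      ≤ C * T ^ (-(K : ℝ)) * l1 X * l1 X := by
  obtain ⟨C, hC, h⟩ := Vb_off hv hδ K
  refine ⟨C, hC, fun T hT X hX u => ?_⟩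
  have hT0 : 0 < T := by linarith
  set S := X.coeff.support with hS
  have hSm : ∀ n ∈ S, 1 ≤ n ∧ (n : ℝ) ≤ T ^ (1 - δ) := fun n hn =>
    hX n (Finsupp.mem_support_iff.1 hn)
  have hu : ∀ (t : ℝ) (n : ℕ), chi (t + u) n = chi u n * chi t n := by
    intro t n
    by_cases hn : n = 0
    · rw [hn, Vb_chi_zero, Vb_chi_zero, zero_mul]
    · rw [Vb_chi _ hn, Vb_chi _ hn, Vb_chi _ hn, ← Complex.exp_add]
      congr 1
      push_cast
      ring
  have hu1 : ∀ n ∈ S, chi u n * conj (chi u n) = 1 := by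
    intro n hn
    have hn0 : n ≠ 0 := by have := (hSm n hn).1; omega
    rw [Vb_pair u hn0 hn0, sub_self, mul_zero, Complex.ofReal_zero, neg_zero, zero_mul, Complex.exp_zero]
  have e1 : (fun t => ev (t + u) X * conj (ev (t + u) X)) = fun t => ∑ q ∈ S ×ˢ S,
      ((X.coeff q.1 : ℂ) * (X.coeff q.2 : ℂ) * (chi u q.1 * conj (chi u q.2))) * (chi t q.1 * conj (chi t q.2)) := by
    funext t
    rw [ev_eq, map_sum, Finset.sum_mul_sum, ← Finset.sum_product']
    refine Finset.sum_congr rfl fun q _ => ?_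
    rw [hu, hu, map_mul, map_mul, Complex.conj_ofReal]
    ring
  have e2 : EC v T (fun t => ev (t + u) X * conj (ev (t + u) X)) = ∑ q ∈ S ×ˢ S,
      ((X.coeff q.1 : ℂ) * (X.coeff q.2 : ℂ) * (chi u q.1 * conj (chi u q.2))) *
        EC v T (fun t => chi t q.1 * conj (chi t q.2)) := by
    rw [e1]
    exact Vb_EC_sum hv hT0 (S ×ˢ S) (fun q => (X.coeff q.1 : ℂ) * (X.coeff q.2 : ℂ) * (chi u q.1 * conj (chi u q.2)))
      (fun q t => chi t q.1 * conj (chi t q.2)) (fun q _ =>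
        (Vb_cont_chi q.1).mul (Complex.continuous_conj.comp (Vb_cont_chi q.2)))
  have e3 : (((∫ x, v x) * ip X X : ℝ) : ℂ) = ∑ q ∈ S ×ˢ S,
      ((X.coeff q.1 : ℂ) * (X.coeff q.2 : ℂ) * (chi u q.1 * conj (chi u q.2))) *
        (if q.1 = q.2 then ((∫ x, v x : ℝ) : ℂ) else 0) := by
    rw [Finset.sum_product]
    unfold ip
    rw [Finset.mul_sum, Complex.ofReal_sum]
    refine Finset.sum_congr rfl fun m hm => ?_
    have e4 : ∀ n ∈ S, ((X.coeff m : ℂ) * (X.coeff n : ℂ) * (chi u m * conj (chi u n))) *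
        (if m = n then ((∫ x, v x : ℝ) : ℂ) else 0) =
        if m = n then (X.coeff m : ℂ) * (X.coeff n : ℂ) * (chi u m * conj (chi u n)) * ((∫ x, v x : ℝ) : ℂ) else 0 := by
      intro n _
      rw [mul_ite, mul_zero]
    rw [Finset.sum_congr rfl e4, Finset.sum_ite_eq, if_pos hm, hu1 m hm]
    push_cast
    ring
  rw [e2, e3, ← Finset.sum_sub_distrib]
  refine (norm_sum_le _ _).trans ?_
  have e5 : C * T ^ (-(K : ℝ)) * l1 X * l1 X =
      ∑ q ∈ S ×ˢ S, (|X.coeff q.1| * |X.coeff q.2|) * (C * T ^ (-(K : ℝ))) := by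
    rw [← Finset.sum_mul, Finset.sum_product]
    unfold l1
    rw [mul_assoc, Finset.sum_mul_sum, mul_comm]
  rw [e5]
  refine Finset.sum_le_sum fun q hq => ?_
  obtain ⟨hq1, hq2⟩ := Finset.mem_product.1 hq
  obtain ⟨hm, _⟩ := hSm _ hq1
  obtain ⟨hn, hnT⟩ := hSm _ hq2
  rw [← mul_sub, norm_mul, norm_mul, norm_mul, Complex.norm_real, Complex.norm_real, Real.norm_eq_abs,
    Real.norm_eq_abs]
  have e8 : ‖chi u q.1 * conj (chi u q.2)‖ ≤ 1 := by
    rw [norm_mul, RCLike.norm_conj]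
    exact mul_le_one₀ (Vb_norm_chi _ _) (norm_nonneg _) (Vb_norm_chi _ _)
  have e9 : ‖EC v T (fun t => chi t q.1 * conj (chi t q.2)) - (if q.1 = q.2 then ((∫ x, v x : ℝ) : ℂ) else 0)‖ ≤
      C * T ^ (-(K : ℝ)) := by
    have e6 : (fun t => chi t q.1 * conj (chi t q.2)) = fun t =>
        Complex.exp (-((t * (Real.log q.1 - Real.log q.2) : ℝ) : ℂ) * Complex.I) := by
      funext t
      exact Vb_pair t (by omega) (by omega)
    rw [e6]
    by_cases hmn : q.1 = q.2
    · rw [if_pos hmn]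
      have e7 : (fun t : ℝ => Complex.exp (-((t * (Real.log q.1 - Real.log q.2) : ℝ) : ℂ) * Complex.I)) =
          fun _ => 1 := by
        funext t
        rw [hmn, sub_self, mul_zero, Complex.ofReal_zero, neg_zero, zero_mul, Complex.exp_zero]
      rw [e7, wone v hT0, sub_self, norm_zero]
      positivity
    · rw [if_neg hmn, sub_zero]
      exact h T hT q.1 q.2 hm hn hmn hnT
  calc |X.coeff q.1| * |X.coeff q.2| * ‖chi u q.1 * conj (chi u q.2)‖ * _
      ≤ |X.coeff q.1| * |X.coeff q.2| * 1 * (C * T ^ (-(K : ℝ))) := by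
        apply mul_le_mul _ e9 (norm_nonneg _) (by positivity)
        exact mul_le_mul_of_nonneg_left e8 (by positivity)
    _ = _ := by ring

end Pool.Agent.H26.AH
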