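import Mathlib

/-!
# MP_103a5c_AH, block P4, part a: cosine integrals of symbols

`Sy m K f f1 f2`: on `(0, ∞)` `f1 = f'`, `f2 = f''` and `|f^{(i)}(u)| ≤ K u^{-m-i}`, `i = 0, 1, 2`.
-/

open MeasureTheory Set Filter Topology
open scoped Real Interval

namespace Pool.Agent.H26.AH

/-- symbols of order `-m` -/
structure Sy (m : ℕ) (K : ℝ) (f f1 f2 : ℝ → ℝ) : Prop where
  d1 : ∀ u, 0 < u → HasDerivAt f (f1 u) u
  d2 : ∀ u, 0 < u → HasDerivAt f1 (f2 u) u
  c2 : ContinuousOn f2 (Ioi 0)
  b0 : ∀ u, 0 < u → |f u| * u ^ m ≤ K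
  b1 : ∀ u, 0 < u → |f1 u| * u ^ (m + 1) ≤ K
  b2 : ∀ u, 0 < u → |f2 u| * u ^ (m + 2) ≤ K

theorem Sy.nonneg {m : ℕ} {K : ℝ} {f f1 f2 : ℝ → ℝ} (hf : Sy m K f f1 f2) : 0 ≤ K :=
  (by positivity : 0 ≤ |f 1| * 1 ^ m).trans (hf.b0 1 one_pos)

theorem Sy.mul {m n : ℕ} {K L : ℝ} {f f1 f2 g g1 g2 : ℝ → ℝ} (hf : Sy m K f f1 f2) (hg : Sy n L g g1 g2) :
    Sy (m + n) (4 * (K * L)) (fun u => f u * g u) (fun u => f1 u * g u + f u * g1 u)
      (fun u => f2 u * g u + 2 * (f1 u * g1 u) + f u * g2 u) := by
  have hK := hf.nonneg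
  have hL := hg.nonneg
  have hKL : 0 ≤ K * L := mul_nonneg hK hL
  have key : ∀ {a b : ℝ} {u : ℝ} {i j : ℕ}, 0 < u → |a| * u ^ i ≤ K → |b| * u ^ j ≤ L → |a * b| * u ^ (i + j) ≤ K * L := by
    intro a b u i j hu h1 h2
    rw [abs_mul, pow_add]
    calc |a| * |b| * (u ^ i * u ^ j) = (|a| * u ^ i) * (|b| * u ^ j) := by ring
      _ ≤ K * L := mul_le_mul h1 h2 (by positivity) hK
  constructor
  · intro u hu
    exact (hf.d1 u hu).mul (hg.d1 u hu)
  · intro u hu
    have h1 := ((hf.d2 u hu).mul (hg.d1 u hu)).add ((hf.d1 u hu).mul (hg.d2 u hu))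
    refine h1.congr_deriv ?_
    ring
  · have a1 : ContinuousOn f (Ioi 0) := fun u hu => (hf.d1 u hu).continuousAt.continuousWithinAt
    have a2 : ContinuousOn f1 (Ioi 0) := fun u hu => (hf.d2 u hu).continuousAt.continuousWithinAt
    have a3 : ContinuousOn g (Ioi 0) := fun u hu => (hg.d1 u hu).continuousAt.continuousWithinAt
    have a4 : ContinuousOn g1 (Ioi 0) := fun u hu => (hg.d2 u hu).continuousAt.continuousWithinAt
    exact ((hf.c2.mul a3).add (continuousOn_const.mul (a2.mul a4))).add (a1.mul hg.c2)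
  · intro u hu
    have := key hu (hf.b0 u hu) (hg.b0 u hu)
    linarith
  · intro u hu
    have h1 := key hu (hf.b1 u hu) (hg.b0 u hu)
    have h2 := key hu (hf.b0 u hu) (hg.b1 u hu)
    have e1 : m + 1 + n = m + n + 1 := by ring
    have e2 : m + (n + 1) = m + n + 1 := by ring
    rw [e1] at h1
    rw [e2] at h2
    have h3 := abs_add_le (f1 u * g u) (f u * g1 u)
    have h4 : 0 ≤ u ^ (m + n + 1) := by positivity
    calc |f1 u * g u + f u * g1 u| * u ^ (m + n + 1) ≤ (|f1 u * g u| + |f u * g1 u|) * u ^ (m + n + 1) :=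
          mul_le_mul_of_nonneg_right h3 h4
      _ ≤ _ := by rw [add_mul]; linarith
  · intro u hu
    have h1 := key hu (hf.b2 u hu) (hg.b0 u hu)
    have h2 := key hu (hf.b1 u hu) (hg.b1 u hu)
    have h3 := key hu (hf.b0 u hu) (hg.b2 u hu)
    have e1 : m + 2 + n = m + n + 2 := by ring
    have e2 : m + 1 + (n + 1) = m + n + 2 := by ring
    have e3 : m + (n + 2) = m + n + 2 := by ring
    rw [e1] at h1
    rw [e2] at h2
    rw [e3] at h3
    have h4 : |f2 u * g u + 2 * (f1 u * g1 u) + f u * g2 u| ≤ |f2 u * g u| + 2 * |f1 u * g1 u| + |f u * g2 u| := by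
      calc _ ≤ |f2 u * g u + 2 * (f1 u * g1 u)| + |f u * g2 u| := abs_add_le _ _
        _ ≤ |f2 u * g u| + |2 * (f1 u * g1 u)| + |f u * g2 u| := by
          have := abs_add_le (f2 u * g u) (2 * (f1 u * g1 u))
          linarith
        _ = _ := by rw [abs_mul 2, abs_two]
    have h5 : 0 ≤ u ^ (m + n + 2) := by positivity
    calc |f2 u * g u + 2 * (f1 u * g1 u) + f u * g2 u| * u ^ (m + n + 2)
        ≤ (|f2 u * g u| + 2 * |f1 u * g1 u| + |f u * g2 u|) * u ^ (m + n + 2) := mul_le_mul_of_nonneg_right h4 h5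
      _ = |f2 u * g u| * u ^ (m + n + 2) + 2 * (|f1 u * g1 u| * u ^ (m + n + 2)) + |f u * g2 u| * u ^ (m + n + 2) := by ring
      _ ≤ _ := by linarith

theorem sy_inv : Sy 1 2 (fun u => u⁻¹) (fun u => -(u ^ 2)⁻¹) (fun u => 2 * (u ^ 3)⁻¹) := by
  constructor
  · intro u hu
    exact hasDerivAt_inv hu.ne'
  · intro u hu
    have h1 := ((hasDerivAt_pow 2 u).inv (by positivity)).neg
    refine h1.congr_deriv ?_
    have := hu.ne'
    field_simp
    norm_num
    ring
  · apply ContinuousOn.mul continuousOn_const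
    apply ContinuousOn.inv₀ (by fun_prop)
    intro u hu
    have hu' : 0 < u := hu
    positivity
  · intro u hu
    have hu' := hu.ne'
    rw [abs_of_pos (by positivity)]
    field_simp
    norm_num
  · intro u hu
    have hu' := hu.ne'
    rw [abs_neg, abs_of_pos (by positivity)]
    field_simp
    have h : u ^ (1 + 1) = u ^ 2 := rfl
    rw [h]
    nlinarith [sq_nonneg u]
  · intro u hu
    have hu' := hu.ne'
    rw [abs_of_pos (by positivity)]
    field_simp
    exact le_refl _

/-- a smooth function with compact support, dilated -/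
theorem sy_dil {χ : ℝ → ℝ} (hχ : ContDiff ℝ 2 χ) (hc : HasCompactSupport χ) : ∃ K : ℝ, ∀ D : ℝ, 0 < D →
    Sy 0 K (fun u => χ (u / D)) (fun u => deriv χ (u / D) / D) (fun u => deriv (deriv χ) (u / D) / D ^ 2) := by
  have h1 : ContDiff ℝ 1 (deriv χ) := by
    have : ContDiff ℝ (1 + 1) χ := by simpa [one_add_one_eq_two] using hχ
    exact ((contDiff_succ_iff_deriv).1 this).2.2
  have h2 : ContDiff ℝ 0 (deriv (deriv χ)) := by
    have : ContDiff ℝ (0 + 1) (deriv χ) := by simpa using h1
    exact ((contDiff_succ_iff_deriv).1 this).2.2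
  have hd0 : Differentiable ℝ χ := hχ.differentiable (by norm_num)
  have hd1 : Differentiable ℝ (deriv χ) := h1.differentiable (by norm_num)
  obtain ⟨A, hA⟩ := hc.exists_bound_of_continuous hχ.continuous
  have hc1 : HasCompactSupport (deriv χ) := hc.deriv
  have hc2 : HasCompactSupport (deriv (deriv χ)) := hc1.deriv
  obtain ⟨B, hB⟩ := (hc1.mul_left (f := fun v : ℝ => v)).exists_bound_of_continuous (by
    have := h1.continuous
    exact continuous_id.mul this)
  obtain ⟨C, hC⟩ := (hc2.mul_left (f := fun v : ℝ => v ^ 2)).exists_bound_of_continuous (by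
    have := h2.continuous
    exact (continuous_id.pow 2).mul this)
  refine ⟨max A (max B C), fun D hD => ?_⟩
  have hdiv : ∀ u : ℝ, HasDerivAt (fun u => u / D) (1 / D) u := fun u => (hasDerivAt_id u).div_const D
  constructor
  · intro u hu
    have := (hd0 (u / D)).hasDerivAt.comp u (hdiv u)
    refine this.congr_deriv ?_
    ring
  · intro u hu
    have := ((hd1 (u / D)).hasDerivAt.comp u (hdiv u)).div_const D
    refine this.congr_deriv ?_
    field_simp
  · exact ((h2.continuous.comp (continuous_id.div_const D)).div_const _).continuousOn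
  · intro u hu
    rw [pow_zero, mul_one]
    exact (hA (u / D)).trans (le_max_left _ _)
  · intro u hu
    have h3 := hB (u / D)
    have h4 : |deriv χ (u / D) / D| * u ^ (0 + 1) = ‖u / D * deriv χ (u / D)‖ := by
      rw [Real.norm_eq_abs, abs_mul, abs_div, abs_div, abs_of_pos hD, abs_of_pos hu]
      ring
    rw [h4]
    exact h3.trans ((le_max_left _ _).trans (le_max_right _ _))
  · intro u hu
    have h3 := hC (u / D)
    have h4 : |deriv (deriv χ) (u / D) / D ^ 2| * u ^ (0 + 2) = ‖(u / D) ^ 2 * deriv (deriv χ) (u / D)‖ := by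
      rw [Real.norm_eq_abs, abs_mul, abs_div, abs_of_pos (by positivity : 0 < D ^ 2), abs_of_nonneg (sq_nonneg (u / D))]
      ring
    rw [h4]
    exact h3.trans ((le_max_right _ _).trans (le_max_right _ _))

theorem sy_one_sub {g g1 g2 : ℝ → ℝ} {K : ℝ} (hg : Sy 0 K g g1 g2) :
    Sy 0 (K + 1) (fun u => 1 - g u) (fun u => -g1 u) (fun u => -g2 u) := by
  constructor
  · intro u hu
    exact ((hg.d1 u hu).const_sub 1)
  · intro u hu
    exact (hg.d2 u hu).neg
  · exact hg.c2.neg
  · intro u hu
    have h1 := hg.b0 u hu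
    rw [pow_zero, mul_one] at h1 ⊢
    have h2 := abs_sub (1 : ℝ) (g u)
    rw [abs_one] at h2
    linarith
  · intro u hu
    rw [abs_neg]
    linarith [hg.b1 u hu]
  · intro u hu
    rw [abs_neg]
    linarith [hg.b2 u hu]

/-- the integrals over `[c, R]` -/
theorem Sy.cos_bound {K : ℝ} {f f1 f2 : ℝ → ℝ} (hf : Sy 1 K f f1 f2) {c R : ℝ} (hc : 0 < c) (hcR : c ≤ R)
    (h0 : ∀ u, 0 < u → u ≤ c → f u = 0) (hR : ∀ u, R ≤ u → f u = 0) {ω : ℝ} (hω : 0 < ω) :
    |∫ u in c..R, f u * Real.cos (ω * u)| ≤ K / (2 * c ^ 2 * ω ^ 2) ∧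
      (c * ω ≤ 1 → |∫ u in c..R, f u * Real.cos (ω * u)| ≤ K * (Real.log (1 / (c * ω)) + 2)) := by
  have hK := hf.nonneg
  have hR0 : 0 < R := hc.trans_le hcR
  -- the boundary values
  have hfc : f c = 0 := h0 c hc le_rfl
  have hfR : f R = 0 := hR R le_rfl
  have hf1c : f1 c = 0 := by
    have h1 := (hf.d1 c hc).hasDerivWithinAt (s := Iic c)
    have h2 : HasDerivWithinAt f 0 (Iic c) c := by
      have h3 : HasDerivWithinAt (fun _ : ℝ => (0 : ℝ)) 0 (Iic c) c := (hasDerivAt_const c (0 : ℝ)).hasDerivWithinAt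
      refine h3.congr_of_eventuallyEq ?_ hfc
      filter_upwards [self_mem_nhdsWithin, mem_nhdsWithin_of_mem_nhds (Ioi_mem_nhds hc)] with u hu hu2
      exact h0 u hu2 hu
    exact (uniqueDiffWithinAt_Iic c).eq_deriv _ h1 h2
  have hf1R : ∀ S, R ≤ S → f1 S = 0 := by
    intro S hS
    have hS0 : 0 < S := hR0.trans_le hS
    have h1 := (hf.d1 S hS0).hasDerivWithinAt (s := Ici S)
    have h2 : HasDerivWithinAt f 0 (Ici S) S := by
      have h3 : HasDerivWithinAt (fun _ : ℝ => (0 : ℝ)) 0 (Ici S) S := (hasDerivAt_const S (0 : ℝ)).hasDerivWithinAt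
      refine h3.congr_of_eventuallyEq ?_ (hR S hS)
      filter_upwards [self_mem_nhdsWithin] with u hu
      exact hR u (hS.trans hu)
    exact (uniqueDiffWithinAt_Ici S).eq_deriv _ h1 h2
  have cf : ContinuousOn f (Ioi 0) := fun u hu => (hf.d1 u hu).continuousAt.continuousWithinAt
  have cf1 : ContinuousOn f1 (Ioi 0) := fun u hu => (hf.d2 u hu).continuousAt.continuousWithinAt
  have hcos : ∀ u : ℝ, HasDerivAt (fun u => Real.sin (ω * u) / ω) (Real.cos (ω * u)) u := by
    intro u
    have h1 : HasDerivAt (fun u : ℝ => ω * u) (ω * 1) u := (hasDerivAt_id u).const_mul ω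
    have h2 := ((Real.hasDerivAt_sin (ω * u)).comp u h1).div_const ω
    refine h2.congr_deriv ?_
    field_simp
  have hsin : ∀ u : ℝ, HasDerivAt (fun u => -(Real.cos (ω * u) / ω)) (Real.sin (ω * u)) u := by
    intro u
    have h1 : HasDerivAt (fun u : ℝ => ω * u) (ω * 1) u := (hasDerivAt_id u).const_mul ω
    have h2 := (((Real.hasDerivAt_cos (ω * u)).comp u h1).div_const ω).neg
    refine h2.congr_deriv ?_
    field_simp
  have hsub : ∀ {a b : ℝ}, 0 < a → a ≤ b → uIcc a b ⊆ Ioi 0 := by
    intro a b ha hab u hu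
    rw [uIcc_of_le hab] at hu
    exact ha.trans_le hu.1
  have ii : ∀ {g : ℝ → ℝ} {a b : ℝ}, ContinuousOn g (Ioi 0) → 0 < a → a ≤ b → IntervalIntegrable g volume a b :=
    fun hg ha hab => (hg.mono (hsub ha hab)).intervalIntegrable
  -- integration by parts on `[a, b]`
  have ibp1 : ∀ a b, 0 < a → a ≤ b → ∫ u in a..b, f u * Real.cos (ω * u) =
      f b * (Real.sin (ω * b) / ω) - f a * (Real.sin (ω * a) / ω) - ∫ u in a..b, f1 u * (Real.sin (ω * u) / ω) := by
    intro a b ha hab
    exact intervalIntegral.integral_mul_deriv_eq_deriv_mul (fun u hu => hf.d1 u (hsub ha hab hu)) (fun u _ => hcos u)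
      (ii cf1 ha hab) ((by fun_prop : Continuous fun u => Real.cos (ω * u)).intervalIntegrable _ _)
  have ibp2 : ∫ u in c..R, f1 u * Real.sin (ω * u) =
      f1 R * -(Real.cos (ω * R) / ω) - f1 c * -(Real.cos (ω * c) / ω) - ∫ u in c..R, f2 u * -(Real.cos (ω * u) / ω) := by
    exact intervalIntegral.integral_mul_deriv_eq_deriv_mul (fun u hu => hf.d2 u (hsub hc hcR hu)) (fun u _ => hsin u)
      (ii hf.c2 hc hcR) ((by fun_prop : Continuous fun u => Real.sin (ω * u)).intervalIntegrable _ _)
  constructor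
  · have h1 := ibp1 c R hc hcR
    rw [hfc, hfR, zero_mul, zero_mul, sub_zero, zero_sub] at h1
    have h2 : ∫ u in c..R, f1 u * (Real.sin (ω * u) / ω) = (∫ u in c..R, f1 u * Real.sin (ω * u)) / ω := by
      rw [← intervalIntegral.integral_div]
      congr 1
      funext u
      ring
    have h3 : ∫ u in c..R, f2 u * -(Real.cos (ω * u) / ω) = -((∫ u in c..R, f2 u * Real.cos (ω * u)) / ω) := by
      rw [← intervalIntegral.integral_div, ← intervalIntegral.integral_neg]
      congr 1
      funext u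
      ring
    rw [h1, h2, ibp2, hf1c, hf1R R le_rfl, h3]
    have h4 : -((0 * -(Real.cos (ω * R) / ω) - 0 * -(Real.cos (ω * c) / ω) - -((∫ u in c..R, f2 u * Real.cos (ω * u)) / ω)) / ω) =
        -((∫ u in c..R, f2 u * Real.cos (ω * u)) / ω ^ 2) := by
      field_simp
      try ring
    rw [h4, abs_neg, abs_div, abs_of_pos (by positivity : 0 < ω ^ 2)]
    have hprim : ∀ u : ℝ, 0 < u → HasDerivAt (fun u => -(K / 2 * (u ^ 2)⁻¹)) (K * (u ^ 3)⁻¹) u := by
      intro u hu
      have h5 := (((hasDerivAt_pow 2 u).inv (by positivity)).const_mul (K / 2)).neg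
      refine h5.congr_deriv ?_
      have := hu.ne'
      field_simp
      norm_num
    have hint : ∫ u in c..R, K * (u ^ 3)⁻¹ = -(K / 2 * (R ^ 2)⁻¹) - -(K / 2 * (c ^ 2)⁻¹) := by
      apply intervalIntegral.integral_eq_sub_of_hasDerivAt
      · intro u hu
        exact hprim u (hsub hc hcR hu)
      · apply ii _ hc hcR
        apply ContinuousOn.mul continuousOn_const
        apply ContinuousOn.inv₀ (by fun_prop)
        intro u hu
        have hu' : 0 < u := hu
        positivity
    have h5 : |∫ u in c..R, f2 u * Real.cos (ω * u)| ≤ K / 2 * (c ^ 2)⁻¹ := by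
      calc |∫ u in c..R, f2 u * Real.cos (ω * u)| ≤ ∫ u in c..R, K * (u ^ 3)⁻¹ := by
            rw [← Real.norm_eq_abs]
            apply intervalIntegral.norm_integral_le_of_norm_le hcR
            · refine ae_of_all _ fun u hu => ?_
              have hu0 : 0 < u := hc.trans hu.1
              have h6 := hf.b2 u hu0
              rw [Real.norm_eq_abs, abs_mul]
              have h7 := Real.abs_cos_le_one (ω * u)
              have h8 : |f2 u| ≤ K * (u ^ 3)⁻¹ := by
                rw [← div_eq_mul_inv, le_div_iff₀ (by positivity)]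
                exact h6
              calc |f2 u| * |Real.cos (ω * u)| ≤ |f2 u| * 1 := mul_le_mul_of_nonneg_left h7 (abs_nonneg _)
                _ ≤ _ := by rw [mul_one]; exact h8
            · apply ii _ hc hcR
              apply ContinuousOn.mul continuousOn_const
              apply ContinuousOn.inv₀ (by fun_prop)
              intro u hu
              have hu' : 0 < u := hu
              positivity
        _ = -(K / 2 * (R ^ 2)⁻¹) - -(K / 2 * (c ^ 2)⁻¹) := hint
        _ ≤ _ := by
            have : 0 ≤ K / 2 * (R ^ 2)⁻¹ := by positivity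
            linarith
    rw [div_le_div_iff₀ (by positivity) (by positivity)]
    have hc2 : c ^ 2 * (c ^ 2)⁻¹ = 1 := by
      have : c ^ 2 ≠ 0 := by positivity
      field_simp
    calc |∫ u in c..R, f2 u * Real.cos (ω * u)| * (2 * c ^ 2 * ω ^ 2) ≤ K / 2 * (c ^ 2)⁻¹ * (2 * c ^ 2 * ω ^ 2) :=
          mul_le_mul_of_nonneg_right h5 (by positivity)
      _ = K * (c ^ 2 * (c ^ 2)⁻¹) * ω ^ 2 := by ring
      _ = K * ω ^ 2 := by rw [hc2, mul_one]
  · intro hcω
    set a := 1 / ω with ha
    have ha0 : 0 < a := by positivity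
    have hca : c ≤ a := by
      rw [ha, le_div_iff₀ hω]
      exact hcω
    set S := max R a with hS
    have hRS : R ≤ S := le_max_left _ _
    have haS : a ≤ S := le_max_right _ _
    have hcS : c ≤ S := hcR.trans hRS
    have hS0 : 0 < S := hc.trans_le hcS
    have cfc : ContinuousOn (fun u => f u * Real.cos (ω * u)) (Ioi 0) := cf.mul (by fun_prop)
    -- extend to `[c, S]`
    have h1 : ∫ u in c..R, f u * Real.cos (ω * u) = ∫ u in c..S, f u * Real.cos (ω * u) := by
      rw [← intervalIntegral.integral_add_adjacent_intervals (ii cfc hc hcR) (ii cfc hR0 hRS)]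
      have h2 : ∫ u in R..S, f u * Real.cos (ω * u) = 0 := by
        rw [intervalIntegral.integral_congr (g := fun _ => (0 : ℝ))]
        · simp
        · intro u hu
          rw [uIcc_of_le hRS] at hu
          simp only
          rw [hR u hu.1, zero_mul]
      rw [h2, add_zero]
    rw [h1, ← intervalIntegral.integral_add_adjacent_intervals (ii cfc hc hca) (ii cfc ha0 haS), ibp1 a S ha0 haS]
    have hfS : f S = 0 := hR S hRS
    rw [hfS, zero_mul, zero_sub]
    -- first part
    have p1 : |∫ u in c..a, f u * Real.cos (ω * u)| ≤ K * Real.log (1 / (c * ω)) := by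
      have hint : ∫ u in c..a, K * u⁻¹ = K * Real.log (1 / (c * ω)) := by
        rw [intervalIntegral.integral_const_mul, integral_inv_of_pos hc ha0]
        congr 2
        rw [ha]
        field_simp
      rw [← hint, ← Real.norm_eq_abs]
      apply intervalIntegral.norm_integral_le_of_norm_le hca
      · refine ae_of_all _ fun u hu => ?_
        have hu0 : 0 < u := hc.trans hu.1
        have h6 := hf.b0 u hu0
        rw [pow_one] at h6
        rw [Real.norm_eq_abs, abs_mul]
        have h7 := Real.abs_cos_le_one (ω * u)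
        have h8 : |f u| ≤ K * u⁻¹ := by
          rw [← div_eq_mul_inv, le_div_iff₀ hu0]
          exact h6
        calc |f u| * |Real.cos (ω * u)| ≤ |f u| * 1 := mul_le_mul_of_nonneg_left h7 (abs_nonneg _)
          _ ≤ _ := by rw [mul_one]; exact h8
      · apply ii _ hc hca
        apply ContinuousOn.mul continuousOn_const
        apply ContinuousOn.inv₀ (by fun_prop)
        intro u hu
        have hu' : 0 < u := hu
        exact hu'.ne'
    -- the boundary term
    have p2 : |f a * (Real.sin (ω * a) / ω)| ≤ K := by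
      have h6 := hf.b0 a ha0
      rw [pow_one, ha, mul_one_div] at h6
      rw [abs_mul, abs_div, abs_of_pos hω]
      have h7 := Real.abs_sin_le_one (ω * a)
      calc |f a| * (|Real.sin (ω * a)| / ω) ≤ |f a| * (1 / ω) := by
            apply mul_le_mul_of_nonneg_left _ (abs_nonneg _)
            exact div_le_div_of_nonneg_right h7 hω.le
        _ = |f (1 / ω)| / ω := by rw [ha]; ring
        _ ≤ K := h6
    -- the last integral
    have p3 : |∫ u in a..S, f1 u * (Real.sin (ω * u) / ω)| ≤ K := by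
      have hprim : ∀ u : ℝ, 0 < u → HasDerivAt (fun u => -(K / ω * u⁻¹)) (K / ω * (u ^ 2)⁻¹) u := by
        intro u hu
        have h5 := ((hasDerivAt_inv hu.ne').const_mul (K / ω)).neg
        refine h5.congr_deriv ?_
        ring
      have hci : IntervalIntegrable (fun u => K / ω * (u ^ 2)⁻¹) volume a S := by
        apply ii _ ha0 haS
        apply ContinuousOn.mul continuousOn_const
        apply ContinuousOn.inv₀ (by fun_prop)
        intro u hu
        have hu' : 0 < u := hu
        positivity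
      have hint : ∫ u in a..S, K / ω * (u ^ 2)⁻¹ = -(K / ω * S⁻¹) - -(K / ω * a⁻¹) :=
        intervalIntegral.integral_eq_sub_of_hasDerivAt (f := fun u => -(K / ω * u⁻¹))
          (fun u hu => hprim u (hsub ha0 haS hu)) hci
      calc |∫ u in a..S, f1 u * (Real.sin (ω * u) / ω)| ≤ ∫ u in a..S, K / ω * (u ^ 2)⁻¹ := by
            rw [← Real.norm_eq_abs]
            apply intervalIntegral.norm_integral_le_of_norm_le haS
            · refine ae_of_all _ fun u hu => ?_
              have hu0 : 0 < u := ha0.trans hu.1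
              have h6 := hf.b1 u hu0
              rw [Real.norm_eq_abs, abs_mul, abs_div, abs_of_pos hω]
              have h7 := Real.abs_sin_le_one (ω * u)
              have h8 : |f1 u| ≤ K * (u ^ 2)⁻¹ := by
                rw [← div_eq_mul_inv, le_div_iff₀ (by positivity)]
                exact h6
              calc |f1 u| * (|Real.sin (ω * u)| / ω) ≤ K * (u ^ 2)⁻¹ * (1 / ω) := by
                    apply mul_le_mul h8 _ (by positivity) (by positivity)
                    exact div_le_div_of_nonneg_right h7 hω.le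
                _ = _ := by ring
            · exact hci
        _ = -(K / ω * S⁻¹) - -(K / ω * a⁻¹) := hint
        _ ≤ K / ω * a⁻¹ := by
            have : 0 ≤ K / ω * S⁻¹ := by positivity
            linarith
        _ = K := by
            rw [ha]
            field_simp
    have q1 := abs_add_le (∫ u in c..a, f u * Real.cos (ω * u))
      (-(f a * (Real.sin (ω * a) / ω)) - ∫ u in a..S, f1 u * (Real.sin (ω * u) / ω))
    have q2 := abs_sub (-(f a * (Real.sin (ω * a) / ω))) (∫ u in a..S, f1 u * (Real.sin (ω * u) / ω))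
    rw [abs_neg] at q2
    calc _ ≤ _ := q1
      _ ≤ K * Real.log (1 / (c * ω)) + (K + K) := by linarith
      _ = _ := by ring

end Pool.Agent.H26.AH
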