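import Pool.Agent.H68.AH.Defs
import Pool.Agent.H26.AH.Pa
import Pool.Agent.H6.Nice

/-!
# MP_103a5c_AH, block P4, part b: the kernel of the high band
-/

open MeasureTheory Set Filter Topology
open scoped Real Interval ContDiff

namespace Pool.Agent.H26.AH

open Pool.Agent Pool.Agent.H6 Pool.Agent.H67.HF

/-- the cut off functions -/
structure Cut (g : ℝ → ℝ) : Prop where
  nice : Nice g
  zero : ∀ x, 1 / 20 ≤ |x| → g x = 0
  one : ∀ x, |x| ≤ 1 / 40 → g x = 1
  nonneg : ∀ x, 0 ≤ g x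
  le_one : ∀ x, g x ≤ 1

theorem exists_cut : ∃ g, Cut g := by
  obtain ⟨g, h1, h2, h3, h4, h5⟩ := exists_nice_plateau (s := 1 / 40) (s' := 1 / 20) (by norm_num) (by norm_num)
  exact ⟨g, h1, h2, h3, h4, h5⟩

/-- the high band function `χ(u/D) (1 - g(u)) / |u|` -/
noncomputable def hD (χ₁ g : ℝ → ℝ) (D u : ℝ) : ℝ := χ₁ (u / D) * (1 - g u) * |u|⁻¹

variable {χ₁ g : ℝ → ℝ}

theorem hD_even (hχ : Win2 χ₁ 1) (hg : Cut g) (D u : ℝ) : hD χ₁ g D (-u) = hD χ₁ g D u := by
  unfold hD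
  rw [neg_div, hχ.even, hg.nice.even, abs_neg]

theorem hD_supp (hχ : Win2 χ₁ 1) {D : ℝ} (hD0 : 0 < D) (u : ℝ) (hu : D ≤ |u|) : hD χ₁ g D u = 0 := by
  unfold hD
  rw [hχ.supp (u / D), zero_mul, zero_mul]
  rw [abs_div, abs_of_pos hD0, le_div_iff₀ hD0, one_mul]
  exact hu

theorem hD_low (hg : Cut g) (D : ℝ) (u : ℝ) (hu : |u| ≤ 1 / 40) : hD χ₁ g D u = 0 := by
  unfold hD
  rw [hg.one u hu, sub_self, mul_zero, zero_mul]

theorem nice_hD (hχ : Win2 χ₁ 1) (hg : Cut g) {D : ℝ} (hD0 : 0 < D) : Nice (hD χ₁ g D) where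
  smooth := by
    rw [contDiff_iff_contDiffAt]
    intro u
    by_cases hu : u = 0
    · subst hu
      have h1 : hD χ₁ g D =ᶠ[𝓝 0] fun _ => 0 := by
        filter_upwards [Metric.ball_mem_nhds (0 : ℝ) (by norm_num : (0 : ℝ) < 1 / 40)] with v hv
        apply hD_low hg
        rw [Metric.mem_ball, dist_zero_right, Real.norm_eq_abs] at hv
        exact hv.le
      exact contDiffAt_const.congr_of_eventuallyEq h1
    · unfold hD
      apply ContDiffAt.mul
      · apply ContDiffAt.mul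
        · exact (hχ.smooth.comp (contDiff_id.div_const D)).contDiffAt
        · exact contDiffAt_const.sub hg.nice.smooth.contDiffAt
      · exact (contDiffAt_abs hu).inv (abs_ne_zero.2 hu)
  even := hD_even hχ hg D
  supp := ⟨D, hD0, fun u hu => hD_supp hχ hD0 u hu⟩

theorem hD_sy (hχ : Win2 χ₁ 1) (hg : Cut g) : ∃ K : ℝ, 0 < K ∧ ∀ D : ℝ, 0 < D →
    ∃ f1 f2, Sy 1 K (fun u => χ₁ (u / D) * (1 - g u) * u⁻¹) f1 f2 := by
  have hc : HasCompactSupport χ₁ := hasCompactSupport_of_supp (s := 1) hχ.supp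
  obtain ⟨K1, hK1⟩ := sy_dil (contDiff_infty.1 hχ.smooth 2) hc
  obtain ⟨s, _, hs⟩ := hg.nice.supp
  obtain ⟨K2, hK2⟩ := sy_dil (contDiff_infty.1 hg.nice.smooth 2) (hasCompactSupport_of_supp (s := s) hs)
  have h2 := sy_one_sub (hK2 1 one_pos)
  simp only [div_one, one_pow] at h2
  have hK1' := (hK1 1 one_pos).nonneg
  have h2' := h2.nonneg
  refine ⟨4 * (4 * (K1 * (K2 + 1)) * 2) + 1, by positivity, fun D hD0 => ?_⟩
  have h3 := ((hK1 D hD0).mul h2).mul sy_inv
  refine ⟨_, _, ⟨?_, h3.d2, h3.c2, ?_, ?_, ?_⟩⟩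
  · intro u hu
    exact h3.d1 u hu
  · intro u hu
    have := h3.b0 u hu
    simp only [zero_add] at this
    linarith
  · intro u hu
    have := h3.b1 u hu
    linarith
  · intro u hu
    have := h3.b2 u hu
    linarith

theorem cosT_hD (hχ : Win2 χ₁ 1) (hg : Cut g) {D : ℝ} (hD1 : 1 ≤ D) (x : ℝ) :
    cosT (hD χ₁ g D) x = 2 * ∫ u in (1 / 40)..D, (χ₁ (u / D) * (1 - g u) * u⁻¹) * Real.cos (2 * π * |x| * u) := by
  have hD0 : 0 < D := by linarith
  have h1 : ∀ u, hD χ₁ g D u * Real.cos (2 * π * u * x) = (fun v => hD χ₁ g D v * Real.cos (2 * π * |x| * v)) |u| := by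
    intro u
    simp only
    have e1 : hD χ₁ g D |u| = hD χ₁ g D u := by
      rcases abs_choice u with h | h <;> rw [h]
      exact hD_even hχ hg D u
    have e2 : Real.cos (2 * π * |x| * |u|) = Real.cos (2 * π * u * x) := by
      have : 2 * π * |x| * |u| = |2 * π * u * x| := by
        rw [abs_mul, abs_mul, abs_mul, abs_two, abs_of_pos Real.pi_pos]
        ring
      rw [this, Real.cos_abs]
    rw [e1, e2]
  unfold cosT
  simp_rw [h1]
  rw [integral_comp_abs (f := fun v => hD χ₁ g D v * Real.cos (2 * π * |x| * v)), intervalIntegral.integral_of_le (by linarith)]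
  congr 1
  have h2 : ∫ u in Ioc (1 / 40) D, (χ₁ (u / D) * (1 - g u) * u⁻¹) * Real.cos (2 * π * |x| * u) =
      ∫ u in Ioc (1 / 40) D, hD χ₁ g D u * Real.cos (2 * π * |x| * u) := by
    apply setIntegral_congr_fun measurableSet_Ioc
    intro u hu
    have hu0 : 0 < u := lt_trans (by norm_num) hu.1
    simp only [hD, abs_of_pos hu0]
  rw [h2]
  apply setIntegral_eq_of_subset_of_forall_sdiff_eq_zero measurableSet_Ioi
  · intro u hu
    exact lt_trans (by norm_num) hu.1
  · intro u hu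
    have hu0 : 0 < u := hu.1
    have : u ≤ 1 / 40 ∨ D < u := by
      by_contra h
      push Not at h
      exact hu.2 ⟨h.1, h.2⟩
    rcases this with h | h
    · rw [hD_low hg D u (by rw [abs_of_pos hu0]; exact h), zero_mul]
    · rw [hD_supp hχ hD0 u (by rw [abs_of_pos hu0]; exact h.le), zero_mul]

/-- bounds of the kernel, uniformly in `D` -/
theorem cosT_hD_bound (hχ : Win2 χ₁ 1) (hg : Cut g) : ∃ K : ℝ, 0 < K ∧ ∀ D : ℝ, 1 ≤ D → ∀ x : ℝ, x ≠ 0 →
    |cosT (hD χ₁ g D) x| ≤ K / x ^ 2 ∧ (|x| ≤ 1 → |cosT (hD χ₁ g D) x| ≤ K * (1 + Real.log (1 / |x|))) := by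
  obtain ⟨K, hK0, hK⟩ := hD_sy hχ hg
  have hpi := Real.pi_gt_three
  refine ⟨50 * K, by positivity, fun D hD1 x hx => ?_⟩
  have hD0 : 0 < D := by linarith
  have hx0 : 0 < |x| := abs_pos.2 hx
  obtain ⟨f1, f2, hf⟩ := hK D hD0
  have hb := hf.cos_bound (c := 1 / 40) (R := D) (by norm_num) (by linarith) (by
    intro u hu0 hu
    have := hD_low (χ₁ := χ₁) hg D u (by rw [abs_of_pos hu0]; exact hu)
    unfold hD at this
    rwa [abs_of_pos hu0] at this) (by
    intro u hu
    have hu0 : 0 < u := hD0.trans_le hu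
    have := hD_supp (g := g) hχ hD0 u (by rw [abs_of_pos hu0]; exact hu)
    unfold hD at this
    rwa [abs_of_pos hu0] at this) (by positivity : 0 < 2 * π * |x|)
  rw [cosT_hD hχ hg hD1 x, abs_mul, abs_two]
  constructor
  · have h1 := hb.1
    have h2 : K / (2 * (1 / 40) ^ 2 * (2 * π * |x|) ^ 2) ≤ 25 * K / x ^ 2 := by
      rw [div_le_div_iff₀ (by positivity) (by positivity), mul_pow, sq_abs]
      have h3 : 36 ≤ (2 * π) ^ 2 := by nlinarith
      have h4 : 0 < K * x ^ 2 := by positivity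
      nlinarith
    calc 2 * _ ≤ 2 * (25 * K / x ^ 2) := by linarith
      _ = _ := by ring
  · intro hx1
    have h0 : 0 ≤ Real.log (1 / |x|) := Real.log_nonneg (by rw [le_div_iff₀ hx0]; linarith)
    have hpi4 := Real.pi_lt_four
    have h1 := hb.2 (by nlinarith)
    have h2 : Real.log (1 / (1 / 40 * (2 * π * |x|))) ≤ 4 + Real.log (1 / |x|) := by
      have e : 1 / (1 / 40 * (2 * π * |x|)) = (20 / π) * (1 / |x|) := by
        field_simp
        norm_num
      rw [e, Real.log_mul (by positivity) (by positivity)]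
      have h3 : Real.log (20 / π) ≤ 20 / π - 1 := Real.log_le_sub_one_of_pos (by positivity)
      have h4 : Real.log (20 / π) ≤ 4 := by
        have h5 : 20 / π ≤ 7 := by
          rw [div_le_iff₀ (by positivity)]
          linarith
        have h6 : Real.log (20 / π) ≤ Real.log 7 := Real.log_le_log (by positivity) h5
        have h7 : Real.log 7 ≤ 4 := by
          rw [Real.log_le_iff_le_exp (by norm_num)]
          have := Real.add_one_le_exp (4 : ℝ)
          have h8 : Real.exp 4 = Real.exp 2 * Real.exp 2 := by rw [← Real.exp_add]; norm_num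
          have h9 := Real.add_one_le_exp (2 : ℝ)
          nlinarith
        linarith
      linarith
    nlinarith

end Pool.Agent.H26.AH
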