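import Pool.Agent.H26.AH.Pb
import Pool.Agent.H5.AH.Sep
import Pool.Agent.H5.AH.Strip
import Pool.Agent.H98.HF.Nb
import Pool.Agent.H98.HF.Nc

/-!
# MP_103a5c_AH, block P4, part c: the high band
-/

open MeasureTheory Set Filter Topology
open scoped Real Interval ContDiff

namespace Pool.Agent.H26.AH

open Pool.Agent Pool.Agent.H6 Pool.Agent.H14.GP Pool.Agent.H24.HF Pool.Agent.H67.HF Pool.Agent.H68.AH Pool.Agent.H98.HF
  Pool.Agent.H26.GH

theorem sep_sum {ι : Type*} (S : Finset ι) (x : ι → ℝ) (h : ∀ i ∈ S, ∀ j ∈ S, i ≠ j → 1 / 4 ≤ |x i - x j|) :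
    ∑ i ∈ S, (1 + x i ^ 2)⁻¹ ≤ 8 * π := by
  have h1 : ∀ i ∈ S, (1 + x i ^ 2)⁻¹ ≤ 8 * ∫ s in Ioo (x i - 1 / 8) (x i + 1 / 8), (1 + s ^ 2)⁻¹ := by
    intro i _
    have h2 : ∫ _ in Ioo (x i - 1 / 8) (x i + 1 / 8), 1 / 2 * (1 + x i ^ 2)⁻¹ ≤
        ∫ s in Ioo (x i - 1 / 8) (x i + 1 / 8), (1 + s ^ 2)⁻¹ := by
      apply setIntegral_mono_on
      · exact integrableOn_const (measure_Ioo_lt_top).ne
      · exact integrable_inv_one_add_sq.integrableOn
      · exact measurableSet_Ioo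
      · intro s hs
        have h3 : 1 + s ^ 2 ≤ 2 * (1 + x i ^ 2) := by
          have h4 : |s| ≤ |x i| + 1 / 8 := by
            calc |s| = |x i + (s - x i)| := by ring_nf
              _ ≤ |x i| + |s - x i| := abs_add_le _ _
              _ ≤ _ := by
                have : |s - x i| ≤ 1 / 8 := by rw [abs_le]; constructor <;> linarith [hs.1, hs.2]
                linarith
          have h5 : s ^ 2 ≤ (|x i| + 1 / 8) ^ 2 := by
            rw [← sq_abs s]
            exact pow_le_pow_left₀ (abs_nonneg s) h4 2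
          have := sq_abs (x i)
          nlinarith [sq_nonneg (|x i| - 1 / 8)]
        rw [inv_eq_one_div, inv_eq_one_div, div_mul_div_comm, div_le_div_iff₀ (by positivity) (by positivity)]
        linarith
    rw [setIntegral_const, smul_eq_mul, Real.volume_real_Ioo_of_le (by linarith)] at h2
    have h6 : 8 * ((x i + 1 / 8 - (x i - 1 / 8)) * (1 / 2 * (1 + x i ^ 2)⁻¹)) = (1 + x i ^ 2)⁻¹ := by ring
    linarith
  calc ∑ i ∈ S, (1 + x i ^ 2)⁻¹ ≤ ∑ i ∈ S, 8 * ∫ s in Ioo (x i - 1 / 8) (x i + 1 / 8), (1 + s ^ 2)⁻¹ := Finset.sum_le_sum h1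
    _ = 8 * ∑ i ∈ S, ∫ s in Ioo (x i - 1 / 8) (x i + 1 / 8), (1 + s ^ 2)⁻¹ := by rw [Finset.mul_sum]
    _ = 8 * ∫ s in ⋃ i ∈ S, Ioo (x i - 1 / 8) (x i + 1 / 8), (1 + s ^ 2)⁻¹ := by
        rw [integral_biUnion_finset]
        · intro i _
          exact measurableSet_Ioo
        · intro i hi j hj hij
          rw [Function.onFun, Set.disjoint_left]
          intro s hs1 hs2
          have h7 := h i hi j hj hij
          have h8 : |x i - x j| < 1 / 4 := by
            rw [abs_lt]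
            constructor <;> linarith [hs1.1, hs1.2, hs2.1, hs2.2]
          linarith
        · intro i _
          exact integrable_inv_one_add_sq.integrableOn
    _ ≤ 8 * ∫ s, (1 + s ^ 2)⁻¹ := by
        apply mul_le_mul_of_nonneg_left _ (by norm_num)
        exact setIntegral_le_integral integrable_inv_one_add_sq (ae_of_all _ fun s => by positivity)
    _ = _ := by rw [integral_univ_inv_one_add_sq]

/-- the explicit formula for a nice function which vanishes at `0` -/
theorem explicit_rare (RH : RiemannHypothesis) {h : ℝ → ℝ} (hh : Nice h) {s : ℝ} (hs : 0 < s) (hz : ∀ u, s ≤ |u| → h u = 0)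
    (h0 : h 0 = 0) {α β : ℝ} (hα : 0 < α) (hαβ : α < β) {ε p : ℝ} (hε : 0 < ε) (hp : 0 < p) :
    Rare atTop α β p (fun T => {t | ε < |SS gZ wZ (cosT h) (Real.log T) t + 2 * CPs s (fun x => x * h x) (Real.log T) t|}) := by
  obtain ⟨CR, I⟩ := exists_inputs RH
  obtain ⟨a, ha, hP⟩ := Pool.Agent.H98.HF.zeta_poisson RH
  obtain ⟨v, hv, hv1⟩ := Pool.Agent.H5.AH.wgt_ge hα hαβ
  have h1 := Pool.Agent.H98.HF.delta_long I ha hP hh hα hαβ (half_pos hε)
  have h2 := pp_mean I.prime hv hh hs hz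
  have hcont : ∀ᶠ T in atTop, Continuous (fun t => (WW (cosT h) (Real.log T) t - 2 * CPs s (fun x => x * h x) (Real.log T) t) ^ 2) := by
    filter_upwards [Real.tendsto_log_atTop.eventually_gt_atTop 0] with T hL
    have c1 : Continuous (WW (cosT h) (Real.log T)) := continuous_WW (hh.reg hz).test hL
    have c2 := Nd_cont_CPs s (fun x => x * h x) (Real.log T)
    exact (c1.sub (continuous_const.mul c2)).pow 2
  have h3 := Pool.Agent.H5.AH.rare_of_EE hv hv1 hcont (fun T t => sq_nonneg _) h2 (c := (ε / 2) ^ 2) (p := p)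
    (by positivity) hp
  refine Pool.Agent.H5.AH.rare_mono h3 ?_
  filter_upwards [h1] with T hT t ht hmem
  have h4 := hT t ht
  rw [h0, zero_sub, sub_neg_eq_add] at h4
  by_contra hcon
  have h5 : (WW (cosT h) (Real.log T) t - 2 * CPs s (fun x => x * h x) (Real.log T) t) ^ 2 ≤ (ε / 2) ^ 2 := not_lt.1 hcon
  have h6 := abs_le_of_sq_le_sq h5 (by positivity)
  have h7 : ε < |SS gZ wZ (cosT h) (Real.log T) t + 2 * CPs s (fun x => x * h x) (Real.log T) t| := hmem
  have h8 := abs_sub (SS gZ wZ (cosT h) (Real.log T) t + WW (cosT h) (Real.log T) t)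
    (WW (cosT h) (Real.log T) t - 2 * CPs s (fun x => x * h x) (Real.log T) t)
  have e : SS gZ wZ (cosT h) (Real.log T) t + WW (cosT h) (Real.log T) t -
    (WW (cosT h) (Real.log T) t - 2 * CPs s (fun x => x * h x) (Real.log T) t) =
    SS gZ wZ (cosT h) (Real.log T) t + 2 * CPs s (fun x => x * h x) (Real.log T) t := by ring
  rw [e] at h8
  linarith

/-- the sum over the zeros in `(0, T]` -/
theorem sin_bound {J : ℝ → ℝ} {K : ℝ} (hK : 0 < K) (hJ : ∀ x : ℝ, x ≠ 0 → |J x| ≤ K / x ^ 2 ∧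
    (|x| ≤ 1 → |J x| ≤ K * (1 + Real.log (1 / |x|)))) {Q η L t : ℝ} (hη : 0 < η) (hη1 : η ≤ 1) (hQ : 1 ≤ Q) (F : Finset PC.Z)
    (hS : Sep gZ wZ (1 / 4) Q L t) (hz : ∀ i ∈ F, η ≤ |xx gZ L t i|) :
    |Sin gZ wZ F J L t| ≤ 2 * K * (1 + Real.log (1 / η)) * (8 * π) +
      K * ∑ i ∈ F, wZ i * (2 / Q ^ 2 * (1 + (xx gZ L t i / Q) ^ 2)⁻¹) := by
  classical
  have hlog : 0 ≤ Real.log (1 / η) := Real.log_nonneg (by rw [le_div_iff₀ hη]; linarith)
  set N := F.filter (fun i => |xx gZ L t i| ≤ Q) with hN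
  have h1 : ∀ i ∈ F, |wZ i * J (L * (t - gZ i) / (2 * π))| ≤
      (if |xx gZ L t i| ≤ Q then 2 * K * (1 + Real.log (1 / η)) * (1 + xx gZ L t i ^ 2)⁻¹ else 0) +
      K * (wZ i * (2 / Q ^ 2 * (1 + (xx gZ L t i / Q) ^ 2)⁻¹)) := by
    intro i hi
    have hx : η ≤ |xx gZ L t i| := hz i hi
    set x := xx gZ L t i with hx_def
    have hx_eq : L * (t - gZ i) / (2 * π) = x := rfl
    rw [hx_eq, abs_mul, abs_of_nonneg (wZ_nonneg i)]
    have hx0 : 0 < |x| := hη.trans_le hx
    have hx0' : x ≠ 0 := abs_pos.1 hx0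
    have hx2 : 0 < x ^ 2 := by positivity
    have hw0 := wZ_nonneg i
    have hnn : 0 ≤ K * (wZ i * (2 / Q ^ 2 * (1 + (x / Q) ^ 2)⁻¹)) := by positivity
    split_ifs with hxQ
    · have hw1 : wZ i ≤ 1 := hS.simple i hxQ
      have h2 : |J x| ≤ 2 * K * (1 + Real.log (1 / η)) * (1 + x ^ 2)⁻¹ := by
        rw [← div_eq_mul_inv, le_div_iff₀ (by positivity)]
        by_cases hx1 : |x| ≤ 1
        · have h3 := (hJ x hx0').2 hx1
          have h4 : Real.log (1 / |x|) ≤ Real.log (1 / η) :=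
            Real.log_le_log (by positivity) (one_div_le_one_div_of_le hη hx)
          have h5 : x ^ 2 ≤ 1 := by
            rw [← sq_abs]
            exact pow_le_one₀ (abs_nonneg _) hx1
          have h6 : |J x| ≤ K * (1 + Real.log (1 / η)) := h3.trans (mul_le_mul_of_nonneg_left (by linarith) hK.le)
          calc |J x| * (1 + x ^ 2) ≤ K * (1 + Real.log (1 / η)) * 2 :=
                mul_le_mul h6 (by linarith) (by positivity) (by positivity)
            _ = _ := by ring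
        · push Not at hx1
          have h3 := (hJ x hx0').1
          have h5 : 1 ≤ x ^ 2 := by
            rw [← sq_abs]
            exact one_le_pow₀ hx1.le
          calc |J x| * (1 + x ^ 2) ≤ K / x ^ 2 * (1 + x ^ 2) := mul_le_mul_of_nonneg_right h3 (by positivity)
            _ = K * ((1 + x ^ 2) / x ^ 2) := by ring
            _ ≤ K * 2 := by
                apply mul_le_mul_of_nonneg_left _ hK.le
                rw [div_le_iff₀ hx2]
                linarith
            _ ≤ _ := by nlinarith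
      have h3 : wZ i * |J x| ≤ 1 * (2 * K * (1 + Real.log (1 / η)) * (1 + x ^ 2)⁻¹) :=
        mul_le_mul hw1 h2 (abs_nonneg _) zero_le_one
      linarith
    · push Not at hxQ
      rw [zero_add]
      have h3 := (hJ x hx0').1
      have h4 : K / x ^ 2 ≤ K * (2 / Q ^ 2 * (1 + (x / Q) ^ 2)⁻¹) := by
        rw [div_eq_mul_inv]
        apply mul_le_mul_of_nonneg_left _ hK.le
        have hQ2 : Q ^ 2 ≤ x ^ 2 := by
          rw [← sq_abs x]
          exact pow_le_pow_left₀ (by linarith) hxQ.le 2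
        have e : 2 / Q ^ 2 * (1 + (x / Q) ^ 2)⁻¹ = 2 / (Q ^ 2 + x ^ 2) := by
          have : Q ≠ 0 := by linarith
          field_simp
        rw [e, inv_eq_one_div, div_le_div_iff₀ hx2 (by positivity)]
        linarith
      calc wZ i * |J x| ≤ wZ i * (K * (2 / Q ^ 2 * (1 + (x / Q) ^ 2)⁻¹)) :=
            mul_le_mul_of_nonneg_left (h3.trans h4) hw0
        _ = _ := by ring
  have h2 : |Sin gZ wZ F J L t| ≤ ∑ i ∈ F, |wZ i * J (L * (t - gZ i) / (2 * π))| := Finset.abs_sum_le_sum_abs _ _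
  refine h2.trans ((Finset.sum_le_sum h1).trans ?_)
  rw [Finset.sum_add_distrib, ← Finset.mul_sum, ← Finset.sum_filter, ← Finset.mul_sum]
  have h3 := sep_sum N (xx gZ L t) (by
    intro i hi j hj hij
    rw [hN, Finset.mem_filter] at hi hj
    exact hS.sep i j hij hi.2 hj.2)
  have h4 : 2 * K * (1 + Real.log (1 / η)) * ∑ i ∈ N, (1 + xx gZ L t i ^ 2)⁻¹ ≤ 2 * K * (1 + Real.log (1 / η)) * (8 * π) :=
    mul_le_mul_of_nonneg_left h3 (by positivity)
  linarith

end Pool.Agent.H26.AH
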