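import Pool.Agent.H26.AH.Pc

/-!
# MP_103a5c_AH, block P4, part d: the exceptional sets for the high band
-/

open MeasureTheory Set Filter Topology
open scoped Real Interval ContDiff

namespace Pool.Agent.H26.AH

open Pool.Agent Pool.Agent.H6 Pool.Agent.H14.GP Pool.Agent.H24.HF Pool.Agent.H67.HF Pool.Agent.H68.AH Pool.Agent.H98.HF
  Pool.Agent.H26.GH

/-- number of zeros up to `T` -/
theorem card_le (RH : RiemannHypothesis) : ∀ᶠ T in atTop, ∑ i ∈ FZ T, wZ i ≤ T * Real.log T / π := by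
  obtain ⟨CR, I⟩ := exists_inputs RH
  have hcnt := (I.count).eventually (gt_mem_nhds (show (1 : ℝ) < 2 by norm_num))
  filter_upwards [hcnt, eventually_gt_atTop (1 : ℝ)] with T hct hT
  have hL : 0 < Real.log T := Real.log_pos hT
  have hnorm : 0 < PC.norm T := by unfold PC.norm; positivity
  have h3 : 1 / PC.norm T * ∑ i ∈ FZ T, wZ i < 2 := hct
  rw [one_div, inv_mul_lt_iff₀ hnorm] at h3
  refine h3.le.trans (le_of_eq ?_)
  unfold PC.norm
  field_simp

/-- for most `t` there is no zero very near -/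
theorem no_zero_rare (RH : RiemannHypothesis) {α β : ℝ} {η : ℝ} (hη : 0 < η) :
    Rare atTop α β (4 * η) (fun T => {t | ∃ i ∈ FZ T, |xx gZ (Real.log T) t i| < η}) := by
  filter_upwards [card_le RH, eventually_gt_atTop (1 : ℝ)] with T hT hT1
  have hL : 0 < Real.log T := Real.log_pos hT1
  have hpi := Real.pi_pos
  set L := Real.log T with hLdef
  have hsub : {t | ∃ i ∈ FZ T, |xx gZ L t i| < η} ∩ Icc (α * T) (β * T) ⊆
      ⋃ i ∈ FZ T, Icc (gZ i - 2 * π * η / L) (gZ i + 2 * π * η / L) := by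
    rintro t ⟨⟨i, hi, ht⟩, -⟩
    rw [mem_iUnion₂]
    refine ⟨i, hi, ?_⟩
    unfold xx at ht
    rw [abs_lt, div_lt_iff₀ (by positivity), lt_div_iff₀ (by positivity)] at ht
    constructor
    · have : gZ i - t ≤ 2 * π * η / L := by
        rw [le_div_iff₀ hL]
        nlinarith [ht.1]
      linarith
    · have : t - gZ i ≤ 2 * π * η / L := by
        rw [le_div_iff₀ hL]
        nlinarith [ht.2]
      linarith
  have hfin : volume (⋃ i ∈ FZ T, Icc (gZ i - 2 * π * η / L) (gZ i + 2 * π * η / L)) ≠ ⊤ := by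
    refine ne_of_lt ((measure_biUnion_finset_le _ _).trans_lt ?_)
    exact ENNReal.sum_lt_top.2 fun i _ => measure_Icc_lt_top
  have h1 := measureReal_mono hsub hfin
  refine h1.trans ((measureReal_biUnion_finset_le _ _).trans ?_)
  have h2 : ∀ i ∈ FZ T, volume.real (Icc (gZ i - 2 * π * η / L) (gZ i + 2 * π * η / L)) ≤ wZ i * (4 * π * η / L) := by
    intro i _
    have h3 := one_le_wZ i
    have h4 : 0 < 4 * π * η / L := by positivity
    rw [Real.volume_real_Icc_of_le (by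
      have : 0 < 2 * π * η / L := by positivity
      linarith)]
    have e : gZ i + 2 * π * η / L - (gZ i - 2 * π * η / L) = 4 * π * η / L := by ring
    rw [e]
    nlinarith
  refine (Finset.sum_le_sum h2).trans ?_
  rw [← Finset.sum_mul]
  calc (∑ i ∈ FZ T, wZ i) * (4 * π * η / L) ≤ (T * L / π) * (4 * π * η / L) :=
        mul_le_mul_of_nonneg_right hT (by positivity)
    _ = 4 * η * T := by field_simp

/-- the tail of the sum over the zeros -/
theorem tail_rare (RH : RiemannHypothesis) {α β : ℝ} {Q : ℝ} (hQ : 1 ≤ Q) :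
    Rare atTop α β (16 * π / Q) (fun T => {t | 1 ≤ ∑ i ∈ FZ T, wZ i * (2 / Q ^ 2 * (1 + (xx gZ (Real.log T) t i / Q) ^ 2)⁻¹)}) := by
  filter_upwards [card_le RH, eventually_gt_atTop (1 : ℝ)] with T hT hT1
  have hL : 0 < Real.log T := Real.log_pos hT1
  have hpi := Real.pi_pos
  have hQ0 : 0 < Q := by linarith
  have hT0 : 0 < T := by linarith
  set L := Real.log T with hLdef
  have hc : 0 < L / (2 * π * Q) := by positivity
  have hterm : ∀ i : PC.Z, Integrable (fun t => 2 / Q ^ 2 * (1 + (xx gZ L t i / Q) ^ 2)⁻¹) ∧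
      ∫ t, 2 / Q ^ 2 * (1 + (xx gZ L t i / Q) ^ 2)⁻¹ = 4 * π ^ 2 / (Q * L) := by
    intro i
    have k1 := Pool.Agent.H5.AH.int_cauchy hc (L / (2 * π * Q) * gZ i)
    have e : (fun t => 2 / Q ^ 2 * (1 + (xx gZ L t i / Q) ^ 2)⁻¹) = fun t =>
        2 / Q ^ 2 * (1 + (L / (2 * π * Q) * t - L / (2 * π * Q) * gZ i) ^ 2)⁻¹ := by
      funext t
      unfold xx
      congr 4
      field_simp
    rw [e]
    refine ⟨k1.1.const_mul _, ?_⟩
    rw [integral_const_mul, k1.2]
    field_simp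
    ring
  set G : ℝ → ℝ := fun t => ∑ i ∈ FZ T, wZ i * (2 / Q ^ 2 * (1 + (xx gZ L t i / Q) ^ 2)⁻¹) with hG
  have hG0 : ∀ t, 0 ≤ G t := fun t => Finset.sum_nonneg fun i _ => mul_nonneg (wZ_nonneg i) (by positivity)
  have hGi : Integrable G := integrable_finsetSum _ fun i _ => (hterm i).1.const_mul _
  have hGint : ∫ t, G t = (∑ i ∈ FZ T, wZ i) * (4 * π ^ 2 / (Q * L)) := by
    rw [hG, integral_finsetSum _ fun i _ => (hterm i).1.const_mul _, Finset.sum_mul]
    refine Finset.sum_congr rfl fun i _ => ?_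
    rw [integral_const_mul, (hterm i).2]
  have hmk : 1 * volume.real {t | 1 ≤ G t} ≤ ∫ t, G t :=
    mul_meas_ge_le_integral_of_nonneg (ae_of_all _ hG0) hGi 1
  have hfin : volume {t | 1 ≤ G t} ≠ ⊤ := by
    have := hGi.measure_norm_ge_lt_top one_pos
    refine ne_top_of_le_ne_top this.ne (measure_mono fun t ht => ?_)
    show 1 ≤ ‖G t‖
    rw [Real.norm_eq_abs, abs_of_nonneg (hG0 t)]
    exact ht
  refine (measureReal_mono inter_subset_left hfin).trans ?_
  rw [one_mul, hGint] at hmk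
  refine hmk.trans ?_
  calc (∑ i ∈ FZ T, wZ i) * (4 * π ^ 2 / (Q * L)) ≤ (T * L / π) * (4 * π ^ 2 / (Q * L)) :=
        mul_le_mul_of_nonneg_right hT (by positivity)
    _ = 4 * π / Q * T := by field_simp
    _ ≤ 16 * π / Q * T := by
        apply mul_le_mul_of_nonneg_right _ hT0.le
        apply div_le_div_of_nonneg_right _ hQ0.le
        linarith

/-- zeros outside `(0, T]` -/
theorem out_small (RH : RiemannHypothesis) {J : ℝ → ℝ} (hJ : ∃ C, 0 ≤ C ∧ ∀ u, |J u| ≤ C / (1 + u ^ 2) ^ 2) {α β : ℝ}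
    (hα : 0 < α) (hβ : β < 1) : ∀ᶠ T in atTop, ∀ t ∈ Icc (α * T) (β * T),
      |SS gZ wZ J (Real.log T) t - Sin gZ wZ (FZ T) J (Real.log T) t| ≤ 1 := by
  obtain ⟨CR, I⟩ := exists_inputs RH
  obtain ⟨C, hC0, hC⟩ := hJ
  have hCR := I.ord.CR_nonneg
  have hm : 0 < min α (1 - β) := lt_min hα (by linarith)
  filter_upwards [eventually_ge_atTop (4 * C * CR / min α (1 - β) ^ 2), eventually_ge_atTop (1 : ℝ),
    Real.tendsto_log_atTop.eventually_ge_atTop (2 * π)] with T hT hT1 hL2 t ht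
  have hT0 : 0 < T := by linarith
  set L := Real.log T with hLdef
  have htI : t ∈ Icc 0 T := ⟨by nlinarith [ht.1], by nlinarith [ht.2]⟩
  have h6 := I.ord.abs_Sout_le_edge hC0 hC hL2 htI
  have hm1 : min α (1 - β) * T ≤ T - t := by
    have : min α (1 - β) ≤ 1 - β := min_le_right _ _
    nlinarith [ht.2]
  have hm2 : min α (1 - β) * T ≤ t := by
    have : min α (1 - β) ≤ α := min_le_left _ _
    nlinarith [ht.1]
  have hm0 : 0 ≤ min α (1 - β) * T := mul_nonneg hm.le hT0.le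
  have i1 : (1 + (T - t) ^ 2)⁻¹ ≤ (1 + (min α (1 - β) * T) ^ 2)⁻¹ := by
    apply inv_anti₀ (by positivity)
    have := pow_le_pow_left₀ hm0 hm1 2
    linarith
  have i2 : (1 + (0 - t) ^ 2)⁻¹ ≤ (1 + (min α (1 - β) * T) ^ 2)⁻¹ := by
    apply inv_anti₀ (by positivity)
    have := pow_le_pow_left₀ hm0 hm2 2
    have e : (0 - t) ^ 2 = t ^ 2 := by ring
    rw [e]
    linarith
  have r1 := I.ord.RR_T_le hT0.le
  have r2 := I.ord.RR_0_le hT0.le
  have r3 := I.ord.RR_nonneg T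
  have r4 := I.ord.RR_nonneg 0
  have j1 : RR gZ wZ T * (1 + (T - t) ^ 2)⁻¹ ≤ (CR * (1 + T) ^ (1 / 4 : ℝ)) * (1 + (min α (1 - β) * T) ^ 2)⁻¹ :=
    mul_le_mul r1 i1 (by positivity) (r3.trans r1)
  have j2 : RR gZ wZ 0 * (1 + (0 - t) ^ 2)⁻¹ ≤ (CR * (1 + T) ^ (1 / 4 : ℝ)) * (1 + (min α (1 - β) * T) ^ 2)⁻¹ :=
    mul_le_mul r2 i2 (by positivity) (r4.trans r2)
  have h3 : (1 + T) ^ (1 / 4 : ℝ) ≤ 2 * T := by
    calc (1 + T) ^ (1 / 4 : ℝ) ≤ (1 + T) ^ (1 : ℝ) :=
          Real.rpow_le_rpow_of_exponent_le (by linarith) (by norm_num)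
      _ = 1 + T := Real.rpow_one _
      _ ≤ 2 * T := by linarith
  have h4 : (1 + (min α (1 - β) * T) ^ 2)⁻¹ ≤ ((min α (1 - β) * T) ^ 2)⁻¹ := by
    apply inv_anti₀ (by positivity)
    linarith
  refine h6.trans ?_
  calc C * (RR gZ wZ T * (1 + (T - t) ^ 2)⁻¹ + RR gZ wZ 0 * (1 + (0 - t) ^ 2)⁻¹)
      ≤ C * (2 * ((CR * (2 * T)) * ((min α (1 - β) * T) ^ 2)⁻¹)) := by
        apply mul_le_mul_of_nonneg_left _ hC0
        have h5 : (CR * (1 + T) ^ (1 / 4 : ℝ)) * (1 + (min α (1 - β) * T) ^ 2)⁻¹ ≤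
            (CR * (2 * T)) * ((min α (1 - β) * T) ^ 2)⁻¹ := by
          apply mul_le_mul _ h4 (by positivity) (by positivity)
          exact mul_le_mul_of_nonneg_left h3 hCR
        linarith
    _ = (4 * C * CR / min α (1 - β) ^ 2) / T := by
        field_simp
        ring
    _ ≤ 1 := by
        rw [div_le_one hT0]
        exact hT

end Pool.Agent.H26.AH
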