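import Pool.Agent.H26.AH.Pd

/-!
# MP_103a5c_AH, block P4, part e: the tails of the high band
-/

open MeasureTheory Set Filter Topology
open scoped Real Interval ContDiff

namespace Pool.Agent.H26.AH

open Pool.Agent Pool.Agent.H6 Pool.Agent.H14.GP Pool.Agent.H24.HF Pool.Agent.H67.HF Pool.Agent.H68.AH Pool.Agent.H98.HF
  Pool.Agent.H26.GH

theorem eta_bound {A Λ : ℝ} (hA : 0 < A) (hΛ : 0 < Λ) :
    4 * Real.exp (1 - Λ / A) ≤ (12 * Real.exp 1 * ((Nat.factorial 16 : ℕ) : ℝ) * A ^ 16 + A ^ 16) / Λ ^ 16 / 2 := by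
  obtain ⟨n, hn⟩ : ∃ n : ℝ, n = ((Nat.factorial 16 : ℕ) : ℝ) := ⟨_, rfl⟩
  have hn0 : 0 < n := by rw [hn]; exact_mod_cast Nat.factorial_pos 16
  have h1 := Real.pow_div_factorial_le_exp (Λ / A) (by positivity) 16
  rw [← hn] at h1 ⊢
  rw [div_le_iff₀ hn0, div_pow, div_le_iff₀ (by positivity)] at h1
  have h2 : Real.exp (1 - Λ / A) = Real.exp 1 * (Real.exp (Λ / A))⁻¹ := by
    rw [sub_eq_add_neg, Real.exp_add, Real.exp_neg]
  have h3 : (Real.exp (Λ / A))⁻¹ ≤ n * A ^ 16 / Λ ^ 16 := by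
    rw [inv_le_comm₀ (Real.exp_pos _) (by positivity), inv_div, div_le_iff₀ (by positivity)]
    calc Λ ^ 16 ≤ _ := h1
      _ = _ := by ring
  rw [h2]
  calc 4 * (Real.exp 1 * (Real.exp (Λ / A))⁻¹) ≤ 4 * (Real.exp 1 * (n * A ^ 16 / Λ ^ 16)) := by
        apply mul_le_mul_of_nonneg_left _ (by norm_num)
        exact mul_le_mul_of_nonneg_left h3 (Real.exp_pos _).le
    _ = (4 * (Real.exp 1 * n * A ^ 16)) / Λ ^ 16 := by ring
    _ ≤ ((12 * Real.exp 1 * n * A ^ 16 + A ^ 16) / 2) / Λ ^ 16 := by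
        apply div_le_div_of_nonneg_right _ (by positivity)
        have h4 : 0 < Real.exp 1 * n * A ^ 16 := by positivity
        have h5 : 0 < A ^ 16 := by positivity
        have e : 12 * Real.exp 1 * n * A ^ 16 = 12 * (Real.exp 1 * n * A ^ 16) := by ring
        rw [e]
        linarith
    _ = _ := by ring

/-- the high band of `Rr` has exponentially small tails -/
theorem high_rare (RH : RiemannHypothesis) {χ₁ g : ℝ → ℝ} (hχ : Win2 χ₁ 1) (hg : Cut g) : ∃ K' : ℝ, 0 < K' ∧
    ∀ D : ℝ, 1 ≤ D → ∀ FF : Filter ℝ, Hyp FF → ∀ α β : ℝ, 0 < α → α < β → β < 1 → ∀ Λ : ℝ, 0 < Λ →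
      Rare FF α β (K' / Λ ^ 16) (fun T => {t | Λ < |CPs D (fun x => χ₁ (x / D) * (1 - g x)) (Real.log T) t|}) := by
  obtain ⟨K, hK0, hK⟩ := cosT_hD_bound hχ hg
  have hpi := Real.pi_pos
  set A := 8 * π * K + K + 2 with hA
  have hA0 : 0 < A := by positivity
  have hA1 : 1 ≤ A := by
    have : 0 < 8 * π * K + K := by positivity
    linarith
  obtain ⟨K', hK'1, hK'2⟩ : ∃ K' : ℝ, A ^ 16 ≤ K' ∧ ∀ Λ, 0 < Λ → 4 * Real.exp (1 - Λ / A) ≤ K' / Λ ^ 16 / 2 := by
    refine ⟨_, ?_, fun Λ hΛ => eta_bound hA0 hΛ⟩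
    have h1 : (0 : ℝ) ≤ ((Nat.factorial 16 : ℕ) : ℝ) := Nat.cast_nonneg _
    have h2 : 0 ≤ 12 * Real.exp 1 * ((Nat.factorial 16 : ℕ) : ℝ) * A ^ 16 :=
      mul_nonneg (mul_nonneg (by positivity) h1) (by positivity)
    linarith
  have hK'0 : 0 < K' := (by positivity : 0 < A ^ 16).trans_le hK'1
  refine ⟨K', hK'0, fun D hD1 FF hF α β hα hαβ hβ Λ hΛ => ?_⟩
  have hD0 : 0 < D := by linarith
  rcases le_or_gt Λ A with hΛA | hΛA
  · -- trivial
    have h1 : 1 ≤ K' / Λ ^ 16 := by
      rw [le_div_iff₀ (by positivity), one_mul]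
      exact (pow_le_pow_left₀ hΛ.le hΛA 16).trans hK'1
    filter_upwards [(eventually_gt_atTop (0 : ℝ)).filter_mono hF.le] with T hT
    have hle : α * T ≤ β * T := mul_le_mul_of_nonneg_right hαβ.le hT.le
    have h2 : volume.real ({t | Λ < |CPs D (fun x => χ₁ (x / D) * (1 - g x)) (Real.log T) t|} ∩ Icc (α * T) (β * T)) ≤
        volume.real (Icc (α * T) (β * T)) := measureReal_mono inter_subset_right (measure_Icc_lt_top).ne
    rw [Real.volume_real_Icc_of_le hle] at h2
    have h3 : T ≤ K' / Λ ^ 16 * T := by nlinarith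
    nlinarith
  · set p := K' / Λ ^ 16 with hp
    have hp0 : 0 < p := by positivity
    set η := Real.exp (1 - Λ / A) with hη
    have hη0 : 0 < η := Real.exp_pos _
    have hη1 : η ≤ 1 := by
      rw [hη, Real.exp_le_one_iff]
      have : 1 ≤ Λ / A := by rw [le_div_iff₀ hA0]; linarith
      linarith
    have hlogη : Real.log (1 / η) = Λ / A - 1 := by
      rw [one_div, Real.log_inv, hη, Real.log_exp]
      ring
    have h4η : 4 * η ≤ p / 2 := hK'2 Λ hΛ
    set Q := max 1 (16 * π / (p / 6)) with hQ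
    have hQ1 : 1 ≤ Q := le_max_left _ _
    have hQ0 : 0 < Q := by linarith
    have hQp : 16 * π / Q ≤ p / 6 := by
      rw [div_le_iff₀ hQ0]
      have : 16 * π / (p / 6) ≤ Q := le_max_right _ _
      rw [div_le_iff₀ (by positivity)] at this
      linarith
    have R1 := (explicit_rare RH (nice_hD hχ hg hD0) hD0 (fun u hu => hD_supp hχ hD0 u hu)
      (hD_low hg D 0 (by rw [abs_zero]; norm_num)) hα hαβ one_pos (by positivity : 0 < p / 6)).filter_mono hF.le
    have R2 := Pool.Agent.H5.AH.rare_sep RH hF (b := 1 / 4) (Q := Q) (by norm_num) (by norm_num) hQ0 hα hβ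
      (by positivity : 0 < p / 6)
    have R3 := (no_zero_rare RH (α := α) (β := β) hη0).filter_mono hF.le
    have R4 := (tail_rare RH (α := α) (β := β) hQ1).filter_mono hF.le
    have R5 := Pool.Agent.H5.AH.rare_union (Pool.Agent.H5.AH.rare_union R1 R2) (Pool.Agent.H5.AH.rare_union R3 R4)
    obtain ⟨s, hs0, htest⟩ := (nice_hD hχ hg hD0).cosT_test
    have hout := (out_small RH htest.decay hα hβ).filter_mono hF.le
    have R6 : Rare FF α β (p / 6 + p / 6 + (4 * η + 16 * π / Q))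
        (fun T => {t | Λ < |CPs D (fun x => χ₁ (x / D) * (1 - g x)) (Real.log T) t|}) := by
      refine Pool.Agent.H5.AH.rare_mono R5 ?_
      filter_upwards [hout, (Real.tendsto_log_atTop.eventually_gt_atTop 0).filter_mono hF.le] with T hT hL t ht hmem
      by_contra hcon
      simp only [mem_union, not_or] at hcon
      obtain ⟨⟨c1, c2⟩, c3, c4⟩ := hcon
      have d1 : |SS gZ wZ (cosT (hD χ₁ g D)) (Real.log T) t + 2 * CPs D (fun x => x * hD χ₁ g D x) (Real.log T) t| ≤ 1 :=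
        not_lt.1 c1
      have d2 : Sep gZ wZ (1 / 4) Q (Real.log T) t := not_not.1 c2
      have d3 : ∀ i ∈ FZ T, η ≤ |xx gZ (Real.log T) t i| := by
        intro i hi
        by_contra h
        exact c3 ⟨i, hi, not_le.1 h⟩
      have d4 : ∑ i ∈ FZ T, wZ i * (2 / Q ^ 2 * (1 + (xx gZ (Real.log T) t i / Q) ^ 2)⁻¹) < 1 := not_le.1 c4
      have d5 := sin_bound hK0 (hK D hD1) hη0 hη1 hQ1 (FZ T) d2 d3
      have d6 := hT t ht
      have e1 : CPs D (fun x => x * hD χ₁ g D x) (Real.log T) t = CPs D (fun x => χ₁ (x / D) * (1 - g x)) (Real.log T) t := by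
        unfold CPs
        refine Finset.sum_congr rfl fun q hq => ?_
        unfold Pool.Agent.H98.GP.PS at hq
        rw [Finset.mem_filter, Finset.mem_Icc] at hq
        have hq2 : (1 : ℝ) < (q : ℝ) := by
          have : (2 : ℝ) ≤ (q : ℝ) := by exact_mod_cast hq.1.1
          linarith
        have hx : 0 < Real.log q / Real.log T := div_pos (Real.log_pos hq2) hL
        have e3 : Real.log q / Real.log T * hD χ₁ g D (Real.log q / Real.log T) =
            χ₁ (Real.log q / Real.log T / D) * (1 - g (Real.log q / Real.log T)) := by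
          unfold hD
          rw [abs_of_pos hx, mul_comm, mul_assoc, inv_mul_cancel₀ hx.ne', mul_one]
        dsimp only
        rw [e3]
      rw [e1] at d1
      have d7 : Λ < |CPs D (fun x => χ₁ (x / D) * (1 - g x)) (Real.log T) t| := hmem
      rw [hlogη] at d5
      set P := CPs D (fun x => χ₁ (x / D) * (1 - g x)) (Real.log T) t with hP
      set S := SS gZ wZ (cosT (hD χ₁ g D)) (Real.log T) t with hS
      set S' := Sin gZ wZ (FZ T) (cosT (hD χ₁ g D)) (Real.log T) t with hS'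
      have d8 : |2 * P| ≤ |S + 2 * P| + |S - S'| + |S'| := by
        have e2 : 2 * P = (S + 2 * P) - (S - S') - S' := by ring
        calc |2 * P| = |(S + 2 * P) - (S - S') - S'| := by rw [← e2]
          _ ≤ |(S + 2 * P) - (S - S')| + |S'| := abs_sub _ _
          _ ≤ _ := by
            have := abs_sub (S + 2 * P) (S - S')
            linarith
      rw [abs_mul, abs_two] at d8
      have d9 : K * ∑ i ∈ FZ T, wZ i * (2 / Q ^ 2 * (1 + (xx gZ (Real.log T) t i / Q) ^ 2)⁻¹) ≤ K * 1 :=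
        mul_le_mul_of_nonneg_left d4.le hK0.le
      have d10 : 2 * |P| ≤ 2 + K + 2 * K * (Λ / A) * (8 * π) := by
        have : 2 * K * (1 + (Λ / A - 1)) * (8 * π) = 2 * K * (Λ / A) * (8 * π) := by ring
        linarith
      have d11 : 1 ≤ Λ / A := by rw [le_div_iff₀ hA0]; linarith
      have d12 : 2 * |P| ≤ 2 * A * (Λ / A) := by
        rw [hA]
        have hpos : 0 < K := hK0
        nlinarith
      have d13 : 2 * A * (Λ / A) = 2 * Λ := by field_simp
      linarith
    filter_upwards [R6, (eventually_gt_atTop (0 : ℝ)).filter_mono hF.le] with T hT hT0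
    refine hT.trans (mul_le_mul_of_nonneg_right ?_ hT0.le)
    linarith

end Pool.Agent.H26.AH
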